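import Mathlib

/-!
# Coefficients of a Fujiki relation
-/

set_option autoImplicit false

namespace Pool.Agent.K4H28.FV

open Polynomial

theorem coeff_quad {K : Type*} [Field K] (a b : K) (n : ℕ) :
    ((1 + C a * X + C b * X ^ 2 : K[X]) ^ n).coeff 0 = 1 ∧
    ((1 + C a * X + C b * X ^ 2 : K[X]) ^ n).coeff 1 = n * a ∧
    2 * ((1 + C a * X + C b * X ^ 2 : K[X]) ^ n).coeff 2 = 2 * n * b + n * (n - 1) * a ^ 2 := by
  induction n with
  | zero => simp [coeff_one]
  | succ n ih =>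
    obtain ⟨h0, h1, h2⟩ := ih
    set P := (1 + C a * X + C b * X ^ 2 : K[X]) ^ n with hP
    have h3 : (1 + C a * X + C b * X ^ 2 : K[X]) ^ (n + 1) = P + C a * (P * X) + C b * (P * X ^ 2) := by
      rw [pow_succ, ← hP]; ring
    rw [h3]
    simp only [coeff_add, coeff_C_mul]
    have e0 : (P * X).coeff 0 = 0 := by simp
    have e1 : (P * X).coeff 1 = P.coeff 0 := coeff_mul_X P 0
    have e2 : (P * X).coeff 2 = P.coeff 1 := coeff_mul_X P 1
    have f0 : (P * X ^ 2).coeff 0 = 0 := by simp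
    have f1 : (P * X ^ 2).coeff 1 = 0 := by
      rw [coeff_mul_X_pow', if_neg (by norm_num)]
    have f2 : (P * X ^ 2).coeff 2 = P.coeff 0 := coeff_mul_X_pow P 2 0
    rw [e0, e1, e2, f0, f1, f2, h0, h1]
    refine ⟨by ring, by push_cast; ring, ?_⟩
    rw [mul_add, mul_add, h2]
    push_cast
    ring

/-- The first coefficients of the relation. -/
theorem fuj_coef {K : Type*} [Field K] [CharZero K] {H : Type*} [Ring H] [Algebra K H]
    (tr : H →ₗ[K] K) {x v : H} (hxv : x * v = v * x) {n : ℕ} (hn : 1 ≤ n) {δ b1 b2 : K}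
    (h : ∀ s : K, tr ((x + s • v) ^ (2 * n)) = δ * (1 + 2 * s * b1 + s ^ 2 * b2) ^ n) :
    tr (v * x ^ (2 * n - 1)) = δ * b1 ∧
      (2 * n - 1) * tr (v ^ 2 * x ^ (2 * n - 2)) = δ * (b2 + 2 * (n - 1) * b1 ^ 2) := by
  set P : K[X] := ∑ m ∈ Finset.range (2 * n + 1),
    C (tr (v ^ m * x ^ (2 * n - m)) * ((2 * n).choose m : K)) * X ^ m with hP
  set Q : K[X] := C δ * (1 + C (2 * b1) * X + C b2 * X ^ 2) ^ n with hQ
  have hPQ : P = Q := by
    apply Polynomial.funext
    intro s
    have h1 : eval s Q = δ * (1 + 2 * s * b1 + s ^ 2 * b2) ^ n := by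
      rw [hQ]
      simp only [eval_mul, eval_C, eval_pow, eval_add, eval_one, eval_X]
      ring
    rw [h1, ← h, hP, eval_finsetSum]
    have hc : Commute (s • v) x := by
      rw [commute_iff_eq, smul_mul_assoc, mul_smul_comm, hxv]
    have e1 : ∀ (a : H) (N : ℕ), tr (a * (N : H)) = tr a * N := by
      intro a N
      rw [← nsmul_eq_mul', map_nsmul, nsmul_eq_mul, mul_comm]
    rw [add_comm x, hc.add_pow, map_sum]
    refine Finset.sum_congr rfl fun m _ => ?_
    rw [eval_mul, eval_C, eval_pow, eval_X, _root_.smul_pow, smul_mul_assoc, smul_mul_assoc,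
      map_smul, e1, smul_eq_mul]
    ring
  have hcoef : ∀ m ≤ 2 * n, P.coeff m = tr (v ^ m * x ^ (2 * n - m)) * ((2 * n).choose m : K) := by
    intro m hm
    rw [hP, finsetSum_coeff, Finset.sum_eq_single m]
    · rw [coeff_C_mul, coeff_X_pow, if_pos rfl, mul_one]
    · intro j _ hj
      rw [coeff_C_mul, coeff_X_pow, if_neg hj.symm, mul_zero]
    · intro hm'
      exact absurd (Finset.mem_range.2 (by omega)) hm'
  have hn0 : (n : K) ≠ 0 := by
    rw [Nat.cast_ne_zero]; omega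
  obtain ⟨-, q1, q2⟩ := coeff_quad (2 * b1) b2 n
  constructor
  · have h1 := hcoef 1 (by omega)
    rw [hPQ, hQ, coeff_C_mul, q1, pow_one, Nat.choose_one_right] at h1
    push_cast at h1
    have h2 : (2 * (n : K)) * tr (v * x ^ (2 * n - 1)) = (2 * (n : K)) * (δ * b1) := by
      linear_combination - h1
    exact mul_left_cancel₀ (mul_ne_zero two_ne_zero hn0) h2
  · have h1 := hcoef 2 (by omega)
    rw [hPQ, hQ, coeff_C_mul] at h1
    have h3 : ((2 * n).choose 2 : K) * 2 = (2 * n) * (2 * n - 1) := by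
      have h4 := Nat.cast_choose_two K (2 * n)
      rw [h4]
      push_cast
      ring
    have h5 : (n : K) * ((2 * n - 1) * tr (v ^ 2 * x ^ (2 * n - 2))) =
        n * (δ * (b2 + 2 * (n - 1) * b1 ^ 2)) := by
      have h6 : δ * (2 * (((1 + C (2 * b1) * X + C b2 * X ^ 2 : K[X]) ^ n).coeff 2)) =
          tr (v ^ 2 * x ^ (2 * n - 2)) * (((2 * n).choose 2 : K) * 2) := by
        linear_combination 2 * h1
      rw [q2, h3] at h6
      have h7 : (2 : K) * (n * ((2 * n - 1) * tr (v ^ 2 * x ^ (2 * n - 2)))) =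
          2 * (n * (δ * (b2 + 2 * (n - 1) * b1 ^ 2))) := by
        linear_combination - h6
      exact mul_left_cancel₀ two_ne_zero h7
    exact mul_left_cancel₀ hn0 h5

end Pool.Agent.K4H28.FV
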