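import Pool.Agent.K4H28.FV.Mon

/-!
# The Hodge–Riemann relations in an algebra
-/

set_option autoImplicit false
set_option linter.unusedSectionVars false

namespace Pool.Agent.K4H28.FV

open MvPolynomial ComplexConjugate

variable {σ : Type} [Fintype σ] [DecidableEq σ] {K L : Type*} [Field K] [CharZero K] [Field L]
  [CharZero L] [Algebra L K] {H : Type*} [Ring H] [Algebra K H] {I : Set σ}
  {U : Set (MvPolynomial σ L)} {κ : σ → ℂ} {o : σ} {ι : L →+* ℂ} {n : ℕ} {c : ℚ} {q : σ → ℚ}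

/-- The class of a polynomial. -/
noncomputable def psi (Φ : MvPolynomial σ K →ₐ[K] H) (F : MvPolynomial σ L) : H :=
  Φ (map (algebraMap L K) F)

theorem psi_mul (Φ : MvPolynomial σ K →ₐ[K] H) (F G : MvPolynomial σ L) :
    psi Φ (F * G) = psi Φ F * psi Φ G := by
  rw [psi, psi, psi, map_mul, map_mul]

theorem psi_X (Φ : MvPolynomial σ K →ₐ[K] H) (i : σ) : psi Φ (X i : MvPolynomial σ L) = Φ (X i) := by
  rw [psi, map_X]

theorem psi_pow (Φ : MvPolynomial σ K →ₐ[K] H) (F : MvPolynomial σ L) (m : ℕ) :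
    psi Φ (F ^ m) = psi Φ F ^ m := by
  rw [psi, psi, map_pow, map_pow]

theorem psi_one (Φ : MvPolynomial σ K →ₐ[K] H) : psi Φ (1 : MvPolynomial σ L) = 1 := by
  rw [psi, map_one, map_one]

theorem psi_RS (Φ : MvPolynomial σ K →ₐ[K] H) {k : ℕ} {v : H}
    (hv : RS K {x | ∃ F : MvPolynomial σ L, Mon I U k F ∧ psi Φ F = x} v) :
    ∃ F : MvPolynomial σ L, RS L {F | Mon I U k F} F ∧ psi Φ F = v := by
  induction hv with
  | zero => exact ⟨0, RS.zero, by rw [psi, map_zero, map_zero]⟩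
  | add _ _ h1 h2 =>
    obtain ⟨F₁, h1, rfl⟩ := h1
    obtain ⟨F₂, h2, rfl⟩ := h2
    exact ⟨F₁ + F₂, h1.add h2, by rw [psi, map_add, map_add]; rfl⟩
  | smul r hs =>
    obtain ⟨F, hF, rfl⟩ := hs
    refine ⟨(r : L) • F, RS.smul r hF, ?_⟩
    rw [psi, smul_eq_C_mul, map_mul, map_C, map_ratCast, ← smul_eq_C_mul, map_smul]
    rfl

/-- The Fujiki relation for the family. -/
def FujT (n : ℕ) (c : ℚ) (q : σ → ℚ) (tr : H →ₗ[K] K) (Φ : MvPolynomial σ K →ₐ[K] H) : Prop :=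
  ∀ t : σ → K, tr (Φ ((∑ i, C (t i) * X i) ^ (2 * n))) = c * (∑ i, q i * t i ^ 2) ^ n

theorem tr_psi {tr : H →ₗ[K] K} {Φ : MvPolynomial σ K →ₐ[K] H} (hT : FujT n c q tr Φ)
    {F : MvPolynomial σ L} (hF : F.IsHomogeneous (2 * n)) :
    tr (psi Φ F) = algebraMap L K (wL n c q L F) :=
  T_map (tr ∘ₗ Φ.toLinearMap) hT hF

variable (hc : 0 < c) (hκ : ∀ i, κ i ^ 2 = (q i : ℂ)) (hκ0 : ∀ i, κ i ≠ 0)
  (hs : Sub κ o ι I U) {tr : H →ₗ[K] K} {Φ : MvPolynomial σ K →ₐ[K] H} (hT : FujT n c q tr Φ)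

include hc hκ hκ0 hs hT

/-- Nondegeneracy. -/
theorem core_nd {k m : ℕ} (hkm : k + m = n) {F : MvPolynomial σ L}
    (hF : RS L {F | Mon I U k F} F)
    (h0 : ∀ G : MvPolynomial σ L, Mon I U (k + 2 * m) G → tr (psi Φ F * psi Φ G) = 0) : F = 0 := by
  apply nd_poly hc hκ hκ0 hs hkm hF
  intro R hR
  have h1 := h0 (X o ^ (2 * m) * R) (hR.pow hs.mem _)
  rw [← psi_mul, tr_psi hT] at h1
  · rw [mul_assoc]
    exact (map_eq_zero_iff _ (algebraMap L K).injective).1 h1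
  · have h2 := (hF.hom hs.hom).mul (((isHomogeneous_X L o).pow (2 * m)).mul (hR.hom hs.hom))
    have h3 : k + (1 * (2 * m) + k) = 2 * n := by rw [← hkm]; ring
    rwa [h3] at h2

/-- The class is a rational combination of monomials. -/
theorem core_descent {k m : ℕ} (hkm : k + m = n) {x : H}
    (hx : x ∈ Submodule.span K {x | ∃ F : MvPolynomial σ L, Mon I U k F ∧ psi Φ F = x})
    (hr : ∀ F G : MvPolynomial σ L, Mon I U k F → Mon I U (k + 2 * m) G →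
      ∃ r : ℚ, tr (psi Φ F * psi Φ G) = r)
    (hxr : ∀ G : MvPolynomial σ L, Mon I U (k + 2 * m) G → ∃ r : ℚ, tr (x * psi Φ G) = r) :
    ∃ F : MvPolynomial σ L, RS L {F | Mon I U k F} F ∧ psi Φ F = x := by
  apply psi_RS
  refine descent (B := {φ | ∃ G : MvPolynomial σ L, Mon I U (k + 2 * m) G ∧
    φ = tr ∘ₗ LinearMap.mulRight K (psi Φ G)}) ?_ ?_ hx ?_
  · rintro _ ⟨F, hF, rfl⟩ _ ⟨G, hG, rfl⟩
    exact hr F G hF hG
  · intro v hv h0
    obtain ⟨F, hF, rfl⟩ := psi_RS Φ hv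
    have := core_nd hc hκ hκ0 hs hT hkm hF fun G hG => h0 _ ⟨G, hG, rfl⟩
    rw [this, psi, map_zero, map_zero]
  · rintro _ ⟨G, hG, rfl⟩
    exact hxr G hG

/-- **The Hodge–Riemann relations.** -/
theorem core_hr {k m : ℕ} (hkm : k + m = n) {x : H}
    (hx : x ∈ Submodule.span K {x | ∃ F : MvPolynomial σ L, Mon I U k F ∧ psi Φ F = x})
    (hr : ∀ F G : MvPolynomial σ L, Mon I U k F → Mon I U (k + 2 * m) G →
      ∃ r : ℚ, tr (psi Φ F * psi Φ G) = r)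
    (hxr : ∀ G : MvPolynomial σ L, Mon I U (k + 2 * m) G → ∃ r : ℚ, tr (x * psi Φ G) = r)
    (hx0 : x ≠ 0)
    (hprim : ∀ k' (R : MvPolynomial σ L), k = k' + 1 → Mon I U k' R →
      tr (x * (Φ (X o) ^ (2 * m + 1) * psi Φ R)) = 0)
    {r : ℚ} (hrx : tr (x * (x * Φ (X o) ^ (2 * m))) = r) : 0 < (-1) ^ k * r := by
  obtain ⟨F, hF, rfl⟩ := core_descent hc hκ hκ0 hs hT hkm hx hr hxr
  have hF0 : F ≠ 0 := by
    rintro rfl
    apply hx0
    rw [psi, map_zero, map_zero]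
  have hFh := hF.hom hs.hom
  have h1 := hr_poly hc hκ hκ0 hs hkm hF hF0 (fun k' R hk hR => by
    have h2 := hprim k' R hk hR
    rw [← psi_X (L := L), ← psi_pow, ← psi_mul, ← psi_mul, tr_psi hT] at h2
    · rw [mul_assoc]
      exact (map_eq_zero_iff _ (algebraMap L K).injective).1 h2
    · have h3 := hFh.mul (((isHomogeneous_X L o).pow (2 * m + 1)).mul (hR.hom hs.hom))
      have h4 : k + (1 * (2 * m + 1) + k') = 2 * n := by rw [← hkm, hk]; ring
      rwa [h4] at h3)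
  have h5 : F * (F * X o ^ (2 * m)) = F ^ 2 * X o ^ (2 * m) := by ring
  rw [← psi_X (L := L), ← psi_pow, ← psi_mul, ← psi_mul, h5, tr_psi hT] at hrx
  · have h6 : wL n c q L (F ^ 2 * X o ^ (2 * m)) = (r : L) := by
      apply (algebraMap L K).injective
      rw [hrx, map_ratCast]
    rw [h6, map_ratCast] at h1
    have h7 : ((-1 : ℂ) ^ k * (r : ℂ)) = (((-1 : ℚ) ^ k * r : ℚ) : ℂ) := by push_cast; rfl
    rw [h7, Complex.ratCast_re] at h1
    exact_mod_cast h1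
  · have h3 := (hFh.pow 2).mul ((isHomogeneous_X L o).pow (2 * m))
    have h4 : k * 2 + 1 * (2 * m) = 2 * n := by rw [← hkm]; ring
    rwa [h4] at h3

end Pool.Agent.K4H28.FV
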