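import Pool.Agent.W552.TautStmt

/-!
# Varieties with a Fujiki relation: definitions
-/

set_option autoImplicit false

open CategoryTheory AlgebraicGeometry

universe u v

namespace Pool.Agent.K4H28.FV

open Pool.Agent.H914 VarClass Obj WeilCohomology

variable {k : Type u} [Field k] {𝒱 : VarClass k} {ops : CycleOps 𝒱}

/-- The Fujiki relation on the space `S` of classes of degree `2` on the variety `X` of dimension
`2 n`: there are a constant `c` and a symmetric bilinear form `β` with
`Tr (z ^ (2 n)) = c β(z, z) ^ n` for all `z` in `S`. -/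
def FujikiOn (W : WeilCohomology.{u, v} ops) (X : 𝒱.Obj) (n : ℕ) (S : Submodule W.K (W.H X)) :
    Prop :=
  ∃ (β : LinearMap.BilinForm W.K (W.H X)) (c : W.K), (∀ x y, β x y = β y x) ∧
    ∀ z ∈ S, W.tr X (z ^ (2 * n)) = c * β z z ^ n

/-- The Hodge index theorem for `X` and `D`: the intersection number `z · z · D ^ (dim X - 2)` is
negative for every divisor `z` whose class is primitive and not zero. -/
def HodgeIndex (W : WeilCohomology.{u, v} ops) (X : 𝒱.Obj) (D : X.Cycles) : Prop :=
  ∀ z, X.IsCyc 1 z → W.cl X (divPow ops D (X.dim - 1) z) = 0 → W.cl X z ≠ 0 →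
    X.V.degCycle (ops.mul z (divPow ops D (X.dim - 2) z)) < 0

/-- The variety `X` of dimension `2 n > 0` has the divisor `D` with `deg (D ^ (2 n)) > 0`, the
Hodge index theorem holds for it, and the Fujiki relation holds on the space `S` of classes of
degree `2`. -/
structure IsFujiki (W : WeilCohomology.{u, v} ops) (X : 𝒱.Obj) (D : X.Cycles) (n : ℕ)
    (S : Submodule W.K (W.H X)) : Prop where
  pos : 1 ≤ n
  dim : X.dim = 2 * n
  div : X.IsCyc 1 D
  degree : 0 < X.V.degCycle (divPow ops D X.dim X.V.fundCycle)
  index : HodgeIndex W X D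
  fujiki : FujikiOn W X n S

/-- The endomorphism `f` acts on `H ^ 2(X)` as a Frobenius endomorphism over a field with `q`
elements over which all divisors are defined, and the eigenvalues which do not come from divisors
are independent: `H ^ 2(X)` is spanned by the classes of divisors, on which `f` is the
multiplication by `q`, and by the eigenvectors `e i`, `e' i` of `f` for the eigenvalues `α i`,
`q ^ 2 / α i`, and there is no relation `∏ i, (α i / q) ^ (M a i) = 1` with `M ≥ 1` and integers
`a i`, not all equal to zero, with `∑ i, |a i| ≤ n`. -/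
structure IsSpectrum (W : WeilCohomology.{u, v} ops) (X : 𝒱.Obj) (f : X ⟶ X) (q n : ℕ) {m : ℕ}
    (e e' : Fin m → W.H X) (α : Fin m → W.K) : Prop where
  mem : ∀ i, e i ∈ W.gr X 2
  mem' : ∀ i, e' i ∈ W.gr X 2
  ne_zero : ∀ i, e i ≠ 0
  eig : ∀ i, W.map f (e i) = α i • e i
  eig' : ∀ i, α i • W.map f (e' i) = (q : W.K) ^ 2 • e' i
  span : W.gr X 2 ≤ Submodule.span W.K (algClasses W X 1 ∪ Set.range e ∪ Set.range e')
  div : ∀ z, X.IsCyc 1 z → W.map f (W.cl X z) = (q : W.K) • W.cl X z
  indep : ∀ M : ℕ, 1 ≤ M → ∀ a : Fin m → ℤ, ∑ i, |a i| ≤ n →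
    ∏ i, (α i / q) ^ (M * a i) = 1 → a = 0

/-- The divisor `D` on the variety `X` satisfies hard Lefschetz and the Lefschetz standard
conjecture, the endomorphism `f` acts on the algebraic classes as a Frobenius endomorphism over a
field with `q` elements, its eigenvalues on `H ^ 2(X)` have the complex absolute value `q`, and
those which do not come from divisors are independent in degrees up to `n`. -/
structure IsFrobenius (W : WeilCohomology.{u, v} ops) (X : 𝒱.Obj) (D : X.Cycles) (f : X ⟶ X)
    (q n : ℕ) {m : ℕ} (e e' : Fin m → W.H X) (α : Fin m → W.K) : Prop where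
  hardLef : HardLefschetz W X D
  lefB : LefschetzB W X D
  q_pos : 1 ≤ q
  two_le : 2 ≤ n
  cycles : FrobeniusOnCycles W X f q
  weight : HasWeight (W.map f).toLinearMap (W.gr X 2) ((q : ℝ) ^ 2)
  spectrum : IsSpectrum W X f q n e e' α

end Pool.Agent.K4H28.FV
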