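import Mathlib

/-!
# Rational combinations and descent
-/

set_option autoImplicit false
set_option linter.unusedSectionVars false

namespace Pool.Agent.K4H28.FV

variable {K : Type*} [Field K] [CharZero K] {A : Type*} [AddCommGroup A] [Module K A]

/-- The linear combinations with rational coefficients of the elements of `S`. -/
inductive RS (K : Type*) [Field K] {A : Type*} [AddCommGroup A] [Module K A] (S : Set A) :
    A → Prop
  | zero : RS K S 0
  | add {x y} : RS K S x → RS K S y → RS K S (x + y)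
  | smul (r : ℚ) {s} : s ∈ S → RS K S ((r : K) • s)

theorem RS.of {S : Set A} {x : A} (h : x ∈ S) : RS K S x := by
  have := RS.smul (K := K) (1 : ℚ) h
  rwa [Rat.cast_one, one_smul] at this

theorem RS.rat {S : Set A} {x : A} (h : RS K S x) (r : ℚ) : RS K S ((r : K) • x) := by
  induction h with
  | zero => rw [smul_zero]; exact RS.zero
  | add _ _ h1 h2 => rw [smul_add]; exact h1.add h2
  | smul r' hs =>
    rw [smul_smul, ← Rat.cast_mul]
    exact RS.smul _ hs

theorem RS.neg {S : Set A} {x : A} (h : RS K S x) : RS K S (-x) := by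
  have := h.rat (-1)
  rwa [Rat.cast_neg, Rat.cast_one, neg_one_smul] at this

theorem RS.sub {S : Set A} {x y : A} (h : RS K S x) (h' : RS K S y) : RS K S (x - y) := by
  rw [sub_eq_add_neg]
  exact h.add h'.neg

theorem RS.sum {S : Set A} {J : Type*} {s : Finset J} {x : J → A} (h : ∀ j ∈ s, RS K S (x j)) :
    RS K S (∑ j ∈ s, x j) := by
  classical
  induction s using Finset.induction_on with
  | empty => rw [Finset.sum_empty]; exact RS.zero
  | insert a s ha ih =>
    rw [Finset.sum_insert ha]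
    exact (h a (Finset.mem_insert_self a s)).add (ih fun j hj => h j (Finset.mem_insert_of_mem hj))

theorem RS.mono {S S' : Set A} (hS : ∀ s ∈ S, RS K S' s) {x : A} (h : RS K S x) : RS K S' x := by
  induction h with
  | zero => exact RS.zero
  | add _ _ h1 h2 => exact h1.add h2
  | smul r hs => exact (hS _ hs).rat r

/-- **Descent.** -/
theorem descent {S : Set A} {B : Set (A →ₗ[K] K)} (hrat : ∀ s ∈ S, ∀ φ ∈ B, ∃ r : ℚ, φ s = r)
    (nd : ∀ v, RS K S v → (∀ φ ∈ B, φ v = 0) → v = 0) {x : A} (hx : x ∈ Submodule.span K S)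
    (hxr : ∀ φ ∈ B, ∃ r : ℚ, φ x = r) : RS K S x := by
  classical
  rw [Finsupp.mem_span_iff_linearCombination] at hx
  obtain ⟨l, hl⟩ := hx
  set b := Module.Basis.ofVectorSpace ℚ K with hb
  set c := b.repr 1 with hc
  set J : Finset _ := c.support ∪ l.support.biUnion fun s => (b.repr (l s)).support with hJ
  set xj : _ → A := fun j => ∑ s ∈ l.support, ((b.repr (l s) j : ℚ) : K) • (s : A) with hxj
  have hxjR : ∀ j, RS K S (xj j) := fun j => RS.sum fun s _ => RS.smul _ s.2
  have hexp : ∀ (J' : Finset (Module.Basis.ofVectorSpaceIndex ℚ K)) (a : K),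
      (b.repr a).support ⊆ J' → a = ∑ j ∈ J', ((b.repr a j : ℚ) : K) * b j := by
    intro J' a hJ'
    conv_lhs => rw [← b.linearCombination_repr a, Finsupp.linearCombination_apply]
    refine (Finsupp.sum_of_support_subset _ hJ' (fun i (a : ℚ) => a • b i)
      (fun i _ => zero_smul _ _)).trans ?_
    refine Finset.sum_congr rfl fun j _ => ?_
    rw [Rat.smul_def]
  have hxsum : x = ∑ j ∈ J, b j • xj j := by
    rw [← hl, Finsupp.linearCombination_apply, Finsupp.sum]
    simp only [hxj, Finset.smul_sum]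
    rw [Finset.sum_comm]
    refine Finset.sum_congr rfl fun s hs => ?_
    rw [hexp J (l s) (by
      intro j hj
      rw [hJ, Finset.mem_union, Finset.mem_biUnion]
      exact Or.inr ⟨s, hs, hj⟩), Finset.sum_smul]
    refine Finset.sum_congr rfl fun j _ => ?_
    rw [smul_smul, mul_comm, ← hexp J (l s) (by
      intro j hj
      rw [hJ, Finset.mem_union, Finset.mem_biUnion]
      exact Or.inr ⟨s, hs, hj⟩)]
  have hratS : ∀ v, RS K S v → ∀ φ ∈ B, ∃ r : ℚ, φ v = r := by
    intro v hv φ hφ
    induction hv with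
    | zero => exact ⟨0, by rw [map_zero, Rat.cast_zero]⟩
    | add _ _ h1 h2 =>
      obtain ⟨r1, h1⟩ := h1
      obtain ⟨r2, h2⟩ := h2
      exact ⟨r1 + r2, by rw [map_add, h1, h2, Rat.cast_add]⟩
    | smul r hs =>
      obtain ⟨r', h'⟩ := hrat _ hs φ hφ
      exact ⟨r * r', by rw [map_smul, h', smul_eq_mul, Rat.cast_mul]⟩
  -- the coefficients
  have hcoef : ∀ φ ∈ B, ∃ r : ℚ, φ x = r ∧ ∀ j ∈ J, φ (xj j) = ((r * c j : ℚ) : K) := by
    intro φ hφ
    obtain ⟨r, hr⟩ := hxr φ hφ
    refine ⟨r, hr, fun j hj => ?_⟩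
    choose! rj hrj using fun j => hratS (xj j) (hxjR j) φ hφ
    have h1 : (r : K) = ∑ j ∈ J, (rj j : K) * b j := by
      rw [← hr, hxsum, map_sum]
      refine Finset.sum_congr rfl fun j _ => ?_
      rw [map_smul, hrj, smul_eq_mul, mul_comm]
    have h2 : b.repr (r : K) = r • c := by
      rw [hc, ← map_smul, Rat.smul_def, mul_one]
    have h3 : b.repr (r : K) j = rj j := by
      rw [h1, map_sum, Finsupp.finsetSum_apply, Finset.sum_eq_single j]
      · rw [← Rat.smul_def, map_smul, b.repr_self, Finsupp.smul_apply, Finsupp.single_eq_same,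
          smul_eq_mul, mul_one]
      · intro i _ hij
        rw [← Rat.smul_def, map_smul, b.repr_self, Finsupp.smul_apply,
          Finsupp.single_eq_of_ne (by exact fun h => hij h.symm), smul_zero]
      · intro h
        exact absurd hj h
    rw [hrj, ← h3, h2, Finsupp.smul_apply, smul_eq_mul]
  have hc0 : c ≠ 0 := by
    intro h
    have : (1 : K) = 0 := b.repr.injective (by rw [← hc, h, map_zero])
    exact one_ne_zero this
  obtain ⟨j0, hj0⟩ := Finsupp.support_nonempty_iff.2 hc0
  have hj0' : c j0 ≠ 0 := Finsupp.mem_support_iff.1 hj0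
  have hj0J : j0 ∈ J := Finset.mem_union_left _ hj0
  set x' : A := (((c j0)⁻¹ : ℚ) : K) • xj j0 with hx'
  have hx'R : RS K S x' := (hxjR j0).rat _
  have hxjx : ∀ j ∈ J, xj j = ((c j : ℚ) : K) • x' := by
    intro j hj
    rw [← sub_eq_zero]
    apply nd _ ((hxjR j).sub (hx'R.rat _))
    intro φ hφ
    obtain ⟨r, -, hr⟩ := hcoef φ hφ
    rw [map_sub, map_smul, hx', map_smul, hr j hj, hr j0 hj0J, smul_eq_mul, smul_eq_mul]
    have h4 : ((c j0 : ℚ) : K) ≠ 0 := Rat.cast_ne_zero.2 hj0'
    push_cast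
    field_simp
    ring
  have hfin : x = x' := by
    rw [hxsum]
    have h5 : ∑ j ∈ J, b j • xj j = (∑ j ∈ J, ((c j : ℚ) : K) * b j) • x' := by
      rw [Finset.sum_smul]
      refine Finset.sum_congr rfl fun j hj => ?_
      rw [hxjx j hj, smul_smul, mul_comm]
    rw [h5, ← hexp J 1 Finset.subset_union_left, one_smul]
  rw [hfin]
  exact hx'R

end Pool.Agent.K4H28.FV
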