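import Mathlib

/-!
# Gaussian integrals of polynomials
-/

set_option autoImplicit false

namespace Pool.Agent.K4H28.FV

open MeasureTheory MvPolynomial Real

/-- The moments of the Gaussian weight. -/
noncomputable def mom (k : ℕ) : ℝ := ∫ x : ℝ, x ^ k * exp (-x ^ 2)

theorem int_mom (k : ℕ) : Integrable fun x : ℝ => x ^ k * exp (-x ^ 2) := by
  have h := integrable_rpow_mul_exp_neg_mul_sq one_pos (s := (k : ℝ))
    (by have := Nat.cast_nonneg (α := ℝ) k; linarith)
  refine h.congr (Filter.Eventually.of_forall fun x => ?_)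
  simp only [rpow_natCast, neg_mul, one_mul]

theorem mom_odd {k : ℕ} (hk : Odd k) : mom k = 0 := by
  have h := integral_neg_eq_self (fun x : ℝ => x ^ k * exp (-x ^ 2)) volume
  have h2 : (∫ x : ℝ, (-x) ^ k * exp (-(-x) ^ 2)) = - mom k := by
    rw [mom, ← integral_neg]
    congr 1
    funext x
    rw [hk.neg_pow, neg_sq]
    ring
  rw [h2] at h
  change - mom k = mom k at h
  linarith

theorem mom_gamma (j : ℕ) : mom (2 * j) = Gamma (j + 1 / 2) := by
  have h1 : mom (2 * j) = ∫ x : ℝ, (fun y : ℝ => y ^ (2 * j) * exp (-y ^ 2)) |x| := by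
    rw [mom]
    congr 1
    funext x
    simp only [pow_mul, sq_abs]
  rw [h1]
  refine (integral_comp_abs (f := fun y : ℝ => y ^ (2 * j) * exp (-y ^ 2))).trans ?_
  have h2 := integral_rpow_mul_exp_neg_rpow (p := 2) (q := ((2 * j : ℕ) : ℝ)) two_pos
    (by have := Nat.cast_nonneg (α := ℝ) (2 * j); linarith)
  have h3 : ∫ x in Set.Ioi (0 : ℝ), x ^ (2 * j) * exp (-x ^ 2) =
      ∫ x in Set.Ioi (0 : ℝ), x ^ ((2 * j : ℕ) : ℝ) * exp (-x ^ (2 : ℝ)) := by
    refine setIntegral_congr_fun measurableSet_Ioi fun x _ => ?_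
    simp only [rpow_natCast, rpow_two]
  rw [h3, h2]
  have h4 : (((2 * j : ℕ) : ℝ) + 1) / 2 = j + 1 / 2 := by push_cast; ring
  rw [h4]
  ring

theorem mom_even (j : ℕ) :
    mom (2 * j) = √π * ((2 * j).factorial / (j.factorial * 4 ^ j)) := by
  rw [mom_gamma]
  induction j with
  | zero =>
    have := Gamma_one_half_eq
    simpa using this
  | succ j ih =>
    have h1 : ((j + 1 : ℕ) : ℝ) + 1 / 2 = (j + 1 / 2 : ℝ) + 1 := by push_cast; ring
    rw [h1, Gamma_add_one (by positivity), ih]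
    rw [show 2 * (j + 1) = 2 * j + 1 + 1 by ring, Nat.factorial_succ, Nat.factorial_succ,
      Nat.factorial_succ]
    have h2 : (j.factorial : ℝ) ≠ 0 := by positivity
    push_cast
    field_simp
    ring

section

variable {σ : Type} [Fintype σ]

/-- The Gaussian weight. -/
noncomputable def wgt (x : σ → ℝ) : ℝ := ∏ i, exp (-x i ^ 2)

theorem wgt_pos (x : σ → ℝ) : 0 < wgt x := Finset.prod_pos fun _ _ => exp_pos _

theorem int_mono (γ : σ → ℕ) : Integrable fun x : σ → ℝ => (∏ i, x i ^ γ i) * wgt x := by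
  have h := Integrable.fintype_prod (μ := fun _ : σ => (volume : Measure ℝ))
    (f := fun i x => x ^ γ i * exp (-x ^ 2)) (fun i => int_mom (γ i))
  refine h.congr (Filter.Eventually.of_forall fun x => ?_)
  simp only [wgt, Finset.prod_mul_distrib]

theorem integral_mono' (γ : σ → ℕ) : ∫ x : σ → ℝ, (∏ i, x i ^ γ i) * wgt x = ∏ i, mom (γ i) := by
  have h := integral_fintype_prod_volume_eq_prod (fun (i : σ) (x : ℝ) => x ^ γ i * exp (-x ^ 2))
  rw [show (∏ i, mom (γ i)) = ∏ i, ∫ x : ℝ, x ^ γ i * exp (-x ^ 2) from rfl, ← h]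
  congr 1
  funext x
  simp only [wgt, Finset.prod_mul_distrib]

/-- Evaluation of complex polynomials at real points. -/
noncomputable def ev (G : MvPolynomial σ ℂ) (x : σ → ℝ) : ℂ := eval (fun i => (x i : ℂ)) G

/-- The Gaussian integral. -/
noncomputable def gint (G : MvPolynomial σ ℂ) : ℂ := ∫ x : σ → ℝ, ev G x * (wgt x : ℂ)

theorem ev_eq (G : MvPolynomial σ ℂ) (x : σ → ℝ) :
    ev G x * (wgt x : ℂ) = ∑ γ ∈ G.support, G.coeff γ * (((∏ i, x i ^ γ i) * wgt x : ℝ) : ℂ) := by
  rw [ev, eval_eq', Finset.sum_mul]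
  refine Finset.sum_congr rfl fun γ _ => ?_
  push_cast
  ring

theorem int_ev (G : MvPolynomial σ ℂ) : Integrable fun x : σ → ℝ => ev G x * (wgt x : ℂ) := by
  simp only [ev_eq]
  refine integrable_finsetSum _ fun γ _ => ?_
  exact ((int_mono γ).ofReal).const_mul _

theorem gint_eq (G : MvPolynomial σ ℂ) :
    gint G = ∑ γ ∈ G.support, G.coeff γ * ((∏ i, mom (γ i) : ℝ) : ℂ) := by
  rw [gint]
  simp only [ev_eq]
  have h0 : ∀ γ ∈ G.support, Integrable fun x : σ → ℝ =>
      G.coeff γ * (((∏ i, x i ^ γ i) * wgt x : ℝ) : ℂ) :=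
    fun γ _ => ((int_mono (fun i => γ i)).ofReal).const_mul _
  refine (integral_finsetSum _ h0).trans ?_
  refine Finset.sum_congr rfl fun γ _ => ?_
  rw [← integral_mono']
  refine (integral_const_mul _ _).trans ?_
  congr 1
  exact integral_ofReal

theorem gint_add (G H : MvPolynomial σ ℂ) : gint (G + H) = gint G + gint H := by
  rw [gint, gint, gint, ← integral_add (int_ev G) (int_ev H)]
  congr 1
  funext x
  rw [ev, ev, ev, map_add, add_mul]

theorem gint_smul (a : ℂ) (G : MvPolynomial σ ℂ) : gint (a • G) = a * gint G := by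
  rw [gint, gint, ← integral_const_mul]
  congr 1
  funext x
  rw [ev, ev, smul_eval, mul_assoc]

theorem gint_monomial (γ : σ →₀ ℕ) (a : ℂ) :
    gint (monomial γ a) = a * ((∏ i, mom (γ i) : ℝ) : ℂ) := by
  classical
  rw [gint_eq, support_monomial]
  split_ifs with h
  · rw [Finset.sum_empty, h, zero_mul]
  · rw [Finset.sum_singleton, coeff_monomial, if_pos rfl]

/-- **Positivity.** -/
theorem gint_pos {G H : MvPolynomial σ ℂ} (hG : ∀ x : σ → ℝ, ev G x = ((‖ev H x‖ ^ 2 : ℝ) : ℂ))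
    {κ : σ → ℂ} (hκ : ∀ i, κ i ≠ 0) {P : MvPolynomial σ ℂ} (hP : P ≠ 0)
    (hH : ∀ x : σ → ℝ, ev H x = eval (fun i => κ i * x i) P) : 0 < (gint G).re ∧ (gint G).im = 0 := by
  have h1 : gint G = ((∫ x : σ → ℝ, ‖ev H x‖ ^ 2 * wgt x : ℝ) : ℂ) := by
    have h0 : (((∫ x : σ → ℝ, ‖ev H x‖ ^ 2 * wgt x : ℝ)) : ℂ) =
        ∫ x : σ → ℝ, ((‖ev H x‖ ^ 2 * wgt x : ℝ) : ℂ) :=
      (integral_ofReal (𝕜 := ℂ) (f := fun x : σ → ℝ => ‖ev H x‖ ^ 2 * wgt x)).symm
    rw [h0, gint]
    congr 1
    funext x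
    rw [hG]
    push_cast
    rfl
  rw [h1, Complex.ofReal_re, Complex.ofReal_im]
  refine ⟨?_, rfl⟩
  have hint : Integrable fun x : σ → ℝ => ‖ev H x‖ ^ 2 * wgt x := by
    have h2 := (int_ev G).re
    refine h2.congr (Filter.Eventually.of_forall fun x => ?_)
    simp only [hG]
    rw [← Complex.ofReal_mul]
    exact Complex.ofReal_re _
  have hcont : Continuous fun x : σ → ℝ => ev H x := by
    have h3 : Continuous fun x : σ → ℝ => (fun i => (x i : ℂ) : σ → ℂ) := by fun_prop
    exact (MvPolynomial.continuous_eval H).comp h3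
  have hcw : Continuous fun x : σ → ℝ => wgt x := by
    unfold wgt
    fun_prop
  rw [integral_pos_iff_support_of_nonneg_ae (Filter.Eventually.of_forall fun x =>
    mul_nonneg (sq_nonneg _) (wgt_pos x).le) hint]
  have hopen : IsOpen (Function.support fun x : σ → ℝ => ‖ev H x‖ ^ 2 * wgt x) :=
    ((hcont.norm.pow 2).mul hcw).isOpen_support
  refine hopen.measure_pos _ ?_
  by_contra hcon
  rw [Set.not_nonempty_iff_eq_empty, Function.support_eq_empty_iff] at hcon
  apply hP
  refine funext_set (fun i => Set.range fun r : ℝ => κ i * r) (fun i => ?_) fun y hy => ?_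
  · refine Set.infinite_range_of_injective fun r s hrs => ?_
    exact Complex.ofReal_injective (mul_left_cancel₀ (hκ i) hrs)
  · choose x hx using fun i => hy i (Set.mem_univ i)
    have h4 := congrFun hcon x
    have h5 : ev H x = 0 := by
      rcases mul_eq_zero.1 h4 with h | h
      · exact norm_eq_zero.1 (pow_eq_zero_iff two_ne_zero |>.1 h)
      · exact absurd h (wgt_pos x).ne'
    rw [hH] at h5
    have h6 : (fun i => κ i * (x i : ℂ)) = y := funext hx
    rw [h6] at h5
    rw [h5, map_zero]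

end

end Pool.Agent.K4H28.FV
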