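import Pool.Agent.K4H28.FV.Defs
import Pool.Agent.K4H28.FV.Coef
import Pool.Agent.H914R2.GFrob

/-!
# The normal form of a Fujiki relation
-/

set_option autoImplicit false
set_option linter.unusedSectionVars false

open CategoryTheory AlgebraicGeometry

universe u v

namespace Pool.Agent.K4H28.FV

open Pool.Agent.H914 VarClass Obj WeilCohomology

variable {k : Type u} [Field k] {𝒱 : VarClass k} {ops : CycleOps 𝒱}
  {W : WeilCohomology.{u, v} ops} {X : 𝒱.Obj} {D : X.Cycles}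

theorem alg_one : (1 : W.H X) ∈ algClasses W X 0 := ⟨_, X.V.fundCycle_mem, W.cl_fund X⟩

theorem alg_mul {i j : ℕ} {x y : W.H X} (hx : x ∈ algClasses W X i) (hy : y ∈ algClasses W X j) :
    x * y ∈ algClasses W X (i + j) := by
  obtain ⟨z, hz, rfl⟩ := hx
  obtain ⟨w, hw, rfl⟩ := hy
  exact ⟨_, ops.mul_mem hz hw, W.cl_mul z w⟩

theorem alg_add {i : ℕ} {x y : W.H X} (hx : x ∈ algClasses W X i) (hy : y ∈ algClasses W X i) :
    x + y ∈ algClasses W X i := by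
  obtain ⟨z, hz, rfl⟩ := hx
  obtain ⟨w, hw, rfl⟩ := hy
  exact ⟨_, hz.add hw, map_add _ _ _⟩

theorem alg_zero (i : ℕ) : (0 : W.H X) ∈ algClasses W X i :=
  ⟨0, SmVar.IsCyc.zero _ _, map_zero _⟩

theorem alg_smul {i : ℕ} {x : W.H X} (hx : x ∈ algClasses W X i) (r : ℚ) :
    (r : W.K) • x ∈ algClasses W X i := by
  obtain ⟨z, hz, rfl⟩ := hx
  exact ⟨_, hz.smul r, W.cl_smul r z⟩

theorem alg_neg {i : ℕ} {x : W.H X} (hx : x ∈ algClasses W X i) : -x ∈ algClasses W X i := by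
  have := alg_smul hx (-1)
  rwa [Rat.cast_neg, Rat.cast_one, neg_one_smul] at this

theorem alg_sub {i : ℕ} {x y : W.H X} (hx : x ∈ algClasses W X i) (hy : y ∈ algClasses W X i) :
    x - y ∈ algClasses W X i := by
  rw [sub_eq_add_neg]
  exact alg_add hx (alg_neg hy)

theorem alg_sum {i : ℕ} {J : Type*} {s : Finset J} {x : J → W.H X}
    (h : ∀ j ∈ s, x j ∈ algClasses W X i) : ∑ j ∈ s, x j ∈ algClasses W X i := by
  classical
  induction s using Finset.induction_on with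
  | empty => rw [Finset.sum_empty]; exact alg_zero i
  | insert a s ha ih =>
    rw [Finset.sum_insert ha]
    exact alg_add (h a (Finset.mem_insert_self a s))
      (ih fun j hj => h j (Finset.mem_insert_of_mem hj))

theorem alg_pow {i : ℕ} {x : W.H X} (hx : x ∈ algClasses W X i) (j : ℕ) :
    x ^ j ∈ algClasses W X (j * i) := by
  induction j with
  | zero => rw [pow_zero, zero_mul]; exact alg_one
  | succ j ih =>
    rw [pow_succ', add_mul, one_mul, add_comm]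
    exact alg_mul hx ih

theorem alg_rat {i : ℕ} (hi : i = X.dim) {x : W.H X} (hx : x ∈ algClasses W X i) :
    ∃ r : ℚ, W.tr X x = r := by
  subst hi
  obtain ⟨z, hz, rfl⟩ := hx
  exact ⟨_, W.tr_cl hz⟩

theorem alg_mem {i : ℕ} {x : W.H X} (hx : x ∈ algClasses W X i) : x ∈ W.gr X (2 * i) := by
  obtain ⟨z, hz, rfl⟩ := hx
  exact W.cl_mem hz

theorem two_comm {x : W.H X} (hx : x ∈ W.gr X 2) (y : W.H X) : x * y = y * x :=
  W.even_comm (p := 1) hx y

/-- The normalized relation. -/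
structure NF (W : WeilCohomology.{u, v} ops) (X : 𝒱.Obj) (ξ : W.H X) (n : ℕ)
    (S : Submodule W.K (W.H X)) (δ : ℚ) (β : LinearMap.BilinForm W.K (W.H X)) : Prop where
  symm : ∀ x y, β x y = β y x
  one : β ξ ξ = 1
  rel : ∀ z ∈ S, W.tr X (z ^ (2 * n)) = δ * β z z ^ n
  le : S ≤ W.gr X 2
  mem : ξ ∈ S
  pos : 0 < δ
  alg : ξ ∈ algClasses W X 1
  dim : X.dim = 2 * n
  n_pos : 1 ≤ n

theorem exists_nf {n : ℕ} (hn : 1 ≤ n) (hX : X.dim = 2 * n) (hD : X.IsCyc 1 D)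
    (hdeg : 0 < X.V.degCycle (divPow ops D X.dim X.V.fundCycle)) {S : Submodule W.K (W.H X)}
    (hS : S ≤ W.gr X 2) (hDS : W.cl X D ∈ S) (hF : FujikiOn W X n S) :
    ∃ β, NF W X (W.cl X D) n S (X.V.degCycle (divPow ops D X.dim X.V.fundCycle)) β := by
  obtain ⟨β, c, hsymm, hrel⟩ := hF
  set δ := X.V.degCycle (divPow ops D X.dim X.V.fundCycle) with hδ
  set ξ := W.cl X D with hξ
  have htr : W.tr X (ξ ^ (2 * n)) = (δ : W.K) := by
    rw [hδ, ← W.tr_cl, cl_divPow, W.cl_fund, ← hX, LinearMap.pow_mulLeft,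
      LinearMap.mulLeft_apply, mul_one]
    have := divPow_mem (ops := ops) hD X.dim X.V.fundCycle_mem
    rwa [zero_add] at this
  have h1 : c * β ξ ξ ^ n = δ := by rw [← hrel ξ hDS, htr]
  have hδ0 : (δ : W.K) ≠ 0 := Rat.cast_ne_zero.2 hdeg.ne'
  have hβ0 : β ξ ξ ≠ 0 := by
    intro h0
    rw [h0, zero_pow (by omega), mul_zero] at h1
    exact hδ0 h1.symm
  refine ⟨(β ξ ξ)⁻¹ • β, ?_, ?_, ?_, hS, hDS, hdeg, ⟨D, hD, rfl⟩, hX, hn⟩
  · intro x y
    rw [LinearMap.smul_apply, LinearMap.smul_apply, LinearMap.smul_apply, LinearMap.smul_apply,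
      hsymm x y]
  · rw [LinearMap.smul_apply, LinearMap.smul_apply, smul_eq_mul, inv_mul_cancel₀ hβ0]
  · intro z hz
    rw [hrel z hz, LinearMap.smul_apply, LinearMap.smul_apply, smul_eq_mul, ← h1, mul_pow,
      inv_pow]
    have := pow_ne_zero n hβ0
    field_simp

namespace NF

variable {ξ : W.H X} {n : ℕ} {S : Submodule W.K (W.H X)} {δ : ℚ}
  {β : LinearMap.BilinForm W.K (W.H X)}

theorem coef (h : NF W X ξ n S δ β) {v : W.H X} (hv : v ∈ S) :
    W.tr X (v * ξ ^ (2 * n - 1)) = δ * β ξ v ∧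
      (2 * n - 1) * W.tr X (v ^ 2 * ξ ^ (2 * n - 2)) = δ * (β v v + 2 * (n - 1) * β ξ v ^ 2) := by
  apply fuj_coef (W.tr X) (two_comm (h.le h.mem) v) h.n_pos
  intro s
  rw [h.rel _ (S.add_mem h.mem (S.smul_mem s hv))]
  congr 2
  simp only [map_add, map_smul, LinearMap.add_apply, LinearMap.smul_apply, smul_eq_mul, h.one]
  rw [h.symm v ξ]
  ring

theorem pol (h : NF W X ξ n S δ β) {v w : W.H X} (hv : v ∈ S) (hw : w ∈ S) :
    (2 * n - 1) * W.tr X (v * w * ξ ^ (2 * n - 2)) =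
      δ * (β v w + 2 * (n - 1) * (β ξ v * β ξ w)) := by
  have h1 := (h.coef (S.add_mem hv hw)).2
  have h2 := (h.coef hv).2
  have h3 := (h.coef hw).2
  have h4 : (v + w) ^ 2 = v ^ 2 + w ^ 2 + (v * w + v * w) := by
    rw [pow_two, pow_two, pow_two, add_mul, mul_add, mul_add, two_comm (h.le hw) v]
    abel
  rw [h4, add_mul, add_mul, add_mul, map_add, map_add, map_add] at h1
  simp only [map_add, LinearMap.add_apply] at h1
  rw [h.symm w v] at h1
  have h5 : (2 : W.K) * ((2 * n - 1) * W.tr X (v * w * ξ ^ (2 * n - 2))) =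
      2 * (δ * (β v w + 2 * (n - 1) * (β ξ v * β ξ w))) := by
    linear_combination h1 - h2 - h3
  exact mul_left_cancel₀ two_ne_zero h5

theorem n2 (h : NF W X ξ n S δ β) : ((2 * n - 1 : ℚ)) ≠ 0 := by
  have h1 := h.n_pos
  have : (1 : ℚ) ≤ n := by exact_mod_cast h1
  linarith

theorem rat1 (h : NF W X ξ n S δ β) {v : W.H X} (hv : v ∈ algClasses W X 1) (hvS : v ∈ S) :
    ∃ r : ℚ, β ξ v = r := by
  have h0 := h.n_pos
  obtain ⟨r, hr⟩ := alg_rat (W := W) (i := 1 + (2 * n - 1) * 1) (by rw [h.dim]; omega)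
    (alg_mul hv (alg_pow h.alg (2 * n - 1)))
  rw [(h.coef hvS).1] at hr
  have h1 : (δ : W.K) ≠ 0 := Rat.cast_ne_zero.2 h.pos.ne'
  refine ⟨r / δ, ?_⟩
  push_cast
  rw [← hr]
  field_simp

theorem rat2 (h : NF W X ξ n S δ β) {v w : W.H X} (hv : v ∈ algClasses W X 1) (hvS : v ∈ S)
    (hw : w ∈ algClasses W X 1) (hwS : w ∈ S) : ∃ r : ℚ, β v w = r := by
  have h0 := h.n_pos
  obtain ⟨r, hr⟩ := alg_rat (W := W) (i := 1 + 1 + (2 * n - 2) * 1) (by rw [h.dim]; omega)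
    (alg_mul (alg_mul hv hw) (alg_pow h.alg (2 * n - 2)))
  obtain ⟨a, ha⟩ := h.rat1 hv hvS
  obtain ⟨b, hb⟩ := h.rat1 hw hwS
  have h1 := h.pol hvS hwS
  rw [hr, ha, hb] at h1
  have h2 : (δ : W.K) ≠ 0 := Rat.cast_ne_zero.2 h.pos.ne'
  refine ⟨(2 * n - 1) * r / δ - 2 * (n - 1) * (a * b), ?_⟩
  push_cast
  field_simp
  linear_combination - h1

/-- The index. -/
theorem neg (h : NF W X ξ n S δ β) (hDc : X.IsCyc 1 D) (hξ : ξ = W.cl X D) (hI : HodgeIndex W X D) {v : W.H X}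
    (hv : v ∈ algClasses W X 1) (hvS : v ∈ S) (h0 : β ξ v = 0) (hne : v ≠ 0) :
    ∃ r : ℚ, 0 < r ∧ β v v = - r := by
  obtain ⟨z, hz, rfl⟩ := hv
  have hn := h.n_pos
  have hmem : W.cl X (divPow ops D (X.dim - 1) z) ∈ W.gr X (2 * X.dim) := by
    have h2 := W.cl_mem (divPow_mem (ops := ops) hDc (X.dim - 1) hz)
    have h3 : 1 + (X.dim - 1) = X.dim := by rw [h.dim]; omega
    rwa [h3] at h2
  have hcl : ∀ j, W.cl X (divPow ops D j z) = W.cl X z * ξ ^ j := by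
    intro j
    rw [cl_divPow, LinearMap.pow_mulLeft, LinearMap.mulLeft_apply, ← hξ]
    exact (two_comm (W.cl_mem hz) _).symm
  have hprim : W.cl X (divPow ops D (X.dim - 1) z) = 0 := by
    apply eq_zero_of_top hmem
    rw [hcl, h.dim, (h.coef hvS).1, h0, mul_zero]
  have h4 := hI z hz hprim hne
  have h5 : W.tr X (W.cl X z ^ 2 * ξ ^ (2 * n - 2)) =
      (X.V.degCycle (ops.mul z (divPow ops D (X.dim - 2) z)) : W.K) := by
    have h7 : X.IsCyc X.dim (ops.mul z (divPow ops D (X.dim - 2) z)) := by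
      have h8 := ops.mul_mem hz (divPow_mem (ops := ops) hDc (X.dim - 2) hz)
      have h9 : 1 + (1 + (X.dim - 2)) = X.dim := by rw [h.dim]; omega
      rwa [h9] at h8
    rw [← W.tr_cl h7, W.cl_mul, hcl, h.dim, pow_two, mul_assoc]
  have h6 := (h.coef hvS).2
  rw [h5, h0] at h6
  set R := X.V.degCycle (ops.mul z (divPow ops D (X.dim - 2) z)) with hR
  have hδ := h.pos
  have hn' : (1 : ℚ) ≤ n := by exact_mod_cast hn
  refine ⟨-((2 * n - 1) * R / δ), ?_, ?_⟩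
  · rw [neg_pos]
    apply div_neg_of_neg_of_pos _ hδ
    exact mul_neg_of_pos_of_neg (by linarith) h4
  · have h2 : (δ : W.K) ≠ 0 := Rat.cast_ne_zero.2 h.pos.ne'
    push_cast
    field_simp
    linear_combination - h6

end NF

end Pool.Agent.K4H28.FV
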