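import Pool.Agent.K4H28.FV.Core

/-!
# The variables
-/

set_option autoImplicit false
set_option linter.unusedSectionVars false

namespace Pool.Agent.K4H28.FV

open MvPolynomial ComplexConjugate

/-- The index set of the variables. -/
abbrev Ix (N m : ℕ) : Type := Option (Fin N ⊕ (Fin m ⊕ Fin m))

variable {N m : ℕ}

/-- The index of a divisor. -/
abbrev iz (j : Fin N) : Ix N m := some (Sum.inl j)

/-- The index of a positive vector. -/
abbrev ip (i : Fin m) : Ix N m := some (Sum.inr (Sum.inl i))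

/-- The index of a negative vector. -/
abbrev im (i : Fin m) : Ix N m := some (Sum.inr (Sum.inr i))

/-- The squares. -/
def qf (w : Fin N → ℚ) : Ix N m → ℚ
  | none => 1
  | some (Sum.inl j) => - w j
  | some (Sum.inr (Sum.inl _)) => 2
  | some (Sum.inr (Sum.inr _)) => -2

/-- The substitution. -/
noncomputable def kf (w : Fin N → ℚ) : Ix N m → ℂ
  | none => 1
  | some (Sum.inl j) => Complex.I * (√(w j : ℝ) : ℝ)
  | some (Sum.inr (Sum.inl _)) => (√2 : ℝ)
  | some (Sum.inr (Sum.inr _)) => Complex.I * (√2 : ℝ)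

theorem kf_sq {w : Fin N → ℚ} (hw : ∀ j, 0 < w j) (a : Ix N m) : kf w a ^ 2 = (qf w a : ℂ) := by
  rcases a with _ | j | i | i
  · simp [kf, qf]
  · have h1 : (0 : ℝ) ≤ w j := by exact_mod_cast (hw j).le
    have h2 : ((√(w j : ℝ) : ℝ) : ℂ) ^ 2 = (w j : ℂ) := by
      rw [← Complex.ofReal_pow, Real.sq_sqrt h1]
      simp
    simp only [kf, qf]
    rw [mul_pow, Complex.I_sq, h2]
    push_cast
    ring
  · have h2 : ((√2 : ℝ) : ℂ) ^ 2 = 2 := by
      rw [← Complex.ofReal_pow, Real.sq_sqrt (by norm_num)]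
      simp
    simp only [kf, qf]
    rw [h2]
    push_cast
    rfl
  · have h2 : ((√2 : ℝ) : ℂ) ^ 2 = 2 := by
      rw [← Complex.ofReal_pow, Real.sq_sqrt (by norm_num)]
      simp
    simp only [kf, qf]
    rw [mul_pow, Complex.I_sq, h2]
    push_cast
    ring

theorem kf_ne {w : Fin N → ℚ} (hw : ∀ j, 0 < w j) (a : Ix N m) : kf w a ≠ 0 := by
  intro h
  have h1 := kf_sq hw a
  rw [h, zero_pow two_ne_zero] at h1
  have h2 : qf w a ≠ 0 := by
    rcases a with _ | j | i | i
    · simp [qf]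
    · simp only [qf]
      exact neg_ne_zero.2 (hw j).ne'
    · simp [qf]
    · simp [qf]
  exact h2 (by exact_mod_cast h1.symm)

/-- The indices of the divisors. -/
def Idv (N m : ℕ) : Set (Ix N m) := {a | a = none ∨ ∃ j, a = iz j}

variable {L : Type*} [Field L] [CharZero L]

/-- The product of the two isotropic vectors. -/
noncomputable def uu (i : Fin m) : MvPolynomial (Ix N m) L :=
  C (1 / 4) * (X (ip i) ^ 2 - X (im i) ^ 2)

/-- The quadratic polynomials. -/
noncomputable def Ug (a a' : Fin m → L) (g : Polynomial ℚ) : MvPolynomial (Ix N m) L :=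
  ∑ i, C (Polynomial.aeval (a i) g + Polynomial.aeval (a' i) g) * uu i

theorem uu_hom (i : Fin m) : (uu i : MvPolynomial (Ix N m) L).IsHomogeneous 2 := by
  have h1 : ∀ b : Ix N m, (X b ^ 2 : MvPolynomial (Ix N m) L).IsHomogeneous 2 := fun b => by
    have := (isHomogeneous_X L b).pow 2
    rwa [one_mul] at this
  have h2 := (isHomogeneous_C (Ix N m) (1 / 4 : L)).mul ((h1 (ip i)).sub (h1 (im i)))
  rwa [zero_add] at h2

theorem Ug_hom (a a' : Fin m → L) (g : Polynomial ℚ) :
    (Ug a a' g : MvPolynomial (Ix N m) L).IsHomogeneous 2 := by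
  refine IsHomogeneous.sum _ _ _ fun i _ => ?_
  have h2 := (isHomogeneous_C (Ix N m)
    (Polynomial.aeval (a i) g + Polynomial.aeval (a' i) g)).mul (uu_hom (N := N) (L := L) i)
  rwa [zero_add] at h2

theorem Ug_flp (a a' : Fin m → L) (g : Polynomial ℚ) :
    flp none (Ug a a' g : MvPolynomial (Ix N m) L) = Ug a a' g := by
  rw [Ug, map_sum]
  refine Finset.sum_congr rfl fun i _ => ?_
  have h1 : ∀ c : L, flp none (C c : MvPolynomial (Ix N m) L) = C c := fun c => AlgHom.commutes _ _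
  rw [map_mul, h1, uu, map_mul, h1, map_sub, map_pow, map_pow, flp_X, flp_X, if_neg, if_neg]
  · simp
  · simp

theorem hom_aeval {R S : Type*} [Field R] [CharZero R] [Field S] [CharZero S] (φ : R →+* S)
    (x : R) (g : Polynomial ℚ) : φ (Polynomial.aeval x g) = Polynomial.aeval (φ x) g := by
  rw [Polynomial.aeval_def, Polynomial.hom_eval₂, Polynomial.aeval_def]
  congr 1
  exact Subsingleton.elim _ _

theorem ev_uu (w : Fin N → ℚ) (x : Ix N m → ℝ) (i : Fin m) (ι : L →+* ℂ) :
    eval (fun b => kf w b * (x b : ℂ)) (map ι (uu i : MvPolynomial (Ix N m) L)) =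
      ((((x (ip i)) ^ 2 + (x (im i)) ^ 2) / 2 : ℝ) : ℂ) := by
  have h2 : ((√2 : ℝ) : ℂ) ^ 2 = 2 := by
    rw [← Complex.ofReal_pow, Real.sq_sqrt (by norm_num)]
    simp
  rw [uu]
  simp only [map_mul, map_sub, map_pow, map_C, map_X, eval_C, eval_X, map_div₀, map_one,
    map_ofNat]
  simp only [kf, mul_pow, Complex.I_sq, h2]
  push_cast
  ring

theorem Ug_real {a a' : Fin m → L} {ι : L →+* ℂ} (ha : ∀ i, conj (ι (a i)) = ι (a' i))
    (g : Polynomial ℚ) (w : Fin N → ℚ) (x : Ix N m → ℝ) :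
    conj (eval (fun b => kf w b * (x b : ℂ)) (map ι (Ug a a' g : MvPolynomial (Ix N m) L))) =
      eval (fun b => kf w b * (x b : ℂ)) (map ι (Ug a a' g : MvPolynomial (Ix N m) L)) := by
  rw [Ug, map_sum, map_sum, map_sum]
  refine Finset.sum_congr rfl fun i _ => ?_
  rw [map_mul, map_mul, ev_uu, map_mul, Complex.conj_ofReal, map_C, eval_C, map_add, map_add]
  have ha' : conj (ι (a' i)) = ι (a i) := by rw [← ha, Complex.conj_conj]
  have h1 : conj (ι (Polynomial.aeval (a i) g)) = ι (Polynomial.aeval (a' i) g) := by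
    rw [hom_aeval ι, hom_aeval ι, hom_aeval (starRingEnd ℂ), ha]
  have h2 : conj (ι (Polynomial.aeval (a' i) g)) = ι (Polynomial.aeval (a i) g) := by
    rw [hom_aeval ι, hom_aeval ι, hom_aeval (starRingEnd ℂ), ha']
  rw [h1, h2, add_comm]

/-- The conditions on the substitution hold. -/
theorem sub_ix {a a' : Fin m → L} {ι : L →+* ℂ} (ha : ∀ i, conj (ι (a i)) = ι (a' i))
    (w : Fin N → ℚ) : Sub (kf w) none ι (Idv N m) (Set.range (Ug a a')) where
  mem := Or.inl rfl
  conj_o := by simp [kf]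
  conj_i := by
    rintro i (rfl | ⟨j, rfl⟩) hi
    · exact absurd rfl hi
    · simp only [kf, map_mul, Complex.conj_I, Complex.conj_ofReal]
      ring
  hom := by
    rintro _ ⟨g, rfl⟩
    exact Ug_hom a a' g
  flip := by
    rintro _ ⟨g, rfl⟩
    exact Ug_flp a a' g
  real := by
    rintro _ ⟨g, rfl⟩ x
    exact Ug_real ha g w x

end Pool.Agent.K4H28.FV
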