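import Pool.Agent.K4H28.FV.Geo1
import Pool.Agent.K4H28.FV.Ix

/-!
# Frames
-/

set_option autoImplicit false
set_option linter.unusedSectionVars false

open CategoryTheory AlgebraicGeometry

universe u v

namespace Pool.Agent.K4H28.FV

open Pool.Agent.H914 VarClass Obj WeilCohomology MvPolynomial ComplexConjugate

/-- A homomorphism from the polynomial ring to a noncommutative algebra. -/
theorem exists_hom {K H σ : Type*} [Field K] [Ring H] [Algebra K H] (Z : σ → H)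
    (hZ : ∀ i j, Z i * Z j = Z j * Z i) :
    ∃ Φ : MvPolynomial σ K →ₐ[K] H, ∀ i, Φ (X i) = Z i := by
  have hcomm : IsMulCommutative (Algebra.adjoin K (Set.range Z)) :=
    Algebra.isMulCommutative_adjoin K (by
      rintro _ ⟨i, rfl⟩ _ ⟨j, rfl⟩
      exact hZ i j)
  let _ : CommRing (Algebra.adjoin K (Set.range Z)) :=
    { (Algebra.adjoin K (Set.range Z)).toRing with
      mul_comm := fun a b => hcomm.is_comm.comm a b }
  let Φ₀ : MvPolynomial σ K →ₐ[K] Algebra.adjoin K (Set.range Z) :=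
    aeval fun i => ⟨Z i, Algebra.subset_adjoin ⟨i, rfl⟩⟩
  refine ⟨(Algebra.adjoin K (Set.range Z)).val.comp Φ₀, fun i => ?_⟩
  rw [AlgHom.comp_apply]
  have h1 : Φ₀ (X i) = ⟨Z i, Algebra.subset_adjoin ⟨i, rfl⟩⟩ := aeval_X _ i
  rw [h1]
  rfl

variable {N m : ℕ}

/-- The family of the classes. -/
def Zf {H : Type*} [Ring H] (ξ : H) (z : Fin N → H) (e e' : Fin m → H) : Ix N m → H
  | none => ξ
  | some (Sum.inl j) => z j
  | some (Sum.inr (Sum.inl i)) => e i + e' i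
  | some (Sum.inr (Sum.inr i)) => e i - e' i

variable {k : Type u} [Field k] {𝒱 : VarClass k} {ops : CycleOps 𝒱}
  {W : WeilCohomology.{u, v} ops} {X : 𝒱.Obj} {D : X.Cycles}

/-- A frame. -/
structure Frame (W : WeilCohomology.{u, v} ops) (X : 𝒱.Obj) (ξ : W.H X)
    (S : Submodule W.K (W.H X)) (β : LinearMap.BilinForm W.K (W.H X)) (z : Fin N → W.H X)
    (w : Fin N → ℚ) (e e' : Fin m → W.H X) : Prop where
  z_alg : ∀ j, z j ∈ algClasses W X 1
  z_mem : ∀ j, z j ∈ S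
  w_pos : ∀ j, 0 < w j
  ξz : ∀ j, β ξ (z j) = 0
  zz : ∀ i j, β (z i) (z j) = if i = j then -(w i : W.K) else 0
  span : ∀ v ∈ algClasses W X 1, ∃ (a : ℚ) (r : Fin N → ℚ),
    v = (a : W.K) • ξ + ∑ j, (r j : W.K) • z j
  e_mem : ∀ i, e i ∈ S
  e'_mem : ∀ i, e' i ∈ S
  ξe : ∀ i, β ξ (e i) = 0
  ξe' : ∀ i, β ξ (e' i) = 0
  ze : ∀ j i, β (z j) (e i) = 0
  ze' : ∀ j i, β (z j) (e' i) = 0
  ee : ∀ i j, β (e i) (e j) = 0
  e'e' : ∀ i j, β (e' i) (e' j) = 0
  ee' : ∀ i j, β (e i) (e' j) = if i = j then 1 else 0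

variable {ξ : W.H X} {n : ℕ} {S : Submodule W.K (W.H X)} {δ : ℚ}
  {β : LinearMap.BilinForm W.K (W.H X)} {z : Fin N → W.H X} {w : Fin N → ℚ}
  {e e' : Fin m → W.H X}

theorem Frame.Z_mem (h : NF W X ξ n S δ β) (hf : Frame W X ξ S β z w e e') (a : Ix N m) :
    Zf ξ z e e' a ∈ S := by
  rcases a with _ | j | i | i
  · exact h.mem
  · exact hf.z_mem j
  · exact S.add_mem (hf.e_mem i) (hf.e'_mem i)
  · exact S.sub_mem (hf.e_mem i) (hf.e'_mem i)

theorem Frame.Z_orth (h : NF W X ξ n S δ β) (hf : Frame W X ξ S β z w e e') (a b : Ix N m) :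
    β (Zf ξ z e e' a) (Zf ξ z e e' b) = if a = b then (qf w a : W.K) else 0 := by
  have hzξ : ∀ j, β (z j) ξ = 0 := fun j => by rw [h.symm, hf.ξz]
  have heξ : ∀ j, β (e j) ξ = 0 := fun j => by rw [h.symm, hf.ξe]
  have he'ξ : ∀ j, β (e' j) ξ = 0 := fun j => by rw [h.symm, hf.ξe']
  have hez : ∀ i j, β (e i) (z j) = 0 := fun i j => by rw [h.symm, hf.ze]
  have he'z : ∀ i j, β (e' i) (z j) = 0 := fun i j => by rw [h.symm, hf.ze']
  have he'e : ∀ i j, β (e' i) (e j) = if i = j then 1 else 0 := fun i j => by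
    rw [h.symm, hf.ee']
    by_cases hij : i = j
    · rw [if_pos hij, if_pos hij.symm]
    · rw [if_neg hij, if_neg (fun h => hij h.symm)]
  rcases a with _ | j | i | i <;> rcases b with _ | j' | i' | i' <;>
    simp only [Zf, qf, h.one, hf.ξz, hf.ξe, hf.ξe', hf.ze, hf.ze', hf.ee, hf.e'e', hf.ee', hf.zz,
      hzξ, heξ, he'ξ, hez, he'z, he'e, map_add, map_sub, LinearMap.add_apply,
      LinearMap.sub_apply, Option.some.injEq, Sum.inl.injEq, Sum.inr.injEq, reduceCtorEq,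
      if_true, if_false, Rat.cast_one, Rat.cast_neg, Rat.cast_ofNat, add_zero, sub_zero, zero_add,
      zero_sub, sub_self]
  all_goals
    by_cases hii : i = i'
    · simp only [hii, if_true]; norm_num
    · simp only [hii, if_false]; norm_num

theorem Frame.fujT (h : NF W X ξ n S δ β) (hf : Frame W X ξ S β z w e e')
    {Φ : MvPolynomial (Ix N m) W.K →ₐ[W.K] W.H X} (hΦ : ∀ a, Φ (MvPolynomial.X a) = Zf ξ z e e' a) :
    FujT n δ (qf w) (W.tr X) Φ := by
  intro t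
  have h1 : Φ ((∑ a, C (t a) * MvPolynomial.X a) ^ (2 * n)) =
      (∑ a, t a • Zf ξ z e e' a) ^ (2 * n) := by
    rw [map_pow, map_sum]
    congr 1
    refine Finset.sum_congr rfl fun a _ => ?_
    rw [← smul_eq_C_mul, map_smul, hΦ]
  rw [h1, h.rel _ (S.sum_mem fun a _ => S.smul_mem _ (hf.Z_mem h a))]
  congr 2
  rw [map_sum]
  refine Finset.sum_congr rfl fun a _ => ?_
  rw [map_smul, map_sum, LinearMap.sum_apply, Finset.sum_eq_single a]
  · rw [map_smul, LinearMap.smul_apply, hf.Z_orth h, if_pos rfl, smul_eq_mul, smul_eq_mul]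
    ring
  · intro b _ hb
    rw [map_smul, LinearMap.smul_apply, hf.Z_orth h, if_neg hb, smul_zero]
  · intro ha
    exact absurd (Finset.mem_univ a) ha

variable {L : Type*} [Field L] [CharZero L] [Algebra L W.K]

theorem Frame.mon_alg (h : NF W X ξ n S δ β) (hf : Frame W X ξ S β z w e e')
    {Φ : MvPolynomial (Ix N m) W.K →ₐ[W.K] W.H X} (hΦ : ∀ a, Φ (MvPolynomial.X a) = Zf ξ z e e' a)
    {U : Set (MvPolynomial (Ix N m) L)} (hU : ∀ u ∈ U, psi Φ u ∈ algClasses W X 2) {j : ℕ}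
    {F : MvPolynomial (Ix N m) L} (hF : Mon (Idv N m) U j F) : psi Φ F ∈ algClasses W X j := by
  induction hF with
  | one => rw [psi_one]; exact alg_one
  | @var j F i hi hF ih =>
    rw [psi_mul, psi_X, hΦ, add_comm]
    refine alg_mul ?_ ih
    rcases hi with rfl | ⟨a, rfl⟩
    · exact h.alg
    · exact hf.z_alg a
  | @quad j F u hu hF ih =>
    rw [psi_mul, add_comm]
    exact alg_mul (hU u hu) ih

/-- **The Hodge–Riemann relations in a frame.** -/
theorem Frame.hr (h : NF W X ξ n S δ β) (hDc : X.IsCyc 1 D) (hξ : ξ = W.cl X D)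
    (hf : Frame W X ξ S β z w e e')
    {Φ : MvPolynomial (Ix N m) W.K →ₐ[W.K] W.H X} (hΦ : ∀ a, Φ (MvPolynomial.X a) = Zf ξ z e e' a)
    {ι : L →+* ℂ} {a a' : Fin m → L} (ha : ∀ i, conj (ι (a i)) = ι (a' i))
    (hU : ∀ g, psi Φ (Ug a a' g : MvPolynomial (Ix N m) L) ∈ algClasses W X 2) {j : ℕ}
    (hj : 2 * j ≤ X.dim) {y : X.Cycles} (hy : X.IsCyc j y)
    (hsp : W.cl X y ∈ Submodule.span W.K {x | ∃ F : MvPolynomial (Ix N m) L,
      Mon (Idv N m) (Set.range (Ug a a')) j F ∧ psi Φ F = x})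
    (hprim : W.cl X (divPow ops D (X.dim - 2 * j + 1) y) = 0) (hy0 : W.cl X y ≠ 0) :
    0 < (-1 : ℚ) ^ j * X.V.degCycle (ops.mul y (divPow ops D (X.dim - 2 * j) y)) := by
  obtain ⟨l, hl⟩ : ∃ l, j + l = n := ⟨n - j, by rw [h.dim] at hj; omega⟩
  have hd1 : X.dim - 2 * j = 2 * l := by rw [h.dim]; omega
  have hU' : ∀ u ∈ Set.range (Ug a a'), psi Φ (u : MvPolynomial (Ix N m) L) ∈ algClasses W X 2 := by
    rintro _ ⟨g, rfl⟩
    exact hU g
  have hcl : ∀ i, W.cl X (divPow ops D i y) = W.cl X y * ξ ^ i := by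
    intro i
    rw [cl_divPow, LinearMap.pow_mulLeft, LinearMap.mulLeft_apply, ← hξ]
    have h1 := W.even_comm (p := j) (W.cl_mem hy) (ξ ^ i)
    exact h1.symm
  have hya : W.cl X y ∈ algClasses W X j := ⟨y, hy, rfl⟩
  have hdim : ∀ i, i = 2 * n → i = X.dim := fun i hi => by rw [hi, h.dim]
  refine core_hr h.pos (kf_sq hf.w_pos) (kf_ne hf.w_pos) (sub_ix ha w) (hf.fujT h hΦ) hl hsp
    ?_ ?_ hy0 ?_ ?_
  · intro F G hF hG
    exact alg_rat (hdim _ (by omega)) (alg_mul (hf.mon_alg h hΦ hU' hF) (hf.mon_alg h hΦ hU' hG))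
  · intro G hG
    exact alg_rat (hdim _ (by omega)) (alg_mul hya (hf.mon_alg h hΦ hU' hG))
  · intro k' R hk hR
    have h2 : W.cl X y * ξ ^ (2 * l + 1) = 0 := by rw [← hcl, ← hd1, hprim]
    rw [hΦ]
    change W.tr X (W.cl X y * (ξ ^ (2 * l + 1) * psi Φ R)) = 0
    rw [← mul_assoc, h2, zero_mul, map_zero]
  · rw [hΦ]
    change W.tr X (W.cl X y * (W.cl X y * ξ ^ (2 * l))) = _
    rw [← hcl, ← hd1, ← W.cl_mul, W.tr_cl]
    have h3 := ops.mul_mem hy (divPow_mem (ops := ops) hDc (X.dim - 2 * j) hy)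
    have h4 : j + (j + (X.dim - 2 * j)) = X.dim := by omega
    rwa [h4] at h3

end Pool.Agent.K4H28.FV
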