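import Pool.Agent.K4H28.FV.Geo2

/-!
# Classes as combinations of monomials
-/

set_option autoImplicit false
set_option linter.unusedSectionVars false

open CategoryTheory AlgebraicGeometry

universe u v

namespace Pool.Agent.K4H28.FV

open Pool.Agent.H914 VarClass Obj WeilCohomology MvPolynomial ComplexConjugate

/-- A graded multiplicative predicate. -/
structure GP {R : Type*} [CommRing R] (p : ℕ → R → Prop) : Prop where
  one : p 0 1
  mul : ∀ {i j P Q}, p i P → p j Q → p (i + j) (P * Q)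

theorem GP.pow {R : Type*} [CommRing R] {p : ℕ → R → Prop} (h : GP p) {i : ℕ} {P : R}
    (hP : p i P) (c : ℕ) : p (c * i) (P ^ c) := by
  induction c with
  | zero => rw [zero_mul, pow_zero]; exact h.one
  | succ c ih =>
    rw [add_mul, one_mul, pow_succ]
    exact h.mul ih hP

theorem GP.prod {R J : Type*} [CommRing R] {p : ℕ → R → Prop} (h : GP p) (s : Finset J)
    {d : J → ℕ} {f : J → R} (hf : ∀ i ∈ s, p (d i) (f i)) : p (∑ i ∈ s, d i) (∏ i ∈ s, f i) := by
  classical
  induction s using Finset.induction_on with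
  | empty => rw [Finset.sum_empty, Finset.prod_empty]; exact h.one
  | insert a s ha ih =>
    rw [Finset.sum_insert ha, Finset.prod_insert ha]
    exact h.mul (hf a (Finset.mem_insert_self a s))
      (ih fun j hj => hf j (Finset.mem_insert_of_mem hj))

theorem mono_one {K σ : Type*} [Field K] [Fintype σ] (γ : σ →₀ ℕ) :
    (monomial γ (1 : K)) = ∏ a, X a ^ γ a := by
  rw [monomial_eq, Finsupp.prod_fintype _ _ (fun i => pow_zero _), C_1, one_mul]

variable {N m : ℕ} {k : Type u} [Field k] {𝒱 : VarClass k} {ops : CycleOps 𝒱}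
  {W : WeilCohomology.{u, v} ops} {X : 𝒱.Obj} {D : X.Cycles}

section Poly

variable {σ : Type} [Fintype σ] {E : σ → W.H X} {Φ : MvPolynomial σ W.K →ₐ[W.K] W.H X}

theorem gp_gr : GP fun i P => Φ P ∈ W.gr X (2 * i) where
  one := by rw [map_one]; exact W.one_mem X
  mul := by
    intro i j P Q hP hQ
    rw [map_mul, mul_add]
    exact W.mul_mem hP hQ

theorem hom_gr (hE : ∀ a, Φ (MvPolynomial.X a) ∈ W.gr X 2) {i : ℕ} {P : MvPolynomial σ W.K}
    (hP : P.IsHomogeneous i) : Φ P ∈ W.gr X (2 * i) := by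
  rw [P.as_sum, map_sum]
  refine Submodule.sum_mem _ fun γ hγ => ?_
  have h1 : ∑ a, γ a = i := by
    have := hP (mem_support_iff.1 hγ)
    rw [Finsupp.weight_apply, Finsupp.sum_fintype _ _ (fun i => by simp)] at this
    simpa using this
  have h2 : monomial γ (coeff γ P) = coeff γ P • monomial γ (1 : W.K) := by
    rw [smul_monomial, smul_eq_mul, mul_one]
  rw [h2, map_smul]
  refine Submodule.smul_mem _ _ ?_
  have h3 := (gp_gr (Φ := Φ)).prod Finset.univ (d := fun a => γ a * 1)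
    (f := fun a => MvPolynomial.X a ^ γ a) (fun a _ => (gp_gr (Φ := Φ)).pow (i := 1) (hE a) (γ a))
  rw [← mono_one, show ∑ a, γ a * 1 = i by simpa using h1] at h3
  exact h3

/-- An element of a graded piece of the algebra generated by classes of degree `2` is a
homogeneous polynomial. -/
theorem exists_poly (hE : ∀ a, Φ (MvPolynomial.X a) ∈ W.gr X 2) {G : Set (W.H X)}
    (hG : ∀ g ∈ G, g ∈ Submodule.span W.K (Set.range fun a => Φ (MvPolynomial.X a))) {i : ℕ}
    {x : W.H X} (hx : x ∈ Algebra.adjoin W.K G) (hxi : x ∈ W.gr X (2 * i)) :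
    ∃ P : MvPolynomial σ W.K, P.IsHomogeneous i ∧ Φ P = x := by
  have h1 : Algebra.adjoin W.K G ≤ Φ.range := by
    apply Algebra.adjoin_le
    intro g hg
    have h2 : Submodule.span W.K (Set.range fun a => Φ (MvPolynomial.X a)) ≤
        Subalgebra.toSubmodule Φ.range := by
      rw [Submodule.span_le]
      rintro _ ⟨a, rfl⟩
      exact ⟨_, rfl⟩
    exact h2 (hG g hg)
  obtain ⟨P, rfl⟩ := h1 hx
  refine ⟨homogeneousComponent i P, homogeneousComponent_isHomogeneous i P, ?_⟩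
  have h3 : Φ P ∈ W.gr X (2 * i) := hxi
  have h4 : proj (W.isInternal X) (2 * i) (Φ P) = Φ P := proj_same _ h3
  have h5 : ∀ j, proj (W.isInternal X) (2 * i) (Φ (homogeneousComponent j P)) =
      if j = i then Φ (homogeneousComponent j P) else 0 := by
    intro j
    have h6 := hom_gr hE (homogeneousComponent_isHomogeneous j P)
    split_ifs with hij
    · subst hij
      exact proj_same _ h6
    · exact proj_ne _ h6 (by omega)
  change Φ (homogeneousComponent i P) = Φ P
  rw [← h4]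
  conv_rhs => rw [← sum_homogeneousComponent P]
  rw [map_sum, map_sum]
  simp only [h5]
  rw [Finset.sum_ite_eq']
  split_ifs with h7
  · rfl
  · rw [Finset.mem_range, not_lt] at h7
    rw [homogeneousComponent_eq_zero _ _ (by omega), map_zero]

end Poly

variable {ξ : W.H X} {n : ℕ} {S : Submodule W.K (W.H X)} {δ : ℚ}
  {β : LinearMap.BilinForm W.K (W.H X)} {z : Fin N → W.H X} {w : Fin N → ℚ}
  {e e' : Fin m → W.H X} {L : Type*} [Field L] [CharZero L] [Algebra L W.K]

/-- The combinations of monomials. -/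
def Sp (Φ : MvPolynomial (Ix N m) W.K →ₐ[W.K] W.H X) (U : Set (MvPolynomial (Ix N m) L)) (j : ℕ)
    (y : W.H X) : Prop :=
  y ∈ Submodule.span W.K {x | ∃ F : MvPolynomial (Ix N m) L, Mon (Idv N m) U j F ∧ psi Φ F = x}

theorem Sp.mul {Φ : MvPolynomial (Ix N m) W.K →ₐ[W.K] W.H X}
    {U : Set (MvPolynomial (Ix N m) L)} {i j : ℕ} {x y : W.H X} (hx : Sp Φ U i x)
    (hy : Sp Φ U j y) : Sp Φ U (i + j) (x * y) := by
  unfold Sp at hx
  induction hx using Submodule.span_induction with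
  | zero => rw [zero_mul]; exact Submodule.zero_mem _
  | add _ _ _ _ h1 h2 => rw [add_mul]; exact Submodule.add_mem _ h1 h2
  | smul a _ _ h1 => rw [smul_mul_assoc]; exact Submodule.smul_mem _ a h1
  | mem x hx =>
    obtain ⟨F, hF, rfl⟩ := hx
    unfold Sp at hy
    induction hy using Submodule.span_induction with
    | zero => rw [mul_zero]; exact Submodule.zero_mem _
    | add _ _ _ _ h1 h2 => rw [mul_add]; exact Submodule.add_mem _ h1 h2
    | smul a _ _ h1 => rw [mul_smul_comm]; exact Submodule.smul_mem _ a h1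
    | mem y hy =>
      obtain ⟨G, hG, rfl⟩ := hy
      rw [← psi_mul]
      exact Submodule.subset_span ⟨_, hF.mul hG, rfl⟩

theorem Sp.one {Φ : MvPolynomial (Ix N m) W.K →ₐ[W.K] W.H X}
    {U : Set (MvPolynomial (Ix N m) L)} : Sp Φ U 0 1 :=
  Submodule.subset_span ⟨1, Mon.one, psi_one Φ⟩

theorem Sp.var {Φ : MvPolynomial (Ix N m) W.K →ₐ[W.K] W.H X}
    {U : Set (MvPolynomial (Ix N m) L)} {a : Ix N m} (ha : a ∈ Idv N m) :
    Sp Φ U 1 (Φ (MvPolynomial.X a)) := by
  refine Submodule.subset_span ⟨MvPolynomial.X a * 1, Mon.var ha Mon.one, ?_⟩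
  rw [mul_one, psi_X]

/-- The family of the isotropic vectors. -/
def Ef {H : Type*} [Ring H] (ξ : H) (z : Fin N → H) (e e' : Fin m → H) : Ix N m → H
  | none => ξ
  | some (Sum.inl j) => z j
  | some (Sum.inr (Sum.inl i)) => e i
  | some (Sum.inr (Sum.inr i)) => e' i

/-- A balanced monomial is in the span. -/
theorem bal_mono {Φ Ψ : MvPolynomial (Ix N m) W.K →ₐ[W.K] W.H X}
    (hΦ : ∀ a, Φ (MvPolynomial.X a) = Zf ξ z e e' a)
    (hΨ : ∀ a, Ψ (MvPolynomial.X a) = Ef ξ z e e' a) {U : Set (MvPolynomial (Ix N m) L)}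
    (hU : ∀ i, Sp Φ U 2 (e i * e' i)) {γ : Ix N m →₀ ℕ} (hγ : ∀ i, γ (ip i) = γ (im i)) :
    Sp Φ U (∑ a, γ a) (Ψ (monomial γ 1)) := by
  have hgp : GP fun i P => Sp Φ U i (Ψ P) :=
    ⟨by rw [map_one]; exact Sp.one, fun h1 h2 => by rw [map_mul]; exact h1.mul h2⟩
  have h1 : (monomial γ (1 : W.K)) = MvPolynomial.X none ^ γ none *
      ((∏ j, MvPolynomial.X (iz j) ^ γ (iz j)) *
        ∏ i, (MvPolynomial.X (ip i) * MvPolynomial.X (im i)) ^ γ (ip i)) := by
    rw [mono_one, Fintype.prod_option, Fintype.prod_sum_type, Fintype.prod_sum_type,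
      ← Finset.prod_mul_distrib]
    congr 2
    refine Finset.prod_congr rfl fun i _ => ?_
    rw [mul_pow]
    simp only [ip, im] at hγ ⊢
    rw [hγ]
  have h2 : ∑ a, γ a = γ none * 1 + (∑ j, γ (iz j) * 1 + ∑ i, γ (ip i) * 2) := by
    rw [Fintype.sum_option, Fintype.sum_sum_type, Fintype.sum_sum_type, ← Finset.sum_add_distrib]
    simp only [mul_one, mul_two]
    congr 2
    refine Finset.sum_congr rfl fun i _ => ?_
    simp only [ip, im] at hγ ⊢
    rw [hγ]
  rw [h1, h2]
  refine hgp.mul (hgp.pow ?_ _) (hgp.mul (hgp.prod _ fun j _ => hgp.pow ?_ _)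
    (hgp.prod _ fun i _ => hgp.pow ?_ _))
  · have := Sp.var (Φ := Φ) (U := U) (a := none) (Or.inl rfl)
    rw [hΦ] at this
    change Sp Φ U 1 (Ψ (MvPolynomial.X none))
    rw [hΨ]
    exact this
  · have := Sp.var (Φ := Φ) (U := U) (a := iz j) (Or.inr ⟨j, rfl⟩)
    rw [hΦ] at this
    change Sp Φ U 1 (Ψ (MvPolynomial.X (iz j)))
    rw [hΨ]
    exact this
  · change Sp Φ U 2 (Ψ (MvPolynomial.X (ip i) * MvPolynomial.X (im i)))
    rw [map_mul, hΨ, hΨ]
    exact hU i

/-- A polynomial with balanced monomials is in the span. -/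
theorem bal_poly {Φ Ψ : MvPolynomial (Ix N m) W.K →ₐ[W.K] W.H X}
    (hΦ : ∀ a, Φ (MvPolynomial.X a) = Zf ξ z e e' a)
    (hΨ : ∀ a, Ψ (MvPolynomial.X a) = Ef ξ z e e' a) {U : Set (MvPolynomial (Ix N m) L)}
    (hU : ∀ i, Sp Φ U 2 (e i * e' i)) {j : ℕ} {s : Finset (Ix N m →₀ ℕ)}
    {c : (Ix N m →₀ ℕ) → W.K} (hs : ∀ γ ∈ s, ∑ a, γ a = j)
    (hγ : ∀ γ ∈ s, c γ ≠ 0 → ∀ i, γ (ip i) = γ (im i)) :
    Sp Φ U j (Ψ (∑ γ ∈ s, c γ • monomial γ 1)) := by
  rw [map_sum]
  refine Submodule.sum_mem _ fun γ hγs => ?_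
  rw [map_smul]
  by_cases h0 : c γ = 0
  · rw [h0, zero_smul]
    exact Submodule.zero_mem _
  · have := bal_mono hΦ hΨ hU (hγ γ hγs h0)
    rw [hs γ hγs] at this
    exact Submodule.smul_mem _ _ this

end Pool.Agent.K4H28.FV
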