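import Pool.Agent.K4H28.FV.Geo3
import Pool.Agent.W552.RatBasis

/-!
# Classes generated by divisors
-/

set_option autoImplicit false
set_option linter.unusedSectionVars false

open CategoryTheory AlgebraicGeometry

universe u v

namespace Pool.Agent.K4H28.FV

open Pool.Agent.H914 VarClass Obj WeilCohomology MvPolynomial ComplexConjugate

variable {N m : ℕ} {k : Type u} [Field k] {𝒱 : VarClass k} {ops : CycleOps 𝒱}
  {W : WeilCohomology.{u, v} ops} {X : 𝒱.Obj} {D : X.Cycles}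
  {n : ℕ} {S : Submodule W.K (W.H X)} {δ : ℚ}
  {β : LinearMap.BilinForm W.K (W.H X)}

/-- The orthogonal basis of the divisors. -/
theorem exists_z (h : NF W X (W.cl X D) n S δ β) (hDc : X.IsCyc 1 D) (hI : HodgeIndex W X D)
    (hS : ∀ v ∈ algClasses W X 1, v ∈ S) :
    ∃ (N : ℕ) (z : Fin N → W.H X) (w : Fin N → ℚ), (∀ j, z j ∈ algClasses W X 1) ∧
      (∀ j, 0 < w j) ∧ (∀ j, β (W.cl X D) (z j) = 0) ∧
      (∀ i j, β (z i) (z j) = if i = j then -(w i : W.K) else 0) ∧
      ∀ v ∈ algClasses W X 1, ∃ (a : ℚ) (r : Fin N → ℚ),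
        v = (a : W.K) • W.cl X D + ∑ j, (r j : W.K) • z j := by
  set ξ := W.cl X D with hξ
  set M : W.H X → Prop := fun v => v ∈ algClasses W X 1 ∧ β ξ v = 0 with hM
  have hMr : Pool.Agent.W552.RatSub W.K M :=
    { zero := ⟨alg_zero 1, map_zero _⟩
      add := fun hx hy => ⟨alg_add hx.1 hy.1, by rw [map_add, hx.2, hy.2, add_zero]⟩
      smul := fun q _ hx => ⟨alg_smul hx.1 q, by rw [map_smul, hx.2, smul_zero]⟩ }
  obtain ⟨N, z, w, h1, h2, h3, h4⟩ := Pool.Agent.W552.exists_ratBasis hMr (-β)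
    (fun x y hx hy => by
      obtain ⟨r, hr⟩ := h.rat2 hx.1 (hS _ hx.1) hy.1 (hS _ hy.1)
      exact ⟨-r, by rw [LinearMap.neg_apply, LinearMap.neg_apply, hr, Rat.cast_neg]⟩)
    (fun x y _ _ => by
      rw [LinearMap.neg_apply, LinearMap.neg_apply, LinearMap.neg_apply, LinearMap.neg_apply,
        h.symm])
    (fun x hx hx0 => by
      obtain ⟨r, hr, hr'⟩ := h.neg hDc hξ hI hx.1 (hS _ hx.1) hx.2 hx0
      exact ⟨r, hr, by rw [LinearMap.neg_apply, LinearMap.neg_apply, hr', neg_neg]⟩)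
  refine ⟨N, z, w, fun j => (h1 j).1, h2, fun j => (h1 j).2, fun i j => ?_, fun v hv => ?_⟩
  · have := h3 i j
    rw [LinearMap.neg_apply, LinearMap.neg_apply] at this
    rw [← neg_neg (β (z i) (z j)), this]
    split_ifs
    · rfl
    · exact neg_zero
  · obtain ⟨a, ha⟩ := h.rat1 hv (hS _ hv)
    have hx : M (v - (a : W.K) • ξ) := by
      refine ⟨alg_sub hv (alg_smul h.alg a), ?_⟩
      rw [map_sub, map_smul, h.one, ha, smul_eq_mul, mul_one, sub_self]
    obtain ⟨r, hr⟩ := h4 _ (Submodule.subset_span hx) (fun j => by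
      obtain ⟨r, hr⟩ := h.rat2 hx.1 (hS _ hx.1) (h1 j).1 (hS _ (h1 j).1)
      exact ⟨-r, by rw [LinearMap.neg_apply, LinearMap.neg_apply, hr, Rat.cast_neg]⟩)
    exact ⟨a, r, by rw [← hr]; abel⟩

/-- The values of the variables are classes of degree `2`. -/
theorem Ef_mem {ξ : W.H X} {z : Fin N → W.H X} {e e' : Fin m → W.H X} (h1 : ξ ∈ W.gr X 2)
    (h2 : ∀ j, z j ∈ W.gr X 2) (h3 : ∀ i, e i ∈ W.gr X 2) (h4 : ∀ i, e' i ∈ W.gr X 2)
    (a : Ix N m) : Ef ξ z e e' a ∈ W.gr X 2 := by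
  rcases a with _ | j | i | i
  · exact h1
  · exact h2 j
  · exact h3 i
  · exact h4 i

theorem exists_Phi {ξ : W.H X} {z : Fin N → W.H X} {e e' : Fin m → W.H X} (h1 : ξ ∈ W.gr X 2)
    (h2 : ∀ j, z j ∈ W.gr X 2) (h3 : ∀ i, e i ∈ W.gr X 2) (h4 : ∀ i, e' i ∈ W.gr X 2) :
    (∃ Φ : MvPolynomial (Ix N m) W.K →ₐ[W.K] W.H X,
      ∀ a, Φ (MvPolynomial.X a) = Zf ξ z e e' a) ∧
    ∃ Ψ : MvPolynomial (Ix N m) W.K →ₐ[W.K] W.H X,
      ∀ a, Ψ (MvPolynomial.X a) = Ef ξ z e e' a := by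
  constructor
  · apply exists_hom
    intro a b
    apply two_comm
    rcases a with _ | j | i | i
    · exact h1
    · exact h2 j
    · exact Submodule.add_mem _ (h3 i) (h4 i)
    · exact Submodule.sub_mem _ (h3 i) (h4 i)
  · apply exists_hom
    intro a b
    exact two_comm (Ef_mem h1 h2 h3 h4 a) _

/-- **Classes generated by divisors.** -/
theorem hodge_div {n : ℕ} (hn : 1 ≤ n) (hX : X.dim = 2 * n) (hD : X.IsCyc 1 D)
    (hdeg : 0 < X.V.degCycle (divPow ops D X.dim X.V.fundCycle)) (hI : HodgeIndex W X D)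
    (hF : FujikiOn W X n (Submodule.span W.K (algClasses W X 1))) :
    Pool.Agent.W552.HodgeTypeFor W X D
      (fun x => x ∈ Algebra.adjoin W.K (algClasses W X 1)) := by
  intro j hj y hy hyS hprim hy0
  set S := Submodule.span W.K (algClasses W X 1) with hS
  have hSg : S ≤ W.gr X 2 := by
    rw [hS, Submodule.span_le]
    intro v hv
    exact alg_mem hv
  obtain ⟨β, h⟩ := exists_nf hn hX hD hdeg hSg (Submodule.subset_span ⟨D, hD, rfl⟩) hF
  obtain ⟨N, z, w, h1, h2, h3, h4, h5⟩ := exists_z h hD hI fun v hv => Submodule.subset_span hv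
  have hf : Frame W X (W.cl X D) S β z w (Fin.elim0 : Fin 0 → W.H X) Fin.elim0 :=
    { z_alg := h1
      z_mem := fun j => Submodule.subset_span (h1 j)
      w_pos := h2
      ξz := h3
      zz := h4
      span := h5
      e_mem := fun i => i.elim0
      e'_mem := fun i => i.elim0
      ξe := fun i => i.elim0
      ξe' := fun i => i.elim0
      ze := fun _ i => i.elim0
      ze' := fun _ i => i.elim0
      ee := fun i => i.elim0
      e'e' := fun i => i.elim0
      ee' := fun i => i.elim0 }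
  obtain ⟨⟨Φ, hΦ⟩, Ψ, hΨ⟩ := exists_Phi (N := N) (m := 0) (z := z) (hSg h.mem)
    (fun j => alg_mem (h1 j)) (e := Fin.elim0) (e' := Fin.elim0)
    (fun i => i.elim0) (fun i => i.elim0)
  have hPhi : ∀ P, Ψ P = Φ P := by
    intro P
    have : Ψ = Φ := by
      apply MvPolynomial.algHom_ext
      intro a
      rw [hΦ, hΨ]
      rcases a with _ | j | i | i
      · rfl
      · rfl
      · exact i.elim0
      · exact i.elim0
    rw [this]
  have hUg : ∀ g, (Ug (Fin.elim0 : Fin 0 → ℚ) Fin.elim0 g : MvPolynomial (Ix N 0) ℚ) = 0 := by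
    intro g
    rw [Ug]
    exact Finset.sum_of_isEmpty _
  refine hf.hr (L := ℚ) h hD rfl hΦ (ι := algebraMap ℚ ℂ) (a := Fin.elim0) (a' := Fin.elim0)
    (fun i => i.elim0) (fun g => ?_) hj hy ?_ hprim hy0
  · rw [hUg, psi, map_zero, map_zero]
    exact alg_zero 2
  · obtain ⟨P, hP, hPy⟩ := exists_poly (Φ := Ψ) (i := j)
      (fun a => by
        rw [hΨ]
        exact Ef_mem (hSg h.mem) (fun j => alg_mem (h1 j)) (fun i => i.elim0)
          (fun i => i.elim0) a)
      (G := algClasses W X 1) (fun g hg => by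
        obtain ⟨a, r, rfl⟩ := h5 g hg
        refine Submodule.add_mem _ (Submodule.smul_mem _ _ (Submodule.subset_span ⟨none, ?_⟩))
          (Submodule.sum_mem _ fun i _ => Submodule.smul_mem _ _
            (Submodule.subset_span ⟨iz i, ?_⟩))
        · exact hΨ none
        · exact hΨ (iz i)) hyS (W.cl_mem hy)
    rw [← hPy]
    have h6 : P = ∑ γ ∈ P.support, P.coeff γ • monomial γ (1 : W.K) := by
      conv_lhs => rw [P.as_sum]
      refine Finset.sum_congr rfl fun γ _ => ?_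
      rw [smul_monomial, smul_eq_mul, mul_one]
    rw [h6]
    refine bal_poly (Φ := Φ) (Ψ := Ψ) hΦ hΨ (U := Set.range (Ug Fin.elim0 Fin.elim0))
      (fun i => i.elim0) (fun γ hγ => ?_) (fun γ _ _ i => i.elim0)
    have := hP (mem_support_iff.1 hγ)
    rw [Finsupp.weight_apply, Finsupp.sum_fintype _ _ (fun i => by simp)] at this
    simpa using this

end Pool.Agent.K4H28.FV
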