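import Pool.Agent.K4H28.FV.Geo4

/-!
# The frame of an independent spectrum
-/

set_option autoImplicit false
set_option linter.unusedSectionVars false

open CategoryTheory AlgebraicGeometry

universe u v

namespace Pool.Agent.K4H28.FV

open Pool.Agent.H914 VarClass Obj WeilCohomology

variable {N m : ℕ} {k : Type u} [Field k] {𝒱 : VarClass k} {ops : CycleOps 𝒱}
  {W : WeilCohomology.{u, v} ops} {X : 𝒱.Obj} {D : X.Cycles}
  {n : ℕ} {δ : ℚ} {β : LinearMap.BilinForm W.K (W.H X)} {f : X ⟶ X} {q : ℕ}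
  {e e' : Fin m → W.H X} {α : Fin m → W.K}

theorem bil_sml {K H : Type*} [Field K] [AddCommGroup H] [Module K H] (β : LinearMap.BilinForm K H)
    (a b : K) (x y : H) : β (a • x) (b • y) = a * b * β x y := by
  rw [map_smul, map_smul, LinearMap.smul_apply, smul_eq_mul, smul_eq_mul]
  ring

/-- The endomorphism is a similitude of the form. -/
theorem simil (h : NF W X (W.cl X D) n (W.gr X 2) δ β) (hq : 1 ≤ q) 
    (hf : W.map f (W.cl X D) = (q : W.K) • W.cl X D) :
    (∀ v ∈ W.gr X 2, β (W.cl X D) (W.map f v) = q * β (W.cl X D) v) ∧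
      ∀ v ∈ W.gr X 2, ∀ w ∈ W.gr X 2, β (W.map f v) (W.map f w) = (q : W.K) ^ 2 * β v w := by
  set ξ := W.cl X D with hξ
  have hn := h.n_pos
  have hq0 : (q : W.K) ≠ 0 := Nat.cast_ne_zero.2 (by omega)
  have hδ0 : (δ : W.K) ≠ 0 := Rat.cast_ne_zero.2 h.pos.ne'
  have hξp : ∀ i, W.map f (ξ ^ i) = (q : W.K) ^ i • ξ ^ i := by
    intro i
    rw [map_pow, hf, smul_pow]
  have hξi : ∀ i, ξ ^ i ∈ W.gr X (2 * i) := by
    intro i
    have := alg_mem (alg_pow h.alg i)
    rwa [mul_one] at this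
  have htop : W.tr X (ξ ^ (2 * n)) ≠ 0 := by
    rw [h.rel ξ h.mem, h.one, one_pow, mul_one]
    exact hδ0
  have htr := fun a => tr_map_of_top (W := W) (b := ξ ^ (2 * n)) (by
    have := hξi (2 * n)
    rwa [← h.dim] at this ⊢) htop (hξp (2 * n)) a
  have h1 : ∀ v ∈ W.gr X 2, β ξ (W.map f v) = q * β ξ v := by
    intro v hv
    have e1 := htr (v * ξ ^ (2 * n - 1))
    rw [map_mul, hξp, mul_smul_comm, map_smul, (h.coef (W.map_mem f hv)).1, (h.coef hv).1,
      smul_eq_mul] at e1
    have e2 : (q : W.K) ^ (2 * n) = (q : W.K) ^ (2 * n - 1) * q := by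
      rw [← pow_succ]; congr 1; omega
    rw [e2] at e1
    have e3 : (q : W.K) ^ (2 * n - 1) * (δ : W.K) ≠ 0 := mul_ne_zero (pow_ne_zero _ hq0) hδ0
    apply mul_left_cancel₀ e3
    linear_combination e1
  refine ⟨h1, fun v hv w hw => ?_⟩
  have e1 := htr (v * w * ξ ^ (2 * n - 2))
  rw [map_mul (W.map f), map_mul (W.map f), hξp, mul_smul_comm, map_smul, smul_eq_mul] at e1
  have e2 : (q : W.K) ^ (2 * n) = (q : W.K) ^ (2 * n - 2) * (q : W.K) ^ 2 := by
    rw [← pow_add]; congr 1; omega
  rw [e2] at e1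
  have e4 := h.pol (W.map_mem f hv) (W.map_mem f hw)
  have e5 := h.pol hv hw
  rw [h1 v hv, h1 w hw] at e4
  have e6 : W.tr X (W.map f v * W.map f w * ξ ^ (2 * n - 2)) =
      (q : W.K) ^ 2 * W.tr X (v * w * ξ ^ (2 * n - 2)) := by
    apply mul_left_cancel₀ (pow_ne_zero (2 * n - 2) hq0)
    linear_combination e1
  rw [e6] at e4
  apply mul_left_cancel₀ hδ0
  linear_combination (q : W.K) ^ 2 * e5 - e4

namespace IsSpectrum

variable (hs : IsSpectrum W X f q n e e' α)

include hs

/-- One eigenvalue. -/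
theorem ne1 (hn : 1 ≤ n) (hq : 1 ≤ q) (i : Fin m) : α i ≠ q := by
  intro h
  have hq0 : (q : W.K) ≠ 0 := Nat.cast_ne_zero.2 (by omega)
  have h1 := hs.indep 1 le_rfl (Pi.single i 1) (by
    have h2 : ∀ j, |(Pi.single i 1 : Fin m → ℤ) j| = if j = i then 1 else 0 := by
      intro j
      rw [Pi.single_apply]
      split_ifs <;> simp
    simp only [h2, Finset.sum_ite_eq', Finset.mem_univ, if_true]
    exact_mod_cast hn) (by
    apply Finset.prod_eq_one
    intro j _
    rw [Pi.single_apply]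
    split_ifs with hj
    · rw [hj, h, div_self hq0, one_zpow]
    · rw [mul_zero, zpow_zero])
  have h3 := congrFun h1 i
  rw [Pi.single_eq_same] at h3
  exact one_ne_zero h3

theorem ne2 (hn : 2 ≤ n) (hq : 1 ≤ q) (i j : Fin m) : α i * α j ≠ (q : W.K) ^ 2 := by
  intro h
  have hq0 : (q : W.K) ≠ 0 := Nat.cast_ne_zero.2 (by omega)
  have h1 := hs.indep 1 le_rfl (Pi.single i 1 + Pi.single j 1) (by
    calc ∑ l, |(Pi.single i 1 + Pi.single j 1 : Fin m → ℤ) l|
        = ∑ l, ((if l = i then 1 else 0) + (if l = j then 1 else 0) : ℤ) := by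
          refine Finset.sum_congr rfl fun l _ => ?_
          rw [Pi.add_apply, Pi.single_apply, Pi.single_apply]
          split_ifs <;> norm_num
      _ = 2 := by
          rw [Finset.sum_add_distrib]
          simp only [Finset.sum_ite_eq', Finset.mem_univ, if_true]
          norm_num
      _ ≤ n := by exact_mod_cast hn) (by
    have h2 : ∀ l, (α l / (q : W.K)) ^ ((1 : ℕ) * (Pi.single i 1 + Pi.single j 1 : Fin m → ℤ) l) =
        (if l = i then α i / q else 1) * (if l = j then α j / q else 1) := by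
      intro l
      rw [Pi.add_apply, Pi.single_apply, Pi.single_apply, Nat.cast_one, one_mul]
      by_cases h3 : l = i <;> by_cases h4 : l = j
      · subst h3; subst h4
        rw [if_pos rfl, if_pos rfl, ← pow_two]
        norm_cast
      · subst h3
        rw [if_pos rfl, if_neg h4, if_pos rfl, if_neg h4, add_zero, zpow_one, mul_one]
      · subst h4
        rw [if_neg h3, if_pos rfl, if_neg h3, if_pos rfl, zero_add, zpow_one, one_mul]
      · rw [if_neg h3, if_neg h4, if_neg h3, if_neg h4, add_zero, zpow_zero, one_mul]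
    simp only [h2, Finset.prod_mul_distrib, Finset.prod_ite_eq', Finset.mem_univ, if_true]
    rw [div_mul_div_comm, h, pow_two, div_self (mul_ne_zero hq0 hq0)])
  have h3 := congrFun h1 i
  rw [Pi.add_apply, Pi.single_eq_same, Pi.single_apply, Pi.zero_apply] at h3
  split_ifs at h3 <;> norm_num at h3

theorem inj (hn : 2 ≤ n) (hq : 1 ≤ q) (hα : ∀ i, α i ≠ 0) {i j : Fin m} (hij : i ≠ j) :
    α i ≠ α j := by
  intro h
  have hq0 : (q : W.K) ≠ 0 := Nat.cast_ne_zero.2 (by omega)
  have h1 := hs.indep 1 le_rfl (Pi.single i 1 - Pi.single j 1) (by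
    calc ∑ l, |(Pi.single i 1 - Pi.single j 1 : Fin m → ℤ) l|
        = ∑ l, ((if l = i then 1 else 0) + (if l = j then 1 else 0) : ℤ) := by
          refine Finset.sum_congr rfl fun l _ => ?_
          rw [Pi.sub_apply, Pi.single_apply, Pi.single_apply]
          by_cases h3 : l = i <;> by_cases h4 : l = j
          · exact absurd (h3.symm.trans h4) hij
          · rw [if_pos h3, if_neg h4]; norm_num
          · rw [if_neg h3, if_pos h4]; norm_num
          · rw [if_neg h3, if_neg h4]; norm_num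
      _ = 2 := by
          rw [Finset.sum_add_distrib]
          simp only [Finset.sum_ite_eq', Finset.mem_univ, if_true]
          norm_num
      _ ≤ n := by exact_mod_cast hn) (by
    have h2 : ∀ l, (α l / (q : W.K)) ^ ((1 : ℕ) * (Pi.single i 1 - Pi.single j 1 : Fin m → ℤ) l) =
        (if l = i then α i / q else 1) * (if l = j then (α j / q)⁻¹ else 1) := by
      intro l
      rw [Pi.sub_apply, Pi.single_apply, Pi.single_apply, Nat.cast_one, one_mul]
      by_cases h3 : l = i <;> by_cases h4 : l = j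
      · exact absurd (h3.symm.trans h4) hij
      · subst h3
        rw [if_pos rfl, if_neg h4, if_pos rfl, if_neg h4, sub_zero, zpow_one, mul_one]
      · subst h4
        rw [if_neg h3, if_pos rfl, if_neg h3, if_pos rfl, zero_sub, zpow_neg_one, one_mul]
      · rw [if_neg h3, if_neg h4, if_neg h3, if_neg h4, sub_zero, zpow_zero, one_mul]
    simp only [h2, Finset.prod_mul_distrib, Finset.prod_ite_eq', Finset.mem_univ, if_true]
    rw [h, mul_inv_cancel₀ (div_ne_zero (hα j) hq0)])
  have h3 := congrFun h1 i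
  rw [Pi.sub_apply, Pi.single_eq_same, Pi.single_apply, if_neg hij, Pi.zero_apply] at h3
  norm_num at h3

theorem eig'' (hα : ∀ i, α i ≠ 0) (i : Fin m) :
    W.map f (e' i) = ((q : W.K) ^ 2 / α i) • e' i := by
  have h1 := hs.eig' i
  have h2 : W.map f (e' i) = (α i)⁻¹ • (α i • W.map f (e' i)) := by
    rw [smul_smul, inv_mul_cancel₀ (hα i), one_smul]
  rw [h2, h1, smul_smul]
  congr 1
  field_simp

end IsSpectrum

/-- The orthogonality relations. -/
theorem spec_orth (h : NF W X (W.cl X D) n (W.gr X 2) δ β) (hq : 1 ≤ q) (hn : 2 ≤ n)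
    (hDc : X.IsCyc 1 D) (hs : IsSpectrum W X f q n e e' α) (hα : ∀ i, α i ≠ 0) :
    (∀ v ∈ algClasses W X 1, ∀ i, β v (e i) = 0 ∧ β v (e' i) = 0) ∧
      (∀ i j, β (e i) (e j) = 0) ∧ (∀ i j, β (e' i) (e' j) = 0) ∧
      ∀ i j, i ≠ j → β (e i) (e' j) = 0 := by
  have hq0 : (q : W.K) ≠ 0 := Nat.cast_ne_zero.2 (by omega)
  obtain ⟨-, hsim⟩ := simil h hq (hs.div D hDc)
  refine ⟨?_, ?_, ?_, ?_⟩
  · rintro _ ⟨z, hz, rfl⟩ i
    constructor
    · have h1 := hsim _ (W.cl_mem hz) _ (hs.mem i)
      rw [hs.div z hz, hs.eig, bil_sml] at h1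
      have h2 : (q : W.K) * (α i - q) * β (W.cl X z) (e i) = 0 := by linear_combination h1
      exact (mul_eq_zero.1 h2).resolve_left
        (mul_ne_zero hq0 (sub_ne_zero.2 (hs.ne1 (by omega) hq i)))
    · have h1 := hsim _ (W.cl_mem hz) _ (hs.mem' i)
      rw [hs.div z hz, hs.eig'' hα, bil_sml] at h1
      have h2 : (q : W.K) ^ 2 * (q - α i) * β (W.cl X z) (e' i) = 0 := by
        have h3 := hα i
        field_simp at h1
        linear_combination (q : W.K) ^ 2 * h1
      refine (mul_eq_zero.1 h2).resolve_left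
        (mul_ne_zero (pow_ne_zero _ hq0) (sub_ne_zero.2 (hs.ne1 (by omega) hq i).symm))
  · intro i j
    have h1 := hsim _ (hs.mem i) _ (hs.mem j)
    rw [hs.eig, hs.eig, bil_sml] at h1
    have h2 : (α i * α j - (q : W.K) ^ 2) * β (e i) (e j) = 0 := by linear_combination h1
    exact (mul_eq_zero.1 h2).resolve_left (sub_ne_zero.2 (hs.ne2 hn hq i j))
  · intro i j
    have h1 := hsim _ (hs.mem' i) _ (hs.mem' j)
    rw [hs.eig'' hα, hs.eig'' hα, bil_sml] at h1
    have h2 : (q : W.K) ^ 2 * ((q : W.K) ^ 2 - α i * α j) * β (e' i) (e' j) = 0 := by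
      have h3 := hα i
      have h4 := hα j
      field_simp at h1
      linear_combination (q : W.K) ^ 2 * h1
    exact (mul_eq_zero.1 h2).resolve_left
      (mul_ne_zero (pow_ne_zero _ hq0) (sub_ne_zero.2 (hs.ne2 hn hq i j).symm))
  · intro i j hij
    have h1 := hsim _ (hs.mem i) _ (hs.mem' j)
    rw [hs.eig, hs.eig'' hα, bil_sml] at h1
    have h2 : (q : W.K) ^ 2 * (α i - α j) * β (e i) (e' j) = 0 := by
      have h4 := hα j
      field_simp at h1
      linear_combination (q : W.K) ^ 2 * h1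
    exact (mul_eq_zero.1 h2).resolve_left
      (mul_ne_zero (pow_ne_zero _ hq0) (sub_ne_zero.2 (hs.inj hn hq hα hij)))

/-- The pairing of the two eigenvectors. -/
theorem spec_ne (h : NF W X (W.cl X D) n (W.gr X 2) δ β) (hq : 1 ≤ q) (hn : 2 ≤ n)
    (hDc : X.IsCyc 1 D) (hHL : HardLefschetz W X D) (hs : IsSpectrum W X f q n e e' α)
    (hα : ∀ i, α i ≠ 0) (i : Fin m) : β (e i) (e' i) ≠ 0 := by
  intro h0
  obtain ⟨o1, o2, o3, o4⟩ := spec_orth h hq hn hDc hs hα
  have h1' : ∀ i, β (W.cl X D) (e i) = 0 := fun i => (o1 _ h.alg i).1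
  have h1 : ∀ w ∈ W.gr X 2, β (e i) w = 0 := by
    intro w hw
    have h2 := hs.span hw
    clear hw
    induction h2 using Submodule.span_induction with
    | mem x hx =>
      rcases hx with (hx | ⟨j, rfl⟩) | ⟨j, rfl⟩
      · rw [h.symm]; exact (o1 x hx i).1
      · exact o2 i j
      · by_cases hij : i = j
        · rw [← hij]; exact h0
        · exact o4 i j hij
    | zero => exact map_zero _
    | add x y _ _ hx hy => rw [map_add, hx, hy, add_zero]
    | smul a x _ hx => rw [map_smul, hx, smul_zero]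
  apply hs.ne_zero i
  have h3 := (hHL 2 (by rw [h.dim]; omega)).1 (e i) (hs.mem i)
  apply h3
  rw [LinearMap.pow_mulLeft, LinearMap.mulLeft_apply]
  apply W.nondeg
  intro b
  have h5 : W.cl X D ^ (X.dim - 2) ∈ W.gr X (2 * (X.dim - 2)) := by
    have := alg_mem (alg_pow h.alg (X.dim - 2))
    rwa [mul_one] at this
  refine gr_induction (W.isInternal X)
    (p := fun b => W.tr X (W.cl X D ^ (X.dim - 2) * e i * b) = 0) ?_ ?_ b
  · intro j b hb
    by_cases hj : j = 2
    · subst hj
      have h6 := h.pol (hs.mem i) hb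
      rw [h1 b hb, h1' i, zero_mul, mul_zero, add_zero, mul_zero] at h6
      have h7 : ((2 * n - 1 : W.K)) ≠ 0 := by
        have := h.n2
        exact_mod_cast (Rat.cast_ne_zero (α := W.K)).2 this
      have h8 := (mul_eq_zero.1 h6).resolve_left h7
      rw [mul_assoc, W.even_comm (p := X.dim - 2) h5, h.dim]
      exact h8
    · apply W.tr_eq_zero (W.mul_mem (W.mul_mem h5 (hs.mem i)) hb)
      rw [h.dim]
      omega
  · intro b b' hb hb'
    rw [mul_add, map_add, hb, hb', add_zero]

end Pool.Agent.K4H28.FV
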