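import Pool.Agent.K4H28.FV.Geo5
import Pool.Agent.H447R3.NcB

/-!
# Algebraic classes from the Frobenius endomorphism
-/

set_option autoImplicit false
set_option linter.unusedSectionVars false

open CategoryTheory AlgebraicGeometry

universe u v

namespace Pool.Agent.K4H28.FV

open Pool.Agent.H914 VarClass Obj WeilCohomology

theorem aeval_eig {K V : Type*} [Field K] [AddCommGroup V] [Module K V] {F : Module.End K V}
    {μ : K} {v : V} (h : F v = μ • v) (p : Polynomial K) :
    (Polynomial.aeval F p) v = p.eval μ • v := by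
  induction p using Polynomial.induction_on' with
  | add p r hp hr =>
    rw [map_add, LinearMap.add_apply, hp, hr, Polynomial.eval_add, add_smul]
  | monomial i a =>
    rw [Polynomial.aeval_monomial, Module.End.mul_apply, Polynomial.eval_monomial,
      Module.algebraMap_end_apply]
    have h1 : (F ^ i) v = μ ^ i • v := by
      induction i with
      | zero => rw [pow_zero, pow_zero, one_smul, Module.End.one_apply]
      | succ i ih => rw [pow_succ', Module.End.mul_apply, ih, map_smul, h, smul_smul, ← pow_succ]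
    rw [h1, smul_smul]

variable {N m : ℕ} {k : Type u} [Field k] {𝒱 : VarClass k} {ops : CycleOps 𝒱}
  {W : WeilCohomology.{u, v} ops} {X : 𝒱.Obj} {D : X.Cycles}
  {n : ℕ} {δ : ℚ} {β : LinearMap.BilinForm W.K (W.H X)} {f : X ⟶ X} {q : ℕ}
  {z : Fin N → W.H X} {w : Fin N → ℚ} {e e' : Fin m → W.H X} {α : Fin m → W.K}

theorem ev_eig {F : Module.End W.K (W.H X)} {μ : W.K} {v : W.H X} (h : F v = μ • v)
    (g : Polynomial ℚ) : Pool.Agent.H914.ev F g v = Polynomial.aeval μ g • v := by
  rw [Pool.Agent.H914.ev_apply, aeval_eig h, Polynomial.eval_map_algebraMap]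

/-- The eigenvalues. -/
def lamf {K : Type*} [Field K] (q : K) (α : Fin m → K) : Ix N m → K
  | none => q
  | some (Sum.inl _) => q
  | some (Sum.inr (Sum.inl i)) => α i
  | some (Sum.inr (Sum.inr i)) => q ^ 2 / α i

/-- The dual family. -/
noncomputable def Df {K H : Type*} [Field K] [Ring H] [Algebra K H] (c δ : K) (ξ : H)
    (z : Fin N → H) (w : Fin N → K) (e e' : Fin m → H) : Ix N m → H
  | none => (1 / δ) • ξ
  | some (Sum.inl j) => (-c / (δ * w j)) • z j
  | some (Sum.inr (Sum.inl i)) => (c / δ) • e' i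
  | some (Sum.inr (Sum.inr i)) => (c / δ) • e i

theorem dual (h : NF W X (W.cl X D) n (W.gr X 2) δ β)
    (hf : Frame W X (W.cl X D) (W.gr X 2) β z w e e') (a b : Ix N m) :
    W.tr X (Df (2 * n - 1 : W.K) δ (W.cl X D) z (fun j => (w j : W.K)) e e' a *
      Ef (W.cl X D) z e e' b * W.cl X D ^ (2 * n - 2)) = if a = b then 1 else 0 := by
  have hc : ((2 * n - 1 : W.K)) ≠ 0 := by
    have := h.n2
    exact_mod_cast (Rat.cast_ne_zero (α := W.K)).2 this
  have hδ : (δ : W.K) ≠ 0 := Rat.cast_ne_zero.2 h.pos.ne'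
  have hw : ∀ j, ((w j : ℚ) : W.K) ≠ 0 := fun j => Rat.cast_ne_zero.2 (hf.w_pos j).ne'
  set ξ := W.cl X D with hξ
  have hpol : ∀ v ∈ W.gr X 2, ∀ v' ∈ W.gr X 2, ∀ t : W.K, W.tr X (t • v * v' * ξ ^ (2 * n - 2)) =
      t * (δ / (2 * n - 1) * (β v v' + 2 * (n - 1) * (β ξ v * β ξ v'))) := by
    intro v hv v' hv' t
    rw [smul_mul_assoc, smul_mul_assoc, map_smul, smul_eq_mul]
    congr 1
    rw [div_mul_eq_mul_div, eq_div_iff hc, ← h.pol hv hv']
    ring
  have hzξ : ∀ j, β (z j) ξ = 0 := fun j => by rw [h.symm, hf.ξz]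
  have heξ : ∀ j, β (e j) ξ = 0 := fun j => by rw [h.symm, hf.ξe]
  have he'ξ : ∀ j, β (e' j) ξ = 0 := fun j => by rw [h.symm, hf.ξe']
  have hez : ∀ i j, β (e i) (z j) = 0 := fun i j => by rw [h.symm, hf.ze]
  have he'z : ∀ i j, β (e' i) (z j) = 0 := fun i j => by rw [h.symm, hf.ze']
  have he'e : ∀ i j, β (e' i) (e j) = if i = j then 1 else 0 := fun i j => by
    rw [h.symm, hf.ee']
    by_cases hij : i = j
    · rw [if_pos hij, if_pos hij.symm]
    · rw [if_neg hij, if_neg (fun h => hij h.symm)]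
  rcases a with _ | j | i | i <;> rcases b with _ | j' | i' | i' <;> simp only [Df, Ef] <;>
    rw [hpol _ (by first | exact h.mem | exact hf.z_mem _ | exact hf.e_mem _ | exact hf.e'_mem _) _
      (by first | exact h.mem | exact hf.z_mem _ | exact hf.e_mem _ | exact hf.e'_mem _)] <;>
    simp only [h.one, hf.ξz, hf.ξe, hf.ξe', hf.ze, hf.ze', hf.ee, hf.e'e', hf.ee', hf.zz,
      hzξ, heξ, he'ξ, hez, he'z, he'e, Option.some.injEq, Sum.inl.injEq, Sum.inr.injEq,
      reduceCtorEq, if_true, if_false, mul_zero, zero_mul, add_zero]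
  · field_simp
    ring
  · by_cases hjj : j = j'
    · simp only [hjj, if_true]
      have := hw j'
      field_simp
    · simp only [hjj, if_false, mul_zero]
  · by_cases hii : i = i'
    · simp only [hii, if_true]
      field_simp
    · simp only [hii, if_false, mul_zero]
  · by_cases hii : i = i'
    · simp only [hii, if_true]
      field_simp
    · simp only [hii, if_false, mul_zero]

/-- The correspondence of an external product. -/
theorem corr_ext_even (a : W.H X) {b : W.H X} (hb : b ∈ W.gr X 2) (x : W.H X) :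
    W.corr (W.map (fst X X) a * W.map (snd X X) b) x = W.tr X (a * x) • b := by
  rw [corr_apply, mul_assoc, two_comm (W.map_mem (snd X X) hb), ← mul_assoc,
    ← map_mul (W.map (fst X X)), push_snd]

theorem corr_sum {J : Type*} (s : Finset J) (c : J → W.H (X.prod X)) :
    W.corr (∑ j ∈ s, c j) = ∑ j ∈ s, W.corr (c j) := by
  classical
  induction s using Finset.induction_on with
  | empty => rw [Finset.sum_empty, Finset.sum_empty, corr_zero]
  | insert a s ha ih => rw [Finset.sum_insert ha, Finset.sum_insert ha, corr_add, ih]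

/-- The algebraic operator inverting the Lefschetz operator, composed with a polynomial in the
Frobenius endomorphism. -/
theorem exists_op (hDc : X.IsCyc 1 D) (hn : 1 ≤ n) (hdim : X.dim = 2 * n)
    (hHL : HardLefschetz W X D) (hB : LefschetzB W X D) (g : Polynomial ℚ) :
    ∃ c, (X.prod X).IsCyc 2 c ∧
      (∀ i, i ≠ 2 + 2 * (2 * n - 2) → ∀ x ∈ W.gr X i, W.corr (W.cl _ c) x = 0) ∧
      ∀ v ∈ W.gr X 2, W.corr (W.cl _ c) (v * W.cl X D ^ (2 * n - 2)) =
        Pool.Agent.H914.ev (W.map f).toLinearMap g v := by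
  have hOA := rop_opAlg (W := W) (X := X)
  obtain ⟨Λ, hΛ, hLam⟩ := lefschetzB_iff_rop.1 hB
  have hK := ((Pool.Agent.H447.central_tfae hDc hHL).out 0 1).1 hB
  have hp := rop_proj hK.1 (2 + 2 * (2 * n - 2))
  have h1 : ROp W X (-(2 * n - 2 : ℕ)) (Pool.Agent.H914.ev (W.map f).toLinearMap g *
      (Λ ^ (2 * n - 2) * proj (W.isInternal X) (2 + 2 * (2 * n - 2)))) :=
    hOA.cast (hOA.mul (rop_ev (rop_map f) g) (hOA.mul (hOA.pow hΛ (2 * n - 2)) hp)) (by ring)
  obtain ⟨c, hc, hc'⟩ := Pool.Agent.H447.exists_of_rop (p := 2) (by rw [hdim]; omega) h1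
  refine ⟨c, hc, ?_, ?_⟩
  · intro i hi x hx
    rw [hc', Module.End.mul_apply, Module.End.mul_apply, proj_ne _ hx hi, map_zero, map_zero]
  · intro v hv
    have hLh : IsHom (W.gr X) 2 (LinearMap.mulLeft W.K (W.cl X D)) := by
      simpa using rop_opAlg.hom (rop_mulLeft (W := W) hDc)
    have hξ : W.cl X D ^ (2 * n - 2) ∈ W.gr X (2 * (2 * n - 2)) := by
      have h0 : W.cl X D ∈ algClasses W X 1 := ⟨D, hDc, rfl⟩
      have := alg_mem (alg_pow h0 (2 * n - 2))
      rwa [mul_one] at this
    rw [hc', Module.End.mul_apply, Module.End.mul_apply,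
      proj_same _ (W.mul_mem hv hξ)]
    congr 1
    have h2 := lam_pow_L_pow hLh W_hbd hHL hLam (c := 2 * n - 2) (by rw [hdim]; omega) (a := v)
      (by rw [hdim, show 2 * n - (2 * n - 2) = 2 by omega]; exact hv)
    rw [LinearMap.pow_mulLeft, LinearMap.mulLeft_apply] at h2
    rw [two_comm hv]
    exact h2

/-- **The classes from the Frobenius endomorphism are algebraic.** -/
theorem Ug_alg (h : NF W X (W.cl X D) n (W.gr X 2) δ β) (hDc : X.IsCyc 1 D)
    (hHL : HardLefschetz W X D) (hB : LefschetzB W X D)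
    (hf : Frame W X (W.cl X D) (W.gr X 2) β z w e e')
    (hfr : ∀ a : Ix N m, W.map f (Ef (W.cl X D) z e e' a) =
      lamf (q : W.K) α a • Ef (W.cl X D) z e e' a)
    (hspan : W.gr X 2 ≤ Submodule.span W.K (Set.range (Ef (W.cl X D) z e e' : Ix N m → W.H X)))
    (g : Polynomial ℚ) :
    ∑ i, (Polynomial.aeval (α i) g + Polynomial.aeval ((q : W.K) ^ 2 / α i) g) • (e i * e' i) ∈
      algClasses W X 2 := by
  set ξ := W.cl X D with hξ
  set E : Ix N m → W.H X := Ef ξ z e e' with hE
  set Dl : Ix N m → W.H X := Df (2 * n - 1 : W.K) δ ξ z (fun j => (w j : W.K)) e e' with hDl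
  have hEm : ∀ a, E a ∈ W.gr X 2 := Ef_mem h.mem hf.z_mem hf.e_mem hf.e'_mem
  have hδ : (δ : W.K) ≠ 0 := Rat.cast_ne_zero.2 h.pos.ne'
  have hc0 : ((2 * n - 1 : W.K)) ≠ 0 := by
    have := h.n2
    exact_mod_cast (Rat.cast_ne_zero (α := W.K)).2 this
  obtain ⟨c, hc, hc1, hc2⟩ := exists_op (f := f) hDc h.n_pos h.dim hHL hB g
  set c0 : W.H (X.prod X) := ∑ a, W.map (fst X X) (Dl a) *
    W.map (snd X X) (Polynomial.aeval (lamf (q : W.K) α a) g • E a) with hc0'
  have hcorr0 : ∀ x, W.corr c0 x = ∑ a, W.tr X (Dl a * x) •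
      (Polynomial.aeval (lamf (q : W.K) α a) g • E a) := by
    intro x
    rw [hc0', corr_sum, LinearMap.sum_apply]
    exact Finset.sum_congr rfl fun a _ => corr_ext_even _ (Submodule.smul_mem _ _ (hEm a)) x
  have hDlm : ∀ a, Dl a ∈ W.gr X 2 := by
    intro a
    rcases a with _ | j | i | i
    · exact Submodule.smul_mem _ _ h.mem
    · exact Submodule.smul_mem _ _ (hf.z_mem j)
    · exact Submodule.smul_mem _ _ (hf.e'_mem i)
    · exact Submodule.smul_mem _ _ (hf.e_mem i)
  have hEq : W.cl _ c = c0 := by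
    rw [← sub_eq_zero]
    apply corr_inj
    rw [sub_eq_add_neg, ← neg_one_smul W.K c0, corr_add, corr_smul,
      neg_one_smul W.K (W.corr c0), ← sub_eq_add_neg, sub_eq_zero]
    apply gr_ext (W.isInternal X)
    intro i x hx
    by_cases hi : i = 2 + 2 * (2 * n - 2)
    · have hi2 : i = 2 * X.dim - 2 := by rw [h.dim]; have := h.n_pos; omega
      rw [hi2] at hx
      obtain ⟨v, hv, rfl⟩ := (hHL 2 (by rw [h.dim]; have := h.n_pos; omega)).2 x hx
      rw [LinearMap.pow_mulLeft, LinearMap.mulLeft_apply, ← two_comm hv, h.dim, hc2 v hv]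
      have hv' := hspan hv
      clear hv hx
      induction hv' using Submodule.span_induction with
      | zero =>
        rw [map_zero, zero_mul, map_zero]
      | add x y _ _ hx hy =>
        rw [map_add, add_mul, map_add, hx, hy]
      | smul a x _ hx =>
        rw [map_smul, smul_mul_assoc, map_smul, hx]
      | mem x hx =>
        obtain ⟨b, rfl⟩ := hx
        rw [ev_eig (hfr b), hcorr0, Finset.sum_eq_single b]
        · have h3 := dual h hf b b
          rw [if_pos rfl, mul_assoc] at h3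
          rw [h3, one_smul]
        · intro a _ hab
          have h3 := dual h hf a b
          rw [if_neg hab, mul_assoc] at h3
          rw [h3, zero_smul]
        · intro hb
          exact absurd (Finset.mem_univ b) hb
    · rw [hc1 i hi x hx, hcorr0]
      symm
      apply Finset.sum_eq_zero
      intro a _
      rw [W.tr_eq_zero (W.mul_mem (hDlm a) hx), zero_smul]
      rw [h.dim]
      have := h.n_pos
      omega
  -- the pull-back to the diagonal
  have h4 : W.map (diag X) (W.cl _ c) ∈ algClasses W X 2 :=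
    ⟨_, ops.pull_mem (diag X) hc, W.cl_pull _ _⟩
  have e1 : diag X ≫ fst X X = 𝟙 X := Obj.lift_fst _ _
  have e2 : diag X ≫ snd X X = 𝟙 X := Obj.lift_snd _ _
  have h5 : W.map (diag X) (W.cl _ c) =
      ∑ a, Dl a * (Polynomial.aeval (lamf (q : W.K) α a) g • E a) := by
    rw [hEq, hc0', map_sum]
    refine Finset.sum_congr rfl fun a _ => ?_
    rw [map_mul, ← W.map_comp, ← W.map_comp, e1, e2, W.map_id, W.map_id]
  rw [h5, Fintype.sum_option, Fintype.sum_sum_type, Fintype.sum_sum_type,
    ← Finset.sum_add_distrib] at h4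
  have hgq : Polynomial.aeval (q : W.K) g = ((Polynomial.eval (q : ℚ) g : ℚ) : W.K) := by
    have h6 : (q : W.K) = algebraMap ℚ W.K (q : ℚ) := by rw [map_natCast]
    rw [h6, Polynomial.aeval_algebraMap_apply, Polynomial.coe_aeval_eq_eval]
    rfl
  have h7 : Dl none * (Polynomial.aeval (lamf (q : W.K) α (none : Ix N m)) g • E none) ∈
      algClasses W X 2 := by
    have h8 : Dl none * (Polynomial.aeval (lamf (q : W.K) α (none : Ix N m)) g • E none) =
        ((1 / δ * Polynomial.eval (q : ℚ) g : ℚ) : W.K) • (ξ * ξ) := by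
      simp only [hDl, hE, Df, Ef, lamf, hgq, smul_mul_assoc, mul_smul_comm, smul_smul]
      push_cast
      rw [mul_comm]
    rw [h8]
    exact alg_smul (alg_mul h.alg h.alg) _
  have h9 : ∑ j, Dl (iz j) * (Polynomial.aeval (lamf (q : W.K) α (iz j)) g • E (iz j)) ∈
      algClasses W X 2 := by
    apply alg_sum
    intro j _
    have h8 : Dl (iz j) * (Polynomial.aeval (lamf (q : W.K) α (iz j)) g • E (iz j)) =
        ((-(2 * n - 1) / (δ * w j) * Polynomial.eval (q : ℚ) g : ℚ) : W.K) • (z j * z j) := by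
      simp only [hDl, hE, Df, Ef, lamf, hgq, smul_mul_assoc, mul_smul_comm, smul_smul]
      push_cast
      rw [mul_comm]
    rw [h8]
    exact alg_smul (alg_mul (hf.z_alg j) (hf.z_alg j)) _
  have h10 := alg_sub (alg_sub h4 h7) h9
  rw [add_sub_cancel_left, add_sub_cancel_left] at h10
  have h11 := alg_smul h10 (δ / (2 * n - 1))
  convert h11 using 1
  rw [Finset.smul_sum]
  refine Finset.sum_congr rfl fun i _ => ?_
  simp only [hDl, hE, Df, Ef, lamf, smul_mul_assoc, mul_smul_comm]
  rw [two_comm (hf.e'_mem i) (e i), smul_smul, smul_smul, ← add_smul, smul_smul]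
  congr 1
  push_cast
  field_simp

end Pool.Agent.K4H28.FV
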