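import Pool.Agent.K4H28.FV.Geo6

/-!
# All classes generated by classes of degree two
-/

set_option autoImplicit false
set_option linter.unusedSectionVars false

open CategoryTheory AlgebraicGeometry

universe u v

namespace Pool.Agent.K4H28.FV

open Pool.Agent.H914 VarClass Obj WeilCohomology MvPolynomial ComplexConjugate

theorem interp {K : Type*} [Field K] (Λ : Finset K) (μ₀ : K) :
    ∃ h : Polynomial K, h.eval μ₀ = 1 ∧ ∀ μ ∈ Λ, μ ≠ μ₀ → h.eval μ = 0 := by
  classical
  refine ⟨∏ μ ∈ Λ.erase μ₀, (Polynomial.C (μ₀ - μ)⁻¹ * (Polynomial.X - Polynomial.C μ)), ?_, ?_⟩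
  · rw [Polynomial.eval_prod]
    apply Finset.prod_eq_one
    intro μ hμ
    rw [Polynomial.eval_mul, Polynomial.eval_C, Polynomial.eval_sub, Polynomial.eval_X,
      Polynomial.eval_C, inv_mul_cancel₀ (sub_ne_zero.2 (Finset.ne_of_mem_erase hμ).symm)]
  · intro μ hμ hne
    rw [Polynomial.eval_prod]
    apply Finset.prod_eq_zero (Finset.mem_erase.2 ⟨hne, hμ⟩)
    rw [Polynomial.eval_mul, Polynomial.eval_C, Polynomial.eval_sub, Polynomial.eval_X,
      Polynomial.eval_C, sub_self, mul_zero]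

variable {N m : ℕ} {k : Type u} [Field k] {𝒱 : VarClass k} {ops : CycleOps 𝒱}
  {W : WeilCohomology.{u, v} ops} {X : 𝒱.Obj} {D : X.Cycles}
  {n : ℕ} {δ : ℚ} {β : LinearMap.BilinForm W.K (W.H X)} {f : X ⟶ X} {q : ℕ} {ξ : W.H X}
  {z : Fin N → W.H X} {w : Fin N → ℚ} {e e' : Fin m → W.H X} {α α' : Fin m → W.K}
  {L : Type*} [Field L] [CharZero L] [Algebra L W.K]

/-- The class of the quadratic polynomial. -/
theorem psi_Ug {Φ : MvPolynomial (Ix N m) W.K →ₐ[W.K] W.H X}
    (hΦ : ∀ a, Φ (MvPolynomial.X a) = Zf ξ z e e' a) (he : ∀ i, e i ∈ W.gr X 2)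
    {a a' : Fin m → L} (ha : ∀ i, algebraMap L W.K (a i) = α i)
    (ha' : ∀ i, algebraMap L W.K (a' i) = α' i) (g : Polynomial ℚ) :
    psi Φ (Ug a a' g : MvPolynomial (Ix N m) L) =
      ∑ i, (Polynomial.aeval (α i) g + Polynomial.aeval (α' i) g) • (e i * e' i) := by
  rw [psi, Ug, map_sum, map_sum]
  refine Finset.sum_congr rfl fun i _ => ?_
  rw [map_mul, map_mul, map_C, map_add, hom_aeval, hom_aeval, ha, ha', ← algebraMap_eq,
    AlgHom.commutes, ← Algebra.smul_def]
  congr 1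
  rw [uu]
  simp only [map_mul, map_sub, map_pow, map_C, map_X, hΦ, map_div₀, map_one, map_ofNat]
  simp only [Zf]
  rw [← algebraMap_eq, AlgHom.commutes, ← Algebra.smul_def]
  have h1 : (e i + e' i) ^ 2 - (e i - e' i) ^ 2 = (4 : W.K) • (e i * e' i) := by
    have h2 := two_comm (he i) (e' i)
    rw [pow_two, pow_two, add_mul, mul_add, mul_add, sub_mul, mul_sub, mul_sub, ← h2]
    have h3 : (4 : W.K) • (e i * e' i) = e i * e' i + e i * e' i + (e i * e' i + e i * e' i) := by
      rw [show (4 : W.K) = 1 + 1 + (1 + 1) by norm_num, add_smul, add_smul, one_smul]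
    rw [h3]
    abel
  rw [h1, smul_smul]
  norm_num

/-- The product of two dual eigenvectors is a combination of the algebraic classes. -/
theorem Sp_ee {Φ : MvPolynomial (Ix N m) W.K →ₐ[W.K] W.H X}
    (hΦ : ∀ a, Φ (MvPolynomial.X a) = Zf ξ z e e' a) (he : ∀ i, e i ∈ W.gr X 2)
    {a a' : Fin m → L} (ha : ∀ i, algebraMap L W.K (a i) = α i)
    (ha' : ∀ i, algebraMap L W.K (a' i) = α' i) (h1 : ∀ i j, i ≠ j → α i ≠ α j)
    (h2 : ∀ i j, α' i ≠ α j) (i : Fin m) :
    Sp Φ (Set.range (Ug a a' : Polynomial ℚ → MvPolynomial (Ix N m) L)) 2 (e i * e' i) := by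
  classical
  have key : ∀ h : Polynomial W.K, Sp Φ (Set.range (Ug a a' : Polynomial ℚ →
      MvPolynomial (Ix N m) L)) 2 (∑ l, (h.eval (α l) + h.eval (α' l)) • (e l * e' l)) := by
    intro h
    induction h using Polynomial.induction_on' with
    | add p r hp hr =>
      have h3 : ∑ l, ((p + r).eval (α l) + (p + r).eval (α' l)) • (e l * e' l) =
          ∑ l, (p.eval (α l) + p.eval (α' l)) • (e l * e' l) +
            ∑ l, (r.eval (α l) + r.eval (α' l)) • (e l * e' l) := by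
        rw [← Finset.sum_add_distrib]
        refine Finset.sum_congr rfl fun l _ => ?_
        rw [Polynomial.eval_add, Polynomial.eval_add, ← add_smul]
        congr 1
        ring
      rw [h3]
      exact Submodule.add_mem _ hp hr
    | monomial d c =>
      have h3 : ∑ l, ((Polynomial.monomial d c).eval (α l) +
          (Polynomial.monomial d c).eval (α' l)) • (e l * e' l) =
          c • psi Φ (Ug a a' (Polynomial.X ^ d) : MvPolynomial (Ix N m) L) := by
        rw [psi_Ug hΦ he ha ha', Finset.smul_sum]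
        refine Finset.sum_congr rfl fun l _ => ?_
        rw [smul_smul, Polynomial.eval_monomial, Polynomial.eval_monomial, map_pow, map_pow,
          Polynomial.aeval_X, Polynomial.aeval_X, mul_add]
      rw [h3]
      refine Submodule.smul_mem _ _ (Submodule.subset_span
        ⟨Ug a a' (Polynomial.X ^ d) * 1, Mon.quad ⟨_, rfl⟩ Mon.one, ?_⟩)
      rw [mul_one]
  obtain ⟨h, hh1, hh2⟩ := interp (Finset.univ.image α ∪ Finset.univ.image α') (α i)
  have h3 := key h
  have h4 : ∑ l, (h.eval (α l) + h.eval (α' l)) • (e l * e' l) = e i * e' i := by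
    rw [Finset.sum_eq_single i]
    · rw [hh1, hh2 (α' i) (by simp) (h2 i i), add_zero, one_smul]
    · intro l _ hl
      rw [hh2 (α l) (by simp) (h1 l i hl), hh2 (α' l) (by simp) (h2 l i), add_zero, zero_smul]
    · intro h
      exact absurd (Finset.mem_univ i) h
  rwa [h4] at h3

/-- The eigenvalue of a monomial. -/
theorem map_mono {Ψ : MvPolynomial (Ix N m) W.K →ₐ[W.K] W.H X} {E : Ix N m → W.H X}
    (hΨ : ∀ a, Ψ (MvPolynomial.X a) = E a) {lam : Ix N m → W.K}
    (hE : ∀ a, W.map f (E a) = lam a • E a) (γ : Ix N m →₀ ℕ) :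
    W.map f (Ψ (monomial γ 1)) = (∏ a, lam a ^ γ a) • Ψ (monomial γ 1) := by
  have h1 : (W.map f).comp Ψ = Ψ.comp (aeval fun a => C (lam a) * MvPolynomial.X a) := by
    apply MvPolynomial.algHom_ext
    intro a
    rw [AlgHom.comp_apply, AlgHom.comp_apply, aeval_X, hΨ, hE, ← smul_eq_C_mul, map_smul, hΨ]
  have h2 := AlgHom.congr_fun h1 (monomial γ 1)
  rw [AlgHom.comp_apply, AlgHom.comp_apply] at h2
  rw [h2, mono_one, map_prod, ← map_smul]
  congr 1
  simp only [map_pow, aeval_X, mul_pow, Finset.prod_mul_distrib]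
  rw [smul_eq_C_mul, map_prod]
  simp only [map_pow]

/-- The independence. -/
theorem balanced (hs : IsSpectrum W X f q n e e' α) (hq : 1 ≤ q) (hα : ∀ i, α i ≠ 0) {M : ℕ}
    (hM : 1 ≤ M) {γ : Ix N m →₀ ℕ} {j : ℕ} (hj : ∑ a, γ a = j) (hjn : j ≤ n)
    (hγ : (∏ a, lamf (q : W.K) α a ^ γ a) ^ M = (q : W.K) ^ (M * j)) (i : Fin m) :
    γ (ip i) = γ (im i) := by
  have hq0 : (q : W.K) ≠ 0 := Nat.cast_ne_zero.2 (by omega)
  rw [Fintype.sum_option, Fintype.sum_sum_type, Fintype.sum_sum_type] at hj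
  have h1 := hs.indep M hM (fun i => (γ (ip i) : ℤ) - γ (im i)) (by
    have h2 : ∑ i, |(γ (ip i) : ℤ) - γ (im i)| ≤ ∑ i, ((γ (ip i) : ℤ) + γ (im i)) := by
      refine Finset.sum_le_sum fun i _ => ?_
      rw [abs_le]
      constructor <;> omega
    rw [Finset.sum_add_distrib] at h2
    have h3 : (∑ i, (γ (ip i) : ℤ)) + ∑ i, (γ (im i) : ℤ) ≤ j := by
      rw [← hj]
      push_cast
      have h4 : (0 : ℤ) ≤ γ none := by positivity
      have h5 : (0 : ℤ) ≤ ∑ x, (γ (some (Sum.inl x)) : ℤ) :=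
        Finset.sum_nonneg fun _ _ => by positivity
      linarith
    have h6 : (j : ℤ) ≤ n := by exact_mod_cast hjn
    linarith) (by
    have h2 : ∀ i, (α i / (q : W.K)) ^ ((M : ℤ) * ((γ (ip i) : ℤ) - γ (im i))) =
        (α i ^ γ (ip i) * ((q : W.K) ^ 2 / α i) ^ γ (im i) *
          ((q : W.K) ^ (γ (ip i) + γ (im i)))⁻¹) ^ M := by
      intro i
      have hαi := hα i
      rw [mul_comm (M : ℤ), zpow_mul, zpow_natCast, zpow_sub₀ (div_ne_zero hαi hq0),
        zpow_natCast, zpow_natCast]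
      congr 1
      rw [div_pow, div_pow, div_pow, pow_add]
      field_simp
      ring
    simp only [h2]
    rw [Finset.prod_pow, Finset.prod_mul_distrib, Finset.prod_mul_distrib, Finset.prod_inv_distrib,
      Finset.prod_pow_eq_pow_sum]
    rw [Fintype.prod_option, Fintype.prod_sum_type, Fintype.prod_sum_type] at hγ
    simp only [lamf] at hγ
    rw [Finset.prod_pow_eq_pow_sum] at hγ
    obtain ⟨A, hA⟩ : ∃ A, A = (∏ i, α i ^ γ (ip i)) * ∏ i, ((q : W.K) ^ 2 / α i) ^ γ (im i) :=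
      ⟨_, rfl⟩
    obtain ⟨s, hs'⟩ : ∃ s, s = γ none + ∑ i, γ (some (Sum.inl i)) := ⟨_, rfl⟩
    rw [← hA] at hγ ⊢
    have h3 : (∑ i, (γ (ip i) + γ (im i))) + s = j := by
      rw [Finset.sum_add_distrib, ← hj, hs']
      ring
    have h4 : ((q : W.K) ^ s * A) ^ M = (q : W.K) ^ (M * j) := by
      rw [← hγ, hs', pow_add]
      congr 1
      ring
    rw [← h3, mul_add, pow_add, mul_pow, ← pow_mul, mul_comm s M, mul_comm] at h4
    have h5 := mul_right_cancel₀ (pow_ne_zero _ hq0) h4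
    rw [mul_pow, h5, inv_pow, ← pow_mul, mul_comm M, mul_inv_cancel₀ (pow_ne_zero _ hq0)])
  have h7 := congrFun h1 i
  simp only [Pi.zero_apply] at h7
  omega

end Pool.Agent.K4H28.FV
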