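import Pool.Agent.K4H28.FV.Geo7

/-!
# The Hodge type conjecture for classes generated by classes of degree two
-/

set_option autoImplicit false
set_option linter.unusedSectionVars false

open CategoryTheory AlgebraicGeometry

universe u v

namespace Pool.Agent.K4H28.FV

open Pool.Agent.H914 VarClass Obj WeilCohomology MvPolynomial ComplexConjugate

variable {N m : ℕ} {k : Type u} [Field k] {𝒱 : VarClass k} {ops : CycleOps 𝒱}
  {W : WeilCohomology.{u, v} ops} {X : 𝒱.Obj} {D : X.Cycles}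
  {n : ℕ} {δ : ℚ} {β : LinearMap.BilinForm W.K (W.H X)} {f : X ⟶ X} {q : ℕ} {ξ : W.H X}
  {z : Fin N → W.H X} {w : Fin N → ℚ} {e e' : Fin m → W.H X} {α : Fin m → W.K}

/-- The eigenvalues are algebraic numbers with a given absolute value. -/
theorem eig_abs (hw : HasWeight (W.map f).toLinearMap (W.gr X 2) ((q : ℝ) ^ 2)) {v : W.H X}
    (hv : v ∈ W.gr X 2) (hv0 : v ≠ 0) {μ : W.K} (hμ : W.map f v = μ • v) :
    ∃ P : Polynomial ℚ, P ≠ 0 ∧ Polynomial.aeval μ P = 0 ∧
      ∀ c : ℂ, Polynomial.aeval c P = 0 → ‖c‖ ^ 2 = (q : ℝ) ^ 2 := by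
  obtain ⟨P, hP0, hP, hPc⟩ := hw
  refine ⟨P, hP0, ?_, hPc⟩
  have h1 := hP v hv
  have h2 : (W.map f).toLinearMap v = μ • v := hμ
  rw [aeval_eig h2, Polynomial.eval_map_algebraMap] at h1
  exact (smul_eq_zero.1 h1).resolve_right hv0

theorem eig_ne (hq : 1 ≤ q) {μ : W.K} (h : ∃ P : Polynomial ℚ, P ≠ 0 ∧ Polynomial.aeval μ P = 0 ∧
      ∀ c : ℂ, Polynomial.aeval c P = 0 → ‖c‖ ^ 2 = (q : ℝ) ^ 2) : μ ≠ 0 := by
  rintro rfl
  obtain ⟨P, -, h1, h2⟩ := h
  have h3 : P.coeff 0 = 0 := by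
    rw [Polynomial.aeval_def, Polynomial.eval₂_at_zero] at h1
    exact (map_eq_zero_iff _ (algebraMap ℚ W.K).injective).1 h1
  have h4 : Polynomial.aeval (0 : ℂ) P = 0 := by
    rw [Polynomial.aeval_def, Polynomial.eval₂_at_zero, h3, map_zero]
  have h5 := h2 0 h4
  rw [norm_zero, zero_pow two_ne_zero] at h5
  have h6 : (0 : ℝ) < (q : ℝ) ^ 2 := by
    have : (0 : ℝ) < q := by exact_mod_cast hq
    positivity
  exact h6.ne h5

/-- An invariant class is a combination of balanced monomials. -/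
theorem cut (hs : IsSpectrum W X f q n e e' α) (hq : 1 ≤ q) (hα : ∀ i, α i ≠ 0)
    {Ψ : MvPolynomial (Ix N m) W.K →ₐ[W.K] W.H X} {E : Ix N m → W.H X}
    (hΨ : ∀ a, Ψ (MvPolynomial.X a) = E a)
    (hE : ∀ a, W.map f (E a) = lamf (q : W.K) α a • E a) {M j : ℕ} (hM : 1 ≤ M) (hjn : j ≤ n)
    {P : MvPolynomial (Ix N m) W.K} (hP : P.IsHomogeneous j)
    (hx : ((W.map f).toLinearMap ^ M) (Ψ P) = (q : W.K) ^ (M * j) • Ψ P) :
    ∃ c : (Ix N m →₀ ℕ) → W.K, Ψ P = Ψ (∑ γ ∈ P.support, c γ • monomial γ 1) ∧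
      ∀ γ ∈ P.support, c γ ≠ 0 → ∀ i, γ (ip i) = γ (im i) := by
  classical
  set lam : (Ix N m →₀ ℕ) → W.K := fun γ => (∏ a, lamf (q : W.K) α a ^ γ a) ^ M with hlam
  obtain ⟨h, hh1, hh2⟩ := interp (P.support.image lam) ((q : W.K) ^ (M * j))
  have hmono : ∀ γ, ((W.map f).toLinearMap ^ M) (Ψ (monomial γ 1)) =
      lam γ • Ψ (monomial γ 1) := by
    intro γ
    have h1 := map_mono hΨ hE γ
    have h2 : ∀ i, ((W.map f).toLinearMap ^ i) (Ψ (monomial γ 1)) =
        (∏ a, lamf (q : W.K) α a ^ γ a) ^ i • Ψ (monomial γ 1) := by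
      intro i
      induction i with
      | zero => rw [pow_zero, pow_zero, one_smul, Module.End.one_apply]
      | succ i ih =>
        rw [pow_succ', Module.End.mul_apply, ih, map_smul, pow_succ, mul_smul]
        congr 1
    exact h2 M
  refine ⟨fun γ => P.coeff γ * h.eval (lam γ), ?_, ?_⟩
  · have h3 : (Polynomial.aeval ((W.map f).toLinearMap ^ M) h) (Ψ P) = Ψ P := by
      rw [aeval_eig hx, hh1, one_smul]
    rw [← h3]
    conv_lhs => rw [P.as_sum]
    rw [map_sum, map_sum, map_sum]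
    refine Finset.sum_congr rfl fun γ _ => ?_
    have h4 : monomial γ (coeff γ P) = coeff γ P • monomial γ (1 : W.K) := by
      rw [smul_monomial, smul_eq_mul, mul_one]
    rw [h4, map_smul, map_smul, aeval_eig (hmono γ), map_smul, smul_smul]
  · intro γ hγ hc i
    have h5 : h.eval (lam γ) ≠ 0 := fun h0 => hc (by
      change coeff γ P * h.eval (lam γ) = 0
      rw [h0, mul_zero])
    have h6 : lam γ = (q : W.K) ^ (M * j) := by
      by_contra hne
      exact h5 (hh2 _ (Finset.mem_image_of_mem _ hγ) hne)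
    have h7 : ∑ a, γ a = j := by
      have := hP (mem_support_iff.1 hγ)
      rw [Finsupp.weight_apply, Finsupp.sum_fintype _ _ (fun i => by simp)] at this
      simpa using this
    exact balanced hs hq hα hM h7 hjn h6 i

/-- **The standard conjecture of Hodge type for all classes generated by classes of degree
two.** -/
theorem hodge_two (hn : 2 ≤ n) (hX : X.dim = 2 * n) (hD : X.IsCyc 1 D)
    (hdeg : 0 < X.V.degCycle (divPow ops D X.dim X.V.fundCycle)) (hI : HodgeIndex W X D)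
    (hF : FujikiOn W X n (W.gr X 2)) (hHL : HardLefschetz W X D) (hB : LefschetzB W X D)
    (hq : 1 ≤ q) (hfr : FrobeniusOnCycles W X f q)
    (hw : HasWeight (W.map f).toLinearMap (W.gr X 2) ((q : ℝ) ^ 2))
    (hs : IsSpectrum W X f q n e e' α) :
    Pool.Agent.W552.HodgeTypeFor W X D
      (fun x => x ∈ Algebra.adjoin W.K (W.gr X 2 : Set (W.H X))) := by
  intro j hj y hy hyS hprim hy0
  have hq0 : (q : W.K) ≠ 0 := Nat.cast_ne_zero.2 (by omega)
  obtain ⟨β, h⟩ := exists_nf (by omega) hX hD hdeg le_rfl (W.cl_mem (p := 1) hD) hF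
  set ξ := W.cl X D with hξ
  obtain ⟨N, z, w, z1, z2, z3, z4, z5⟩ := exists_z h hD hI fun v hv => alg_mem hv
  have habs := fun i => eig_abs hw (hs.mem i) (hs.ne_zero i) (hs.eig i)
  have hα : ∀ i, α i ≠ 0 := fun i => eig_ne hq (habs i)
  obtain ⟨o1, o2, o3, o4⟩ := spec_orth h hq hn hD hs hα
  have hb := spec_ne h hq hn hD hHL hs hα
  set e'' : Fin m → W.H X := fun i => (β (e i) (e' i))⁻¹ • e' i with he''
  have hf : Frame W X ξ (W.gr X 2) β z w e e'' :=
    { z_alg := z1
      z_mem := fun j => alg_mem (z1 j)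
      w_pos := z2
      ξz := z3
      zz := z4
      span := z5
      e_mem := hs.mem
      e'_mem := fun i => Submodule.smul_mem _ _ (hs.mem' i)
      ξe := fun i => (o1 ξ h.alg i).1
      ξe' := fun i => by rw [he'', map_smul, (o1 ξ h.alg i).2, smul_zero]
      ze := fun j i => (o1 _ (z1 j) i).1
      ze' := fun j i => by rw [he'', map_smul, (o1 _ (z1 j) i).2, smul_zero]
      ee := o2
      e'e' := fun i j => by rw [he'', bil_sml, o3, mul_zero]
      ee' := fun i j => by
        rw [he'', map_smul]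
        by_cases hij : i = j
        · subst hij
          rw [if_pos rfl, smul_eq_mul, inv_mul_cancel₀ (hb i)]
        · rw [if_neg hij, o4 i j hij, smul_zero] }
  have hEig : ∀ a : Ix N m, W.map f (Ef ξ z e e'' a) =
      lamf (q : W.K) α a • Ef ξ z e e'' a := by
    intro a
    rcases a with _ | j | i | i
    · exact hs.div D hD
    · obtain ⟨c, hc, hc'⟩ := z1 j
      simp only [Ef, lamf]
      rw [← hc']
      exact hs.div c hc
    · exact hs.eig i
    · simp only [Ef, lamf, he'']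
      rw [map_smul, hs.eig'' hα, smul_comm]
  have hspan : W.gr X 2 ≤ Submodule.span W.K (Set.range (Ef ξ z e e'' : Ix N m → W.H X)) := by
    refine hs.span.trans ?_
    rw [Submodule.span_le]
    have hE : ∀ a : Ix N m, Ef ξ z e e'' a ∈
        Submodule.span W.K (Set.range (Ef ξ z e e'' : Ix N m → W.H X)) :=
      fun a => Submodule.subset_span ⟨a, rfl⟩
    rintro x ((hx | ⟨i, rfl⟩) | ⟨i, rfl⟩)
    · obtain ⟨a, r, rfl⟩ := z5 x hx
      exact Submodule.add_mem _ (Submodule.smul_mem _ _ (hE none))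
        (Submodule.sum_mem _ fun i _ => Submodule.smul_mem _ _ (hE (iz i)))
    · exact hE (ip i)
    · have h1 : e' i = (β (e i) (e' i)) • e'' i := by
        rw [he'', smul_smul, mul_inv_cancel₀ (hb i), one_smul]
      rw [h1]
      exact Submodule.smul_mem _ _ (hE (im i))
  obtain ⟨⟨Φ, hΦ⟩, Ψ, hΨ⟩ := exists_Phi (N := N) (m := m) (z := z) (e := e) (e' := e'')
    h.mem (fun j => alg_mem (z1 j)) hs.mem hf.e'_mem
  -- the field of algebraic numbers
  set L := algebraicClosure ℚ W.K with hL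
  have hαL : ∀ i, α i ∈ L := fun i => by
    obtain ⟨P, hP0, hP, -⟩ := habs i
    exact mem_algebraicClosure_iff.2 ⟨P, hP0, hP⟩
  set a : Fin m → L := fun i => ⟨α i, hαL i⟩ with ha
  set a' : Fin m → L := fun i => (q : L) ^ 2 / a i with ha'
  have hA : ∀ i, algebraMap L W.K (a i) = α i := fun i => rfl
  have hA' : ∀ i, algebraMap L W.K (a' i) = (q : W.K) ^ 2 / α i := fun i => by
    rw [ha', map_div₀, map_pow, map_natCast, hA]
  set ι : L →+* ℂ := (IsAlgClosed.lift : L →ₐ[ℚ] ℂ).toRingHom with hι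
  have hconj : ∀ i, conj (ι (a i)) = ι (a' i) := by
    intro i
    obtain ⟨P, hP0, hP, hPc⟩ := habs i
    have h1 : Polynomial.aeval (a i) P = 0 := by
      apply (algebraMap L W.K).injective
      rw [hom_aeval, hA, hP, map_zero]
    have h2 : Polynomial.aeval (ι (a i)) P = 0 := by
      rw [← hom_aeval, h1, map_zero]
    have h3 := hPc _ h2
    have h4 : conj (ι (a i)) * ι (a i) = (q : ℂ) ^ 2 := by
      rw [Complex.conj_mul']
      exact_mod_cast h3
    have h5 : ι (a i) ≠ 0 := by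
      intro h0
      rw [h0, mul_zero] at h4
      have : (q : ℂ) ≠ 0 := Nat.cast_ne_zero.2 (by omega)
      exact pow_ne_zero 2 this h4.symm
    rw [ha', map_div₀, map_pow, map_natCast, ← h4, mul_div_assoc, div_self h5, mul_one]
  have hUg : ∀ g, psi Φ (Ug a a' g : MvPolynomial (Ix N m) L) ∈ algClasses W X 2 := by
    intro g
    rw [psi_Ug hΦ hs.mem hA hA']
    exact Ug_alg h hD hHL hB hf hEig hspan g
  have hee := Sp_ee (N := N) hΦ hs.mem hA hA' (fun i j hij => hs.inj hn hq hα hij) (fun i j h0 => by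
    apply hs.ne2 hn hq i j
    rw [← h0, mul_div_assoc', mul_div_assoc, mul_comm, div_mul_cancel₀ _ (hα i)])
  obtain ⟨P, hP, hPy⟩ := exists_poly (Φ := Ψ) (i := j) (fun a => by
      rw [hΨ]
      exact Ef_mem h.mem hf.z_mem hf.e_mem hf.e'_mem a) (G := (W.gr X 2 : Set (W.H X)))
    (fun g hg => by
      have h1 : (fun a => Ψ (MvPolynomial.X a)) = Ef ξ z e e'' := funext hΨ
      rw [h1]
      exact hspan hg) hyS (W.cl_mem hy)
  obtain ⟨M, hM, hMy⟩ := hfr j y hy
  rw [cl_pull_iter, ← hPy] at hMy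
  have hjn : j ≤ n := by omega
  obtain ⟨c, hc, hc'⟩ := cut hs hq hα hΨ hEig hM hjn hP hMy
  refine hf.hr (L := L) h hD rfl hΦ (ι := ι) hconj hUg hj hy ?_ hprim hy0
  rw [← hPy, hc]
  refine bal_poly hΦ hΨ hee (fun γ hγ => ?_) hc'
  have := hP (mem_support_iff.1 hγ)
  rw [Finsupp.weight_apply, Finsupp.sum_fintype _ _ (fun i => by simp)] at this
  simpa using this

end Pool.Agent.K4H28.FV
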