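import Pool.Agent.K4H28.FV.Defs

/-!
# Varieties with a Fujiki relation: the statement
-/

set_option autoImplicit false

open CategoryTheory AlgebraicGeometry

universe u v

namespace Pool.Agent.K4H28.FV

section Alg

variable {K : Type*} [Field K] {V : Type*} [AddCommGroup V] [Module K V] {A : Type*} [Ring A]
  [Algebra K A]

/-- The Fujiki relation of degree `n` on the subspace `S` of the algebra `A`: there are a constant
`c` and a symmetric bilinear form `β` with `tr (z ^ (2 n)) = c β(z, z) ^ n` for all `z` in
`S`. -/
def Fujiki (tr : A →ₗ[K] K) (n : ℕ) (S : Submodule K A) : Prop :=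
  ∃ (β : LinearMap.BilinForm K A) (c : K), (∀ x y, β x y = β y x) ∧
    ∀ z ∈ S, tr (z ^ (2 * n)) = c * β z z ^ n

/-- The elements `γ i` of the field `K` are independent up to the length `n`: there is no relation
`∏ i, γ i ^ (M a i) = 1` with `M ≥ 1` and integers `a i`, not all equal to zero, with
`∑ i, |a i| ≤ n`. -/
def Indep (n : ℕ) {m : ℕ} (γ : Fin m → K) : Prop :=
  ∀ M : ℕ, 1 ≤ M → ∀ a : Fin m → ℤ, ∑ i, |a i| ≤ n → ∏ i, γ i ^ (M * a i) = 1 → a = 0

/-- The space `G` with the endomorphism `F` is spanned by the vectors in `C`, on which `F` is the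
multiplication by `q`, and by the eigenvectors `e i`, `e' i` of `F` for the eigenvalues `α i`,
`q ^ 2 / α i`; the `α i / q` are independent up to the length `n`. -/
structure Spectral (F : Module.End K V) (G : Submodule K V) (C : Set V) (q : K) (n : ℕ) {m : ℕ}
    (e e' : Fin m → V) (α : Fin m → K) : Prop where
  mem : ∀ i, e i ∈ G ∧ e' i ∈ G
  span : G ≤ Submodule.span K (C ∪ Set.range e ∪ Set.range e')
  fixed : ∀ z ∈ C, F z = q • z
  ne_zero : ∀ i, e i ≠ 0
  eig : ∀ i, F (e i) = α i • e i
  eig' : ∀ i, α i • F (e' i) = q ^ 2 • e' i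
  indep : Indep n fun i => α i / q

end Alg

open Pool.Agent.H914 VarClass Obj WeilCohomology

variable {k : Type u} [Field k] {𝒱 : VarClass k} {ops : CycleOps 𝒱}

/-- The space of classes spanned by the classes of all divisors on `X` and by `e i`, `e' i`. -/
noncomputable def spanDiv (W : WeilCohomology.{u, v} ops) (X : 𝒱.Obj) {m : ℕ}
    (e e' : Fin m → W.H X) : Submodule W.K (W.H X) :=
  Submodule.span W.K (algClasses W X 1 ∪ Set.range e ∪ Set.range e')

/-- The variety `X` of dimension `2 n > 0` has the divisor `D` with `deg (D ^ (2 n)) > 0`, the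
Hodge index theorem holds for it, and the Fujiki relation `tr (z ^ (2 n)) = c β(z, z) ^ n` holds
on the space `S` of classes of degree `2`. -/
structure FujikiVariety (W : WeilCohomology.{u, v} ops) (X : 𝒱.Obj) (D : X.Cycles) (n : ℕ)
    (S : Submodule W.K (W.H X)) : Prop where
  pos : 1 ≤ n
  dim : X.dim = 2 * n
  div : X.IsCyc 1 D
  degree : 0 < X.V.degCycle (divPow ops D X.dim X.V.fundCycle)
  index : HodgeIndex W X D
  fujiki : Fujiki (W.tr X) n S

/-- The divisor `D` on the variety `X` satisfies hard Lefschetz and the Lefschetz standard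
conjecture, the endomorphism `f` acts on the algebraic classes as a Frobenius endomorphism over a
field with `q` elements, its eigenvalues on `H ^ 2(X)` have the complex absolute value `q`, and
`H ^ 2(X)` is spanned by the classes of the divisors, on which `f` is the multiplication by `q`,
and by the eigenvectors `e i`, `e' i` of `f` for the eigenvalues `α i`, `q ^ 2 / α i`, where
the `α i / q` are independent up to the length `n ≥ 2`. -/
structure FrobeniusVariety (W : WeilCohomology.{u, v} ops) (X : 𝒱.Obj) (D : X.Cycles) (f : X ⟶ X)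
    (q n : ℕ) {m : ℕ} (e e' : Fin m → W.H X) (α : Fin m → W.K) : Prop where
  hardLef : HardLefschetz W X D
  lefB : LefschetzB W X D
  q_pos : 1 ≤ q
  two_le : 2 ≤ n
  cycles : FrobeniusOnCycles W X f q
  weight : HasWeight (W.map f).toLinearMap (W.gr X 2) ((q : ℝ) ^ 2)
  spectrum : Spectral (W.map f).toLinearMap (W.gr X 2) (algClasses W X 1) q n e e' α

/-- The standard conjecture of Hodge type for the cycles on `X` whose class lies in the algebra
generated by the space `S` of classes. -/
def HodgeGen (W : WeilCohomology.{u, v} ops) (X : 𝒱.Obj) (D : X.Cycles)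
    (S : Submodule W.K (W.H X)) : Prop :=
  Pool.Agent.W552.HodgeTypeFor W X D fun x => x ∈ Algebra.adjoin W.K (S : Set (W.H X))

end Pool.Agent.K4H28.FV
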