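import Pool.Agent.K4H28.FV.Geo8
import Pool.Agent.K4H28.FV.Stm

/-!
# The standard conjecture of Hodge type for varieties with a Fujiki relation
-/

set_option autoImplicit false

open CategoryTheory AlgebraicGeometry

universe u v

namespace Pool.Agent.K4H28.FV

open Pool.Agent.H914 VarClass Obj WeilCohomology

variable {k : Type u} [Field k] {𝒱 : VarClass k} {ops : CycleOps 𝒱}
  {W : WeilCohomology.{u, v} ops} {X : 𝒱.Obj} {D : X.Cycles} {n m : ℕ}

theorem Spectral.isSpectrum {e e' : Fin m → W.H X} {f : X ⟶ X} {q : ℕ} {α : Fin m → W.K}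
    (h : Spectral (W.map f).toLinearMap (W.gr X 2) (algClasses W X 1) q n e e' α) :
    IsSpectrum W X f q n e e' α where
  mem i := (h.mem i).1
  mem' i := (h.mem i).2
  ne_zero := h.ne_zero
  eig := h.eig
  eig' := h.eig'
  span := h.span
  div z hz := h.fixed _ ⟨z, hz, rfl⟩
  indep := h.indep

theorem main {e e' : Fin m → W.H X} (h : FujikiVariety W X D n (spanDiv W X e e'))
    (hf : 0 < m → ∃ (f : X ⟶ X) (q : ℕ) (α : Fin m → W.K), FrobeniusVariety W X D f q n e e' α) :
    HodgeGen W X D (spanDiv W X e e') := by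
  rcases Nat.eq_zero_or_pos m with rfl | hm
  · have h1 : spanDiv W X e e' = Submodule.span W.K (algClasses W X 1) := by
      rw [spanDiv, Set.range_eq_empty, Set.range_eq_empty, Set.union_empty, Set.union_empty]
    have h2 : Algebra.adjoin W.K (spanDiv W X e e' : Set (W.H X)) =
        Algebra.adjoin W.K (algClasses W X 1) := by
      rw [h1]
      exact Algebra.adjoin_span W.K
    rw [HodgeGen, h2]
    exact hodge_div h.pos h.dim h.div h.degree h.index (h1 ▸ h.fujiki)
  · obtain ⟨f, q, α, hF⟩ := hf hm
    have hs := hF.spectrum.isSpectrum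
    have h1 : spanDiv W X e e' = W.gr X 2 := by
      rw [spanDiv]
      apply le_antisymm
      · rw [Submodule.span_le]
        rintro x ((hx | ⟨i, rfl⟩) | ⟨i, rfl⟩)
        · exact alg_mem hx
        · exact hs.mem i
        · exact hs.mem' i
      · exact hs.span
    rw [h1] at h ⊢
    exact hodge_two hF.two_le h.dim h.div h.degree h.index h.fujiki hF.hardLef hF.lefB hF.q_pos
      hF.cycles hF.weight hs

end Pool.Agent.K4H28.FV
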