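import Pool.Agent.K4H28.FV.Pos
import Pool.Agent.K4H28.FV.Dsc

/-!
# Monomials in divisors and quadratic classes
-/

set_option autoImplicit false
set_option linter.unusedSectionVars false

namespace Pool.Agent.K4H28.FV

open MvPolynomial ComplexConjugate

variable {σ : Type} {L : Type*} [Field L]

/-- The products of variables from `I` and of elements of `U`, of weight `k`. -/
inductive Mon (I : Set σ) (U : Set (MvPolynomial σ L)) : ℕ → MvPolynomial σ L → Prop
  | one : Mon I U 0 1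
  | var {k F i} : i ∈ I → Mon I U k F → Mon I U (k + 1) (X i * F)
  | quad {k F u} : u ∈ U → Mon I U k F → Mon I U (k + 2) (u * F)

variable {I : Set σ} {U : Set (MvPolynomial σ L)}

theorem Mon.pow {k : ℕ} {F : MvPolynomial σ L} (h : Mon I U k F) {o : σ} (ho : o ∈ I) (m : ℕ) :
    Mon I U (k + m) (X o ^ m * F) := by
  induction m with
  | zero => rwa [pow_zero, one_mul, add_zero]
  | succ m ih =>
    rw [pow_succ', mul_assoc, ← add_assoc]
    exact Mon.var ho ih

theorem Mon.mul {k l : ℕ} {F G : MvPolynomial σ L} (h : Mon I U k F) (h' : Mon I U l G) :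
    Mon I U (k + l) (F * G) := by
  induction h with
  | one => rwa [one_mul, zero_add]
  | @var k F i hi _ ih =>
    rw [mul_assoc, show k + 1 + l = k + l + 1 by ring]
    exact Mon.var hi ih
  | @quad k F u hu _ ih =>
    rw [mul_assoc, show k + 2 + l = k + l + 2 by ring]
    exact Mon.quad hu ih

theorem Mon.hom (hU : ∀ u ∈ U, u.IsHomogeneous 2) {k : ℕ} {F : MvPolynomial σ L}
    (h : Mon I U k F) : F.IsHomogeneous k := by
  induction h with
  | one => exact isHomogeneous_one _ _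
  | @var k F i _ _ ih =>
    rw [add_comm]
    exact (isHomogeneous_X L i).mul ih
  | @quad k F u hu _ ih =>
    rw [add_comm]
    exact (hU u hu).mul ih

section Par

variable [Fintype σ] [DecidableEq σ] [CharZero L]

theorem flp_X (o i : σ) : flp o (X i : MvPolynomial σ L) = if i = o then - X i else X i := by
  rw [flp, aeval_X]

theorem Mon.par {o : σ} (ho : o ∈ I) (hU : ∀ u ∈ U, flp o u = u) {k : ℕ} {F : MvPolynomial σ L}
    (h : Mon I U k F) : flp o F = F ∨
      ∃ k' R, k = k' + 1 ∧ Mon I U k' R ∧ flp o R = R ∧ F = X o * R := by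
  induction h with
  | one => exact Or.inl (map_one _)
  | @var k F i hi hF ih =>
    by_cases hio : i = o
    · subst hio
      rcases ih with ih | ⟨k', R, rfl, hR, hfR, rfl⟩
      · exact Or.inr ⟨k, F, rfl, hF, ih, rfl⟩
      · left
        rw [map_mul, map_mul, hfR, flp_X, if_pos rfl]
        ring
    · rcases ih with ih | ⟨k', R, rfl, hR, hfR, rfl⟩
      · left
        rw [map_mul, ih, flp_X, if_neg hio]
      · right
        refine ⟨k' + 1, X i * R, rfl, Mon.var hi hR, ?_, by ring⟩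
        rw [map_mul, hfR, flp_X, if_neg hio]
  | @quad k F u hu hF ih =>
    rcases ih with ih | ⟨k', R, rfl, hR, hfR, rfl⟩
    · left
      rw [map_mul, ih, hU u hu]
    · right
      refine ⟨k' + 2, u * R, rfl, Mon.quad hu hR, ?_, by ring⟩
      rw [map_mul, hfR, hU u hu]

/-- The decomposition into even and odd parts. -/
theorem RS.par {o : σ} (ho : o ∈ I) (hU : ∀ u ∈ U, flp o u = u) {k : ℕ} {F : MvPolynomial σ L}
    (h : RS L {F | Mon I U k F} F) : ∃ F₀ R, RS L {F | Mon I U k F} F₀ ∧ flp o F₀ = F₀ ∧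
      flp o R = R ∧ F = F₀ + X o * R ∧
      (R = 0 ∨ ∃ k', k = k' + 1 ∧ RS L {F | Mon I U k' F} R) := by
  induction h with
  | zero => exact ⟨0, 0, RS.zero, map_zero _, map_zero _, by rw [mul_zero, add_zero], Or.inl rfl⟩
  | add _ _ h1 h2 =>
    obtain ⟨F₁, R₁, a1, a2, a3, a4, a5⟩ := h1
    obtain ⟨F₂, R₂, b1, b2, b3, b4, b5⟩ := h2
    refine ⟨F₁ + F₂, R₁ + R₂, a1.add b1, by rw [map_add, a2, b2], by rw [map_add, a3, b3],
      by rw [a4, b4]; ring, ?_⟩
    rcases a5 with rfl | ⟨k', rfl, a5⟩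
    · rw [zero_add]; exact b5
    · right
      refine ⟨k', rfl, ?_⟩
      rcases b5 with rfl | ⟨k'', hk, b5⟩
      · rw [add_zero]; exact a5
      · obtain rfl : k' = k'' := by omega
        exact a5.add b5
  | @smul r s hs =>
    rcases Mon.par ho hU hs with h | ⟨k', R, hk, hR, hfR, hF⟩
    · exact ⟨(r : L) • s, 0, RS.smul r hs, by rw [map_smul, h], map_zero _,
        by rw [mul_zero, add_zero], Or.inl rfl⟩
    · exact ⟨0, (r : L) • R, RS.zero, map_zero _, by rw [map_smul, hfR],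
        by rw [hF, zero_add, mul_smul_comm], Or.inr ⟨k', hk, RS.smul r hR⟩⟩

theorem RS.hom (hU : ∀ u ∈ U, u.IsHomogeneous 2) {k : ℕ} {F : MvPolynomial σ L}
    (h : RS L {F | Mon I U k F} F) : F.IsHomogeneous k := by
  induction h with
  | zero => exact isHomogeneous_zero _ _ _
  | add _ _ h1 h2 => exact h1.add h2
  | smul r hs =>
    rw [smul_eq_C_mul]
    have := (isHomogeneous_C _ (r : L)).mul (Mon.hom hU hs)
    rwa [zero_add] at this

end Par

section Real

variable [Fintype σ] [DecidableEq σ] [CharZero L] {κ : σ → ℂ} {o : σ} {ι : L →+* ℂ}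

/-- The conditions on the substitution. -/
structure Sub (κ : σ → ℂ) (o : σ) (ι : L →+* ℂ) (I : Set σ) (U : Set (MvPolynomial σ L)) :
    Prop where
  mem : o ∈ I
  conj_o : conj (κ o) = κ o
  conj_i : ∀ i ∈ I, i ≠ o → conj (κ i) = - κ i
  hom : ∀ u ∈ U, u.IsHomogeneous 2
  flip : ∀ u ∈ U, flp o u = u
  real : ∀ u ∈ U, ∀ x : σ → ℝ, conj (eval (fun i => κ i * (x i : ℂ)) (map ι u)) =
    eval (fun i => κ i * (x i : ℂ)) (map ι u)

theorem Mon.good (hs : Sub κ o ι I U) {k : ℕ} {F : MvPolynomial σ L} (h : Mon I U k F) :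
    Good κ o k (map ι F) := by
  induction h with
  | one =>
    intro x
    simp
  | @var k F i hi hF ih =>
    intro x
    have h1 := ih x
    rw [map_mul, map_mul, map_mul, h1, map_X, eval_X, map_mul, Complex.conj_ofReal, map_mul,
      map_mul, flp_X]
    by_cases hio : i = o
    · subst hio
      rw [if_pos rfl, map_neg, eval_X, hs.conj_o]
      ring
    · rw [if_neg hio, eval_X, hs.conj_i i hi hio]
      ring
  | @quad k F u hu hF ih =>
    intro x
    have h1 := ih x
    rw [map_mul, map_mul, map_mul, h1, hs.real u hu, map_mul, map_mul, ← map_flp ι o u,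
      hs.flip u hu]
    ring

theorem RS.good (hs : Sub κ o ι I U) {k : ℕ} {F : MvPolynomial σ L}
    (h : RS L {F | Mon I U k F} F) : Good κ o k (map ι F) := by
  induction h with
  | zero =>
    intro x
    simp
  | add _ _ h1 h2 =>
    intro x
    rw [map_add, map_add, map_add, h1 x, h2 x, map_add, map_add]
    ring
  | @smul r s hs' =>
    intro x
    have h1 := Mon.good hs hs' x
    rw [smul_eq_C_mul, map_mul, map_C, map_ratCast, map_mul, map_mul, h1, eval_C, map_mul, map_mul]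
    have h2 : flp o (C (r : ℂ) : MvPolynomial σ ℂ) = C (r : ℂ) := AlgHom.commutes _ _
    rw [h2, eval_C, map_ratCast]
    ring

variable {n : ℕ} {c : ℚ} {q : σ → ℚ}

/-- Extension of the vanishing to rational combinations. -/
theorem wL_RS {k : ℕ} {H : MvPolynomial σ L}
    (h : ∀ R, Mon I U k R → wL n c q L (H * R) = 0) {R : MvPolynomial σ L}
    (hR : RS L {F | Mon I U k F} R) : wL n c q L (H * R) = 0 := by
  induction hR with
  | zero => rw [mul_zero, map_zero]
  | add _ _ h1 h2 => rw [mul_add, map_add, h1, h2, add_zero]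
  | smul r hs => rw [mul_smul_comm, map_smul, h _ hs, smul_zero]

theorem even_zero (hc : 0 < c) (hκ : ∀ i, κ i ^ 2 = (q i : ℂ)) (hκ0 : ∀ i, κ i ≠ 0)
    (hs : Sub κ o ι I U) {k m : ℕ} (hkm : k + m = n) {F : MvPolynomial σ L}
    (hF : RS L {F | Mon I U k F} F) (he : flp o F = F)
    (h0 : wL n c q L (F ^ 2 * X o ^ (2 * m)) = 0) : F = 0 := by
  by_contra hne
  have h1 := (pos_even hc hκ hκ0 o hs.conj_o ι hkm (hF.hom hs.hom) (hF.good hs) he hne).1
  rw [h0, map_zero, mul_zero, Complex.zero_re] at h1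
  exact lt_irrefl _ h1

/-- **The Hodge–Riemann relations.** -/
theorem hr_poly (hc : 0 < c) (hκ : ∀ i, κ i ^ 2 = (q i : ℂ)) (hκ0 : ∀ i, κ i ≠ 0)
    (hs : Sub κ o ι I U) {k m : ℕ} (hkm : k + m = n) {F : MvPolynomial σ L}
    (hF : RS L {F | Mon I U k F} F) (hF0 : F ≠ 0)
    (hprim : ∀ k' R, k = k' + 1 → Mon I U k' R →
      wL n c q L (F * X o ^ (2 * m + 1) * R) = 0) :
    0 < ((-1) ^ k * ι (wL n c q L (F ^ 2 * X o ^ (2 * m)))).re := by
  obtain ⟨F₀, R, hF₀, he, heR, hFR, hR⟩ := RS.par hs.mem hs.flip hF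
  have hR0 : R = 0 := by
    rcases hR with hR | ⟨k', rfl, hR⟩
    · exact hR
    · have h1 := wL_RS (hprim k' · rfl) hR
      have h2 : F * X o ^ (2 * m + 1) * R = F₀ * X o ^ (2 * m + 1) * R +
          R ^ 2 * X o ^ (2 * (m + 1)) := by rw [hFR]; ring
      have h3 : wL n c q L (F₀ * X o ^ (2 * m + 1) * R) = 0 := by
        apply wL_odd (o := o)
        rw [map_mul, map_mul, map_pow, he, heR, flp_X, if_pos rfl, Odd.neg_pow ⟨m, rfl⟩]
        ring
      rw [h2, map_add, h3, zero_add] at h1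
      exact even_zero hc hκ hκ0 hs (by omega) hR heR h1
  rw [hR0, mul_zero, add_zero] at hFR
  subst hFR
  exact (pos_even hc hκ hκ0 o hs.conj_o ι hkm (hF.hom hs.hom) (hF.good hs) he hF0).1

/-- **Nondegeneracy.** -/
theorem nd_poly (hc : 0 < c) (hκ : ∀ i, κ i ^ 2 = (q i : ℂ)) (hκ0 : ∀ i, κ i ≠ 0)
    (hs : Sub κ o ι I U) {k m : ℕ} (hkm : k + m = n) {F : MvPolynomial σ L}
    (hF : RS L {F | Mon I U k F} F)
    (h0 : ∀ R, Mon I U k R → wL n c q L (F * X o ^ (2 * m) * R) = 0) : F = 0 := by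
  obtain ⟨F₀, R, hF₀, he, heR, hFR, hR⟩ := RS.par hs.mem hs.flip hF
  have hF₀0 : F₀ = 0 := by
    have h1 := wL_RS h0 hF₀
    have h2 : F * X o ^ (2 * m) * F₀ = F₀ ^ 2 * X o ^ (2 * m) +
        X o ^ (2 * m + 1) * R * F₀ := by rw [hFR]; ring
    have h3 : wL n c q L (X o ^ (2 * m + 1) * R * F₀) = 0 := by
      apply wL_odd (o := o)
      rw [map_mul, map_mul, map_pow, he, heR, flp_X, if_pos rfl, Odd.neg_pow ⟨m, rfl⟩]
      ring
    rw [h2, map_add, h3, add_zero] at h1
    exact even_zero hc hκ hκ0 hs hkm hF₀ he h1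
  rw [hF₀0, zero_add] at hFR
  rcases hR with hR | ⟨k', rfl, hR⟩
  · rw [hFR, hR, mul_zero]
  · have hXR : RS L {F | Mon I U (k' + 1) F} (X o * R) := by
      rw [← hFR]; exact hF
    have h1 := wL_RS h0 hXR
    have h2 : F * X o ^ (2 * m) * (X o * R) = R ^ 2 * X o ^ (2 * (m + 1)) := by rw [hFR]; ring
    rw [h2] at h1
    rw [hFR, even_zero hc hκ hκ0 hs (by omega) hR heR h1, mul_zero]

end Real

end Pool.Agent.K4H28.FV
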