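import Pool.Agent.K4H28.FV.Wick

/-!
# Positivity of the functional of a Fujiki relation
-/

set_option autoImplicit false
set_option linter.unusedSectionVars false

namespace Pool.Agent.K4H28.FV

open MvPolynomial ComplexConjugate

variable {σ : Type} [Fintype σ] [DecidableEq σ]

section WL

variable (n : ℕ) (c : ℚ) (q : σ → ℚ) (L : Type*) [Field L] [CharZero L]

/-- The functional with the moments of the Fujiki relation. -/
noncomputable def wL : MvPolynomial σ L →ₗ[L] L :=
  (basisMonomials σ L).constr L fun γ => (wick n c q γ : L)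

variable {n c q L}

theorem wL_mono (γ : σ →₀ ℕ) (a : L) : wL n c q L (monomial γ a) = a * (wick n c q γ : L) := by
  have h1 : monomial γ a = a • (basisMonomials σ L γ) := by
    rw [coe_basisMonomials, smul_monomial, smul_eq_mul, mul_one]
  rw [h1, map_smul, wL, Module.Basis.constr_basis, smul_eq_mul]

theorem wL_eq (F : MvPolynomial σ L) :
    wL n c q L F = ∑ γ ∈ F.support, F.coeff γ * (wick n c q γ : L) := by
  conv_lhs => rw [F.as_sum]
  rw [map_sum]
  exact Finset.sum_congr rfl fun γ _ => wL_mono γ _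

/-- The change of sign of one variable. -/
noncomputable def flp (o : σ) : MvPolynomial σ L →ₐ[L] MvPolynomial σ L :=
  aeval fun i => if i = o then - X i else X i

theorem flp_mono (o : σ) (γ : σ →₀ ℕ) (a : L) :
    flp o (monomial γ a) = (-1 : L) ^ γ o • monomial γ a := by
  rw [flp, aeval_monomial, Finsupp.prod_fintype _ _ (fun i => pow_zero _), smul_monomial,
    monomial_eq (s := γ), Finsupp.prod_fintype _ _ (fun i => pow_zero _)]
  have h1 : ∀ i, (if i = o then - X i else X i : MvPolynomial σ L) ^ γ i =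
      (if i = o then C ((-1 : L) ^ γ o) else 1) * X i ^ γ i := by
    intro i
    split_ifs with h
    · subst h
      rw [neg_pow, map_pow, map_neg, map_one]
    · rw [one_mul]
  simp only [h1, Finset.prod_mul_distrib, Finset.prod_ite_eq', Finset.mem_univ, if_true]
  rw [algebraMap_eq, smul_eq_mul, map_mul]
  ring

theorem wL_flp (o : σ) (F : MvPolynomial σ L) : wL n c q L (flp o F) = wL n c q L F := by
  conv_lhs => rw [F.as_sum]
  conv_rhs => rw [F.as_sum]
  rw [map_sum, map_sum, map_sum]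
  refine Finset.sum_congr rfl fun γ _ => ?_
  rw [flp_mono, map_smul, wL_mono, smul_eq_mul]
  rcases Nat.even_or_odd (γ o) with h | h
  · rw [h.neg_one_pow, one_mul]
  · rw [wick_odd h, Rat.cast_zero, mul_zero, mul_zero]

theorem wL_odd {o : σ} {F : MvPolynomial σ L} (h : flp o F = - F) : wL n c q L F = 0 := by
  have h1 := wL_flp (n := n) (c := c) (q := q) o F
  rw [h, map_neg] at h1
  have h2 : (2 : L) * wL n c q L F = 0 := by linear_combination - h1
  exact (mul_eq_zero.1 h2).resolve_left two_ne_zero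

end WL

/-- The functional on the classes. -/
theorem T_map {K L : Type*} [Field K] [CharZero K] [Field L] [CharZero L] [Algebra L K] {n : ℕ}
    {c : ℚ} {q : σ → ℚ} (T : MvPolynomial σ K →ₗ[K] K)
    (hT : ∀ t : σ → K, T ((∑ i, C (t i) * X i) ^ (2 * n)) = c * (∑ i, q i * t i ^ 2) ^ n)
    {F : MvPolynomial σ L} (hF : F.IsHomogeneous (2 * n)) :
    T (map (algebraMap L K) F) = algebraMap L K (wL n c q L F) := by
  rw [wL_eq, map_sum]
  conv_lhs => rw [F.as_sum]
  rw [map_sum, map_sum]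
  refine Finset.sum_congr rfl fun γ hγ => ?_
  have h1 : ∑ i, γ i = 2 * n := by
    have := hF (mem_support_iff.1 hγ)
    rw [Finsupp.weight_apply, Finsupp.sum_fintype _ _ (fun i => by simp)] at this
    simpa using this
  have h2 : (monomial γ (algebraMap L K (coeff γ F)) : MvPolynomial σ K) =
      algebraMap L K (coeff γ F) • monomial γ 1 := by
    rw [smul_monomial, smul_eq_mul, mul_one]
  rw [map_monomial, h2, map_smul, T_mono T hT h1, smul_eq_mul, map_mul, map_ratCast]

section Complex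

/-- The substitution. -/
noncomputable def kap (κ : σ → ℂ) : MvPolynomial σ ℂ →ₐ[ℂ] MvPolynomial σ ℂ :=
  aeval fun i => C (κ i) * X i

theorem ev_kap (κ : σ → ℂ) (G : MvPolynomial σ ℂ) (x : σ → ℝ) :
    ev (kap κ G) x = eval (fun i => κ i * (x i : ℂ)) G := by
  rw [ev, kap]
  have h1 : (eval fun i => (x i : ℂ)) ((aeval fun i => C (κ i) * X i) G) =
      (eval₂Hom (RingHom.id ℂ) fun i => κ i * (x i : ℂ)) G := by
    have h2 : ((eval fun i => (x i : ℂ)).comp
        ((aeval fun i => C (κ i) * X i : MvPolynomial σ ℂ →ₐ[ℂ] MvPolynomial σ ℂ) :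
          MvPolynomial σ ℂ →+* MvPolynomial σ ℂ)) =
        (eval₂Hom (RingHom.id ℂ) fun i => κ i * (x i : ℂ)) := by
      ext i <;> simp
    exact RingHom.congr_fun h2 G
  rw [h1]
  rfl

/-- The constant. -/
noncomputable def cst (σ : Type) [Fintype σ] (n : ℕ) (c : ℚ) : ℝ :=
  c * ((n.factorial : ℝ) / ((2 * n).factorial : ℝ)) * 4 ^ n / √Real.pi ^ Fintype.card σ

theorem cst_pos {n : ℕ} {c : ℚ} (hc : 0 < c) : 0 < cst σ n c := by
  rw [cst]
  have h1 : (0 : ℝ) < c := by exact_mod_cast hc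
  have h2 := Real.pi_pos
  positivity

omit [DecidableEq σ] in
theorem wick_mom {n : ℕ} {c : ℚ} {q : σ → ℚ} {κ : σ → ℂ} (hκ : ∀ i, κ i ^ 2 = (q i : ℂ))
    {γ : σ →₀ ℕ} (hγ : ∑ i, γ i = 2 * n) :
    (wick n c q γ : ℂ) = (cst σ n c : ℂ) * ((∏ i, κ i ^ γ i) * ((∏ i, mom (γ i) : ℝ) : ℂ)) := by
  have hpi : (√Real.pi : ℝ) ≠ 0 := (Real.sqrt_pos.2 Real.pi_pos).ne'
  by_cases hev : ∀ i, Even (γ i)
  · have h1 : ∀ i, κ i ^ γ i * (mom (γ i) : ℂ) =
        (√Real.pi : ℂ) * (wf (q i) (γ i) : ℂ) * (1 / 4 : ℂ) ^ (γ i / 2) := by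
      intro i
      set j := γ i / 2 with hj
      have h2 : γ i = 2 * j := (Nat.two_mul_div_two_of_even (hev i)).symm
      rw [wf, if_pos (hev i), ← hj, h2, mom_even, pow_mul, hκ]
      push_cast
      have h3 : (j.factorial : ℂ) ≠ 0 := by exact_mod_cast Nat.factorial_ne_zero j
      rw [one_div, inv_pow]
      field_simp
    have h4 : (∏ i, κ i ^ γ i) * ((∏ i, mom (γ i) : ℝ) : ℂ) =
        (√Real.pi : ℂ) ^ Fintype.card σ * (∏ i, (wf (q i) (γ i) : ℂ)) * (1 / 4 : ℂ) ^ n := by
      push_cast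
      rw [← Finset.prod_mul_distrib]
      simp only [h1, Finset.prod_mul_distrib, Finset.prod_const, Finset.card_univ]
      congr 1
      rw [Finset.prod_pow_eq_pow_sum]
      congr 1
      have h7 : ∑ i, γ i = 2 * ∑ i, γ i / 2 := by
        rw [Finset.mul_sum]
        exact Finset.sum_congr rfl fun i _ => (Nat.two_mul_div_two_of_even (hev i)).symm
      omega
    rw [h4, wick, cst]
    push_cast
    have h5 : (√Real.pi : ℂ) ≠ 0 := by exact_mod_cast hpi
    rw [one_div, inv_pow]
    field_simp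
  · push Not at hev
    obtain ⟨i, hi⟩ := hev
    rw [Nat.not_even_iff_odd] at hi
    rw [wick_odd hi, Rat.cast_zero]
    have h1 : ∏ i, mom (γ i) = 0 := Finset.prod_eq_zero (Finset.mem_univ i) (mom_odd hi)
    rw [h1]
    simp

variable {L : Type*} [Field L] [CharZero L]

/-- The functional as a Gaussian integral. -/
theorem wL_gint {n : ℕ} {c : ℚ} {q : σ → ℚ} {κ : σ → ℂ} (hκ : ∀ i, κ i ^ 2 = (q i : ℂ))
    (ι : L →+* ℂ) {F : MvPolynomial σ L} (hF : F.IsHomogeneous (2 * n)) :
    ι (wL n c q L F) = (cst σ n c : ℂ) * gint (kap κ (map ι F)) := by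
  have hsum : ∀ (s : Finset (σ →₀ ℕ)) (g : (σ →₀ ℕ) → MvPolynomial σ ℂ),
      gint (∑ γ ∈ s, g γ) = ∑ γ ∈ s, gint (g γ) := by
    intro s g
    classical
    induction s using Finset.induction_on with
    | empty =>
      have h := gint_smul (σ := σ) 0 0
      rw [zero_mul, smul_zero] at h
      rw [Finset.sum_empty, Finset.sum_empty, h]
    | insert a s ha ih => rw [Finset.sum_insert ha, Finset.sum_insert ha, gint_add, ih]
  rw [wL_eq, map_sum]
  conv_rhs => rw [F.as_sum]
  rw [map_sum, map_sum, hsum, Finset.mul_sum]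
  refine Finset.sum_congr rfl fun γ hγ => ?_
  have h1 : ∑ i, γ i = 2 * n := by
    have := hF (mem_support_iff.1 hγ)
    rw [Finsupp.weight_apply, Finsupp.sum_fintype _ _ (fun i => by simp)] at this
    simpa using this
  have h2 : kap κ (map ι (monomial γ (coeff γ F))) =
      monomial γ (ι (coeff γ F) * ∏ i, κ i ^ γ i) := by
    rw [map_monomial, kap, aeval_monomial, Finsupp.prod_fintype _ _ (fun i => pow_zero _),
      monomial_eq (s := γ), Finsupp.prod_fintype _ _ (fun i => pow_zero _), map_mul, map_prod]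
    simp only [mul_pow, Finset.prod_mul_distrib, map_pow, algebraMap_eq]
    ring
  rw [h2, gint_monomial, map_mul, map_ratCast, wick_mom hκ h1]
  ring

/-- The reality of a polynomial. -/
def Good (κ : σ → ℂ) (o : σ) (k : ℕ) (G : MvPolynomial σ ℂ) : Prop :=
  ∀ x : σ → ℝ, conj (eval (fun i => κ i * (x i : ℂ)) G) =
    (-1) ^ k * eval (fun i => κ i * (x i : ℂ)) (flp o G)

theorem map_flp (ι : L →+* ℂ) (o : σ) (F : MvPolynomial σ L) :
    map ι (flp o F) = flp o (map ι F) := by
  conv_lhs => rw [F.as_sum]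
  conv_rhs => rw [F.as_sum]
  simp only [map_sum]
  refine Finset.sum_congr rfl fun γ _ => ?_
  rw [flp_mono, map_monomial, flp_mono, smul_monomial, smul_monomial, map_monomial, smul_eq_mul,
    smul_eq_mul, map_mul, map_pow, map_neg, map_one]

/-- **Positivity.** -/
theorem pos_even {n : ℕ} {c : ℚ} (hc : 0 < c) {q : σ → ℚ} {κ : σ → ℂ}
    (hκ : ∀ i, κ i ^ 2 = (q i : ℂ)) (hκ0 : ∀ i, κ i ≠ 0) (o : σ) (ho : conj (κ o) = κ o)
    (ι : L →+* ℂ) {k m : ℕ} (hkm : k + m = n) {F : MvPolynomial σ L} (hF : F.IsHomogeneous k)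
    (hg : Good κ o k (map ι F)) (he : flp o F = F) (hF0 : F ≠ 0) :
    0 < ((-1) ^ k * ι (wL n c q L (F ^ 2 * X o ^ (2 * m)))).re ∧
      ((-1) ^ k * ι (wL n c q L (F ^ 2 * X o ^ (2 * m)))).im = 0 := by
  have hhom : (F ^ 2 * X o ^ (2 * m)).IsHomogeneous (2 * n) := by
    have h1 := (hF.pow 2).mul ((isHomogeneous_X L o).pow (2 * m))
    have h2 : k * 2 + 1 * (2 * m) = 2 * n := by rw [← hkm]; ring
    rwa [h2] at h1
  rw [wL_gint hκ ι hhom]
  set G : MvPolynomial σ ℂ := (-1 : ℂ) ^ k • kap κ (map ι (F ^ 2 * X o ^ (2 * m))) with hG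
  set H : MvPolynomial σ ℂ := kap κ (map ι (F * X o ^ m)) with hH
  have h3 : (-1 : ℂ) ^ k * ((cst σ n c : ℂ) * gint (kap κ (map ι (F ^ 2 * X o ^ (2 * m))))) =
      (cst σ n c : ℂ) * gint G := by
    rw [hG, gint_smul]; ring
  rw [h3]
  have hP : map ι (F * X o ^ m) ≠ 0 := by
    intro h
    have h4 : F * X o ^ m = 0 := map_injective ι ι.injective (by rw [h, map_zero])
    rcases mul_eq_zero.1 h4 with h5 | h5
    · exact hF0 h5
    · exact pow_ne_zero _ (X_ne_zero o) h5
  have h6 := gint_pos (G := G) (H := H) (κ := κ) (P := map ι (F * X o ^ m)) (fun x => ?_) hκ0 hP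
    (fun x => by rw [hH, ev_kap])
  · rw [Complex.re_ofReal_mul, Complex.im_ofReal_mul, h6.2, mul_zero]
    exact ⟨mul_pos (cst_pos hc) h6.1, rfl⟩
  · have h7 := hg x
    rw [← map_flp, he] at h7
    have e1 : ev G x = (-1) ^ k * (eval (fun i => κ i * (x i : ℂ)) (map ι F)) ^ 2 *
        (κ o * (x o : ℂ)) ^ (2 * m) := by
      rw [hG, ev, smul_eval]
      have := ev_kap κ (map ι (F ^ 2 * X o ^ (2 * m))) x
      rw [ev] at this
      rw [this]
      simp only [map_mul, map_pow, map_X, eval_X]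
      ring
    have e2 : ev H x = eval (fun i => κ i * (x i : ℂ)) (map ι F) * (κ o * (x o : ℂ)) ^ m := by
      rw [hH, ev_kap]
      simp only [map_mul, map_pow, map_X, eval_X]
    have e3 : conj (ev H x) = (-1) ^ k * eval (fun i => κ i * (x i : ℂ)) (map ι F) *
        (κ o * (x o : ℂ)) ^ m := by
      rw [e2, map_mul, h7, map_pow, map_mul, ho, Complex.conj_ofReal]
    rw [e1]
    have e4 : ((‖ev H x‖ ^ 2 : ℝ) : ℂ) = conj (ev H x) * ev H x := by
      rw [Complex.conj_mul']
      push_cast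
      rfl
    rw [e4, e3, e2]
    ring

end Complex

end Pool.Agent.K4H28.FV
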