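import Pool.Agent.K4H28.FV.Gau

/-!
# The functional of a Fujiki relation
-/

set_option autoImplicit false

namespace Pool.Agent.K4H28.FV

open MvPolynomial

variable {σ : Type} [Fintype σ]

section Wick

variable (n : ℕ) (c : ℚ) (q : σ → ℚ)

/-- The factor of the moment of a monomial. -/
noncomputable def wf (a : ℚ) (j : ℕ) : ℚ :=
  if Even j then (j.factorial : ℚ) / ((j / 2).factorial : ℚ) * a ^ (j / 2) else 0

/-- The moment of a monomial. -/
noncomputable def wick (γ : σ →₀ ℕ) : ℚ :=
  c * ((n.factorial : ℚ) / ((2 * n).factorial : ℚ)) * ∏ i, wf (q i) (γ i)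

variable {n c q}

theorem wick_odd {γ : σ →₀ ℕ} {i : σ} (hi : Odd (γ i)) : wick n c q γ = 0 := by
  rw [wick, Finset.prod_eq_zero (Finset.mem_univ i), mul_zero]
  rw [wf, if_neg (Nat.not_even_iff_odd.2 hi)]

end Wick

section Mono

variable {K : Type*} [Field K] [CharZero K]

/-- The moments are determined by the Fujiki relation. -/
theorem T_mono [DecidableEq σ] {n : ℕ} {c : ℚ} {q : σ → ℚ} (T : MvPolynomial σ K →ₗ[K] K)
    (hT : ∀ t : σ → K, T ((∑ i, C (t i) * X i) ^ (2 * n)) = c * (∑ i, q i * t i ^ 2) ^ n)
    {γ : σ →₀ ℕ} (hγ : ∑ i, γ i = 2 * n) : T (monomial γ 1) = (wick n c q γ : K) := by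
  classical
  -- the two polynomials
  set F : MvPolynomial σ K := ∑ k ∈ Finset.univ.piAntidiag (2 * n),
    monomial (Finsupp.equivFunOnFinite.symm k)
      ((Nat.multinomial Finset.univ k : K) * T (monomial (Finsupp.equivFunOnFinite.symm k) 1))
    with hF
  set G : MvPolynomial σ K := C (c : K) * (∑ i, C (q i : K) * X i ^ 2) ^ n with hG
  have hmon : ∀ (k : σ → ℕ) (t : σ → K), ∏ i, (C (t i) * X i : MvPolynomial σ K) ^ k i =
      monomial (Finsupp.equivFunOnFinite.symm k) (∏ i, t i ^ k i) := by
    intro k t
    rw [monomial_eq, Finsupp.prod_fintype _ _ (fun i => pow_zero _), map_prod]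
    simp only [mul_pow, Finset.prod_mul_distrib, map_pow]
    rfl
  have hFG : F = G := by
    apply MvPolynomial.funext
    intro t
    have h1 : eval t G = c * (∑ i, q i * t i ^ 2) ^ n := by
      simp only [hG, map_mul, map_pow, map_sum, eval_C, eval_X]
    rw [h1, ← hT, Finset.sum_pow_eq_sum_piAntidiag, hF, map_sum, map_sum]
    refine Finset.sum_congr rfl fun k hk => ?_
    rw [hmon]
    have h2 : (Nat.multinomial Finset.univ k : MvPolynomial σ K) *
        monomial (Finsupp.equivFunOnFinite.symm k) (∏ i, t i ^ k i) =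
        ((Nat.multinomial Finset.univ k : K) * ∏ i, t i ^ k i) •
          monomial (Finsupp.equivFunOnFinite.symm k) (1 : K) := by
      rw [smul_monomial, smul_eq_mul, mul_one, ← C_mul_monomial]
      congr 1
    rw [h2, map_smul, eval_monomial, Finsupp.prod_fintype _ _ (fun i => pow_zero _), smul_eq_mul]
    simp only [Finsupp.coe_equivFunOnFinite_symm]
    ring
  -- the coefficients
  have hγm : (γ : σ → ℕ) ∈ Finset.univ.piAntidiag (2 * n) := by
    rw [Finset.mem_piAntidiag]
    exact ⟨hγ, fun i _ => Finset.mem_univ i⟩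
  have hcF : coeff γ F = (Nat.multinomial Finset.univ γ : K) * T (monomial γ 1) := by
    rw [hF, coeff_sum, Finset.sum_eq_single (γ : σ → ℕ)]
    · have h3 : (Finsupp.equivFunOnFinite.symm (γ : σ → ℕ)) = γ :=
        Finsupp.equivFunOnFinite.symm_apply_apply γ
      rw [h3, coeff_monomial, if_pos rfl]
    · intro k _ hk
      rw [coeff_monomial, if_neg]
      intro h
      apply hk
      rw [← h]
      exact (Finsupp.coe_equivFunOnFinite_symm k).symm
    · intro h
      exact absurd hγm h
  have hcG : coeff γ G = ∑ k ∈ Finset.univ.piAntidiag n,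
      (c : K) * ((Nat.multinomial Finset.univ k : K) * ∏ i, (q i : K) ^ k i) *
        if Finsupp.equivFunOnFinite.symm (fun i => 2 * k i) = γ then 1 else 0 := by
    rw [hG, coeff_C_mul, Finset.sum_pow_eq_sum_piAntidiag, coeff_sum, Finset.mul_sum]
    refine Finset.sum_congr rfl fun k _ => ?_
    have h4 : ∏ i, (C (q i : K) * X i ^ 2 : MvPolynomial σ K) ^ k i =
        monomial (Finsupp.equivFunOnFinite.symm fun i => 2 * k i) (∏ i, (q i : K) ^ k i) := by
      rw [monomial_eq, Finsupp.prod_fintype _ _ (fun i => pow_zero _), map_prod]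
      simp only [mul_pow, Finset.prod_mul_distrib, map_pow, ← pow_mul]
      rfl
    rw [h4]
    have h5 : (Nat.multinomial Finset.univ k : MvPolynomial σ K) *
        monomial (Finsupp.equivFunOnFinite.symm fun i => 2 * k i) (∏ i, (q i : K) ^ k i) =
        monomial (Finsupp.equivFunOnFinite.symm fun i => 2 * k i)
          ((Nat.multinomial Finset.univ k : K) * ∏ i, (q i : K) ^ k i) := by
      rw [← C_mul_monomial]
      congr 1
    rw [h5, coeff_monomial]
    split_ifs <;> ring
  have h6 : (Nat.multinomial Finset.univ γ : K) * T (monomial γ 1) = coeff γ G := by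
    rw [← hcF, hFG]
  have hmul : ((∏ i, ((γ i).factorial : K)) * (Nat.multinomial Finset.univ γ : K)) =
      ((2 * n).factorial : K) := by
    have := Nat.multinomial_spec Finset.univ (γ : σ → ℕ)
    rw [hγ] at this
    exact_mod_cast this
  have hne1 : ((∏ i, ((γ i).factorial : K))) ≠ 0 :=
    Finset.prod_ne_zero_iff.2 fun i _ => Nat.cast_ne_zero.2 (Nat.factorial_ne_zero _)
  have hne2 : ((2 * n).factorial : K) ≠ 0 := Nat.cast_ne_zero.2 (Nat.factorial_ne_zero _)
  have hne3 : (Nat.multinomial Finset.univ γ : K) ≠ 0 := by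
    intro h0
    rw [h0, mul_zero] at hmul
    exact hne2 hmul.symm
  by_cases hev : ∀ i, Even (γ i)
  · -- all the exponents are even
    set β : σ → ℕ := fun i => γ i / 2 with hβ
    have hβγ : ∀ i, γ i = 2 * β i := fun i => (Nat.two_mul_div_two_of_even (hev i)).symm
    have hsum : ∑ i, β i = n := by
      have h7 : ∑ i, γ i = 2 * ∑ i, β i := by
        rw [Finset.mul_sum]
        exact Finset.sum_congr rfl fun i _ => hβγ i
      omega
    have hβm : β ∈ Finset.univ.piAntidiag n := by
      rw [Finset.mem_piAntidiag]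
      exact ⟨hsum, fun i _ => Finset.mem_univ i⟩
    have hγβ : Finsupp.equivFunOnFinite.symm (fun i => 2 * β i) = γ := by
      ext i
      rw [Finsupp.coe_equivFunOnFinite_symm]
      exact (hβγ i).symm
    have h8 : coeff γ G = (c : K) * ((Nat.multinomial Finset.univ β : K) *
        ∏ i, (q i : K) ^ β i) := by
      rw [hcG, Finset.sum_eq_single β]
      · rw [if_pos hγβ, mul_one]
      · intro k _ hk
        rw [if_neg, mul_zero]
        intro h
        apply hk
        funext i
        have h9 := DFunLike.congr_fun h i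
        rw [Finsupp.coe_equivFunOnFinite_symm, hβγ i] at h9
        omega
      · intro h
        exact absurd hβm h
    have hmul' : ((∏ i, ((β i).factorial : K)) * (Nat.multinomial Finset.univ β : K)) =
        (n.factorial : K) := by
      have := Nat.multinomial_spec Finset.univ β
      rw [hsum] at this
      exact_mod_cast this
    have hne4 : ((∏ i, ((β i).factorial : K))) ≠ 0 :=
      Finset.prod_ne_zero_iff.2 fun i _ => Nat.cast_ne_zero.2 (Nat.factorial_ne_zero _)
    have h10 : (wick n c q γ : K) = c * ((n.factorial : K) / ((2 * n).factorial : K)) *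
        (((∏ i, ((γ i).factorial : K)) / (∏ i, ((β i).factorial : K))) *
          ∏ i, (q i : K) ^ β i) := by
      rw [wick]
      push_cast
      congr 1
      rw [← Finset.prod_div_distrib, ← Finset.prod_mul_distrib]
      refine Finset.prod_congr rfl fun i _ => ?_
      rw [wf, if_pos (hev i)]
      push_cast
      rfl
    rw [h8] at h6
    apply mul_left_cancel₀ hne3
    rw [h6, h10, ← hmul, ← hmul']
    field_simp
  · push Not at hev
    obtain ⟨i, hi⟩ := hev
    rw [Nat.not_even_iff_odd] at hi
    rw [wick_odd hi, Rat.cast_zero]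
    have h7 : coeff γ G = 0 := by
      rw [hcG]
      refine Finset.sum_eq_zero fun k _ => ?_
      rw [if_neg, mul_zero]
      intro h
      have h9 := DFunLike.congr_fun h i
      rw [Finsupp.coe_equivFunOnFinite_symm] at h9
      rw [← h9] at hi
      exact (Nat.not_even_iff_odd.2 hi) ⟨k i, by ring⟩
    rw [h7] at h6
    exact (mul_eq_zero.1 h6).resolve_left hne3

end Mono

end Pool.Agent.K4H28.FV
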